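import Mathlib
import Pool.Graph.R_seed8.Y689.SY.HH
import Pool.Graph.R_seed8.Y604.SY.Pull

/-!
# Small shifts in a chart
-/

set_option autoImplicit false

open Set Filter Topology MeasureTheory Metric
open scoped Manifold ContDiff

noncomputable section

namespace Pool.Agent.H819.LG

open Pool.Agent.Y501.SY

variable {d : ℕ} {X : Type} [TopologicalSpace X] [ChartedSpace (E d) X]

variable (d X) in
/-- a chart with a cut-off function -/
structure Cut where
  x₀ : X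
  χ : E d → ℝ
  R : ℝ
  smooth : ContDiff ℝ ∞ χ
  nonneg : ∀ z, 0 ≤ χ z
  le_one : ∀ z, χ z ≤ 1
  comp : HasCompactSupport χ
  pos : 0 < R
  sub : ∀ z ∈ tsupport χ, closedBall z R ⊆ (chartAt (E d) x₀).target

/-- the chart -/
abbrev Cut.e (c : Cut d X) : OpenPartialHomeomorph X (E d) := chartAt (E d) c.x₀

/-- the shift `z ↦ z + χ(z) y` -/
def Cut.lo (c : Cut d X) (y z : E d) : E d := z + c.χ z • y

open Classical in
/-- the shift of the manifold, equal to `z ↦ z + χ(z) y` in the chart and to the identity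
outside the chart -/
def Cut.sh (c : Cut d X) (y : E d) (p : X) : X :=
  if p ∈ c.e.source then c.e.symm (c.lo y (c.e p)) else p

theorem Cut.sh_of_mem (c : Cut d X) (y : E d) {p : X} (hp : p ∈ c.e.source) :
    c.sh y p = c.e.symm (c.lo y (c.e p)) := if_pos hp

theorem Cut.sh_of_notMem (c : Cut d X) (y : E d) {p : X} (hp : p ∉ c.e.source) :
    c.sh y p = p := if_neg hp

theorem Cut.lo_mem (c : Cut d X) {y z : E d} (hy : ‖y‖ ≤ c.R) (hz : z ∈ c.e.target) {t : ℝ}
    (ht : t ∈ Icc (0 : ℝ) 1) : z + t • c.χ z • y ∈ c.e.target := by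
  by_cases h : z ∈ tsupport c.χ
  · apply c.sub z h
    rw [mem_closedBall, dist_eq_norm, add_sub_cancel_left, norm_smul, norm_smul,
      Real.norm_eq_abs, Real.norm_eq_abs, abs_of_nonneg ht.1, abs_of_nonneg (c.nonneg z)]
    have h1 : c.χ z * ‖y‖ ≤ 1 * c.R :=
      mul_le_mul (c.le_one z) hy (norm_nonneg _) zero_le_one
    have h2 : 0 ≤ c.χ z * ‖y‖ := mul_nonneg (c.nonneg z) (norm_nonneg y)
    nlinarith [ht.1, ht.2]
  · rw [image_eq_zero_of_notMem_tsupport h, zero_smul, smul_zero, add_zero]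
    exact hz

theorem Cut.lo_mem' (c : Cut d X) {y z : E d} (hy : ‖y‖ ≤ c.R) (hz : z ∈ c.e.target) :
    c.lo y z ∈ c.e.target := by
  have := c.lo_mem hy hz (t := 1) ⟨zero_le_one, le_rfl⟩
  rwa [one_smul] at this

theorem Cut.sh_zero (c : Cut d X) (p : X) : c.sh 0 p = p := by
  by_cases hp : p ∈ c.e.source
  · rw [c.sh_of_mem 0 hp]
    simp [Cut.lo, c.e.left_inv hp]
  · exact c.sh_of_notMem 0 hp

theorem Cut.sh_symm (c : Cut d X) (y : E d) {z : E d} (hz : z ∈ c.e.target) :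
    c.sh y (c.e.symm z) = c.e.symm (c.lo y z) := by
  rw [c.sh_of_mem y (c.e.map_target hz), c.e.right_inv hz]

theorem Cut.sh_one (c : Cut d X) (y : E d) {z : E d} (hz : z ∈ c.e.target) (h : c.χ z = 1) :
    c.sh y (c.e.symm z) = c.e.symm (z + y) := by
  rw [c.sh_symm y hz, Cut.lo, h, one_smul]

/-- the set where the shift may move points -/
def Cut.M (c : Cut d X) : Set X := c.e.symm '' tsupport c.χ

theorem Cut.tsub (c : Cut d X) : tsupport c.χ ⊆ c.e.target :=
  fun z hz => c.sub z hz (mem_closedBall_self c.pos.le)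

theorem Cut.M_compact (c : Cut d X) : IsCompact c.M :=
  c.comp.isCompact.image_of_continuousOn (c.e.continuousOn_symm.mono c.tsub)

theorem Cut.M_source (c : Cut d X) : c.M ⊆ c.e.source := by
  rintro _ ⟨z, hz, rfl⟩
  exact c.e.map_target (c.tsub hz)

theorem Cut.sh_eq_self (c : Cut d X) (y : E d) {p : X} (hp : p ∉ c.M) : c.sh y p = p := by
  by_cases hs : p ∈ c.e.source
  · have h : c.χ (c.e p) = 0 := image_eq_zero_of_notMem_tsupport
      fun h => hp ⟨_, h, c.e.left_inv hs⟩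
    rw [c.sh_of_mem y hs, Cut.lo, h, zero_smul, add_zero, c.e.left_inv hs]
  · exact c.sh_of_notMem y hs

variable [IsManifold (𝓡 d) ∞ X]

/-- The shift is smooth, jointly in the point and the translation vector. -/
theorem Cut.contMDiffAt_sh [T2Space X] (c : Cut d X) {y₀ : E d} (hy : ‖y₀‖ < c.R) (p₀ : X) :
    ContMDiffAt (𝓘(ℝ, E d).prod (𝓡 d)) (𝓡 d) ∞ (fun q : E d × X => c.sh q.1 q.2) (y₀, p₀) := by
  by_cases hp : p₀ ∈ c.M
  · have hs := c.M_source hp
    have h1 : (fun q : E d × X => c.sh q.1 q.2) =ᶠ[𝓝 (y₀, p₀)]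
        fun q => c.e.symm (c.e q.2 + c.χ (c.e q.2) • q.1) := by
      have : ∀ᶠ q : E d × X in 𝓝 (y₀, p₀), q.2 ∈ c.e.source :=
        continuous_snd.continuousAt.eventually (c.e.open_source.mem_nhds hs)
      filter_upwards [this] with q hq
      rw [c.sh_of_mem q.1 hq, Cut.lo]
    refine ContMDiffAt.congr_of_eventuallyEq ?_ h1
    have hcs : ContMDiffAt (𝓡 d) (𝓡 d) ∞ c.e p₀ := contMDiffOn_chart.contMDiffAt
      (c.e.open_source.mem_nhds hs)
    have h2 : ContMDiffAt (𝓘(ℝ, E d).prod (𝓡 d)) (𝓡 d) ∞ (fun q : E d × X => c.e q.2)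
        (y₀, p₀) := hcs.comp (y₀, p₀) contMDiffAt_snd
    have h3 : ContMDiffAt (𝓘(ℝ, E d).prod (𝓡 d)) 𝓘(ℝ, ℝ) ∞ (fun q : E d × X => c.χ (c.e q.2))
        (y₀, p₀) := (c.smooth.contMDiff.contMDiffAt).comp (y₀, p₀) h2
    have h4 : ContMDiffAt (𝓘(ℝ, E d).prod (𝓡 d)) (𝓡 d) ∞
        (fun q : E d × X => c.e q.2 + c.χ (c.e q.2) • q.1) (y₀, p₀) :=
      h2.add (h3.smul contMDiffAt_fst)
    have h5 : ContMDiffAt (𝓡 d) (𝓡 d) ∞ c.e.symm (c.e p₀ + c.χ (c.e p₀) • y₀) := by
      refine contMDiffOn_chart_symm.contMDiffAt (c.e.open_target.mem_nhds ?_)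
      exact c.lo_mem' hy.le (c.e.map_source hs)
    exact h5.comp (y₀, p₀) h4
  · have h1 : (fun q : E d × X => c.sh q.1 q.2) =ᶠ[𝓝 (y₀, p₀)] fun q => q.2 := by
      have : ∀ᶠ q : E d × X in 𝓝 (y₀, p₀), q.2 ∈ c.Mᶜ :=
        continuous_snd.continuousAt.eventually
          (c.M_compact.isClosed.isOpen_compl.mem_nhds hp)
      filter_upwards [this] with q hq
      exact c.sh_eq_self q.1 hq
    exact contMDiffAt_snd.congr_of_eventuallyEq h1

theorem Cut.contMDiff_sh [T2Space X] (c : Cut d X) {y : E d} (hy : ‖y‖ < c.R) :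
    ContMDiff (𝓡 d) (𝓡 d) ∞ (c.sh y) := by
  intro p
  have h := c.contMDiffAt_sh hy p
  exact h.comp p (contMDiffAt_const.prodMk contMDiffAt_id)

end Pool.Agent.H819.LG
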