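import Mathlib
import Pool.Agent.H819.LG.Shift
import Pool.Graph.R_seed8.Y487.SY.Patch
import Pool.Graph.R_seed8.Y891.SY.PatchP

/-!
# Pull-back by a small shift does not change the cohomology class
-/

set_option autoImplicit false

open Set Filter Topology MeasureTheory Metric
open scoped Manifold ContDiff

noncomputable section

namespace Pool.Agent.H819.LG

open Pool.Agent.Y501.SY
open Pool.Agent.Y487.SY (comp_chain)
open Pool.Agent.Y891.SY (contDiffAt_extDeriv pb_sub)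
open Pool.Agent.Y604.SY (contDiff_pull)
open Pool.Agent.Y689.SY (gg gg_smooth ext_gg)

variable {d : ℕ} {X : Type} [TopologicalSpace X] [ChartedSpace (E d) X]

theorem pb_congr {k : ℕ} (σ : Form d X k) {F H : E d → X} {p : E d} (h : F =ᶠ[𝓝 p] H) :
    pb F σ p = pb H σ p := by
  have hp : F p = H p := h.eq_of_nhds
  have hd : (mfderiv (𝓡 d) (𝓡 d) F p : E d →L[ℝ] E d) = mfderiv (𝓡 d) (𝓡 d) H p :=
    h.mfderiv_eq
  ext v
  show (σ (F p) : (E d) [⋀^Fin k]→L[ℝ] ℝ)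
      (fun i => (mfderiv (𝓡 d) (𝓡 d) F p : E d →L[ℝ] E d) (v i)) =
    (σ (H p) : (E d) [⋀^Fin k]→L[ℝ] ℝ)
      (fun i => (mfderiv (𝓡 d) (𝓡 d) H p : E d →L[ℝ] E d) (v i))
  rw [hd, hp]

theorem pb_congr_form {k : ℕ} {σ τ : Form d X k} (φ : E d → X) {p : E d} (h : σ (φ p) = τ (φ p)) :
    pb φ σ p = pb φ τ p := by
  unfold pb
  rw [h]

/-- chain rule for maps of the model space -/
theorem pb_comp {k : ℕ} (σ : Form d X k) {F : E d → X} {g : E d → E d} {p : E d}
    (hF : MDifferentiableAt (𝓡 d) (𝓡 d) F (g p)) (hg : DifferentiableAt ℝ g p) :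
    pb (F ∘ g) σ p = (pb F σ (g p)).compContinuousLinearMap (fderiv ℝ g p) := by
  unfold pb
  have hg' : MDifferentiableAt (𝓡 d) (𝓡 d) g p := hg.mdifferentiableAt
  rw [mfderiv_comp p hF hg', mfderiv_eq_fderiv]
  rfl

/-- chain rule for maps of the manifold -/
theorem pb_pull (σ : Form d X 2) {f : X → X} {φ : E d → X} {p : E d}
    (hf : MDifferentiableAt (𝓡 d) (𝓡 d) f (φ p)) (hφ : MDifferentiableAt (𝓡 d) (𝓡 d) φ p) :
    pb φ (pull (d := d) f σ) p = pb (f ∘ φ) σ p := by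
  unfold pb pull
  rw [mfderiv_comp p hf hφ]
  rfl

section

variable [IsManifold (𝓡 d) ∞ X]

theorem mdiff_symm (x₀ : X) {z : E d} (hz : z ∈ (chartAt (E d) x₀).target) :
    MDifferentiableAt (𝓡 d) (𝓡 d) (chartAt (E d) x₀).symm z :=
  (contMDiffOn_chart_symm.contMDiffAt
    ((chartAt (E d) x₀).open_target.mem_nhds hz)).mdifferentiableAt (n := ∞) (by simp)

theorem mdiff_chart (x₀ : X) {p : X} (hp : p ∈ (chartAt (E d) x₀).source) :
    MDifferentiableAt (𝓡 d) (𝓡 d) (chartAt (E d) x₀) p :=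
  (contMDiffOn_chart.contMDiffAt
    ((chartAt (E d) x₀).open_source.mem_nhds hp)).mdifferentiableAt (n := ∞) (by simp)

end

/-- The primitive in the chart. -/
theorem Cut.exists_local (c : Cut d X) {y : E d} (hy : ‖y‖ < c.R) {t : E d → (E d) [⋀^Fin 2]→L[ℝ] ℝ}
    (ht : ContDiffOn ℝ ∞ t c.e.target) (hcl : ∀ z ∈ c.e.target, extDeriv t z = 0) :
    ∃ b : E d → (E d) [⋀^Fin 1]→L[ℝ] ℝ, ContDiff ℝ ∞ b ∧ (∀ z, z ∉ tsupport c.χ → b z = 0) ∧
      ∀ z ∈ c.e.target, extDeriv b z = (t (c.lo y z)).compContinuousLinearMap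
        (fderiv ℝ (c.lo y) z) - t z := by
  have hlo : ∀ z, fderiv ℝ (c.lo y) z =
      ContinuousLinearMap.id ℝ (E d) + (fderiv ℝ c.χ z).smulRight y := by
    intro z
    have h1 : HasFDerivAt c.χ (fderiv ℝ c.χ z) z :=
      ((c.smooth.differentiable (by simp)) z).hasFDerivAt
    exact ((hasFDerivAt_id z).add (h1.smul_const y)).fderiv
  obtain ⟨Q, hQ⟩ : ∃ Q : Set (E d), Q = (fun q : ℝ × E d => q.2 + q.1 • c.χ q.2 • y) ''
    (Icc (0 : ℝ) 1 ×ˢ tsupport c.χ) := ⟨_, rfl⟩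
  have hQc : IsCompact Q := by
    rw [hQ]
    refine (isCompact_Icc.prod c.comp.isCompact).image ?_
    have := c.smooth.continuous
    fun_prop
  have hQV : Q ⊆ c.e.target := by
    rw [hQ]
    rintro _ ⟨q, hq, rfl⟩
    exact c.lo_mem hy.le (c.tsub hq.2) hq.1
  obtain ⟨κ, hκ0, hκ1, -⟩ := exists_contMDiffMap_zero_one_nhds_of_isClosed (n := (⊤ : ℕ∞)) (𝓡 d)
    c.e.open_target.isClosed_compl hQc.isClosed (by
      rw [Set.disjoint_left]
      intro z hz hz'
      exact hz (hQV hz'))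
  have hκ : ContDiff ℝ ∞ (fun z => κ z) := κ.contMDiff.contDiff
  obtain ⟨t', ht'⟩ : ∃ t' : E d → (E d) [⋀^Fin 2]→L[ℝ] ℝ, t' = fun z => κ z • t z := ⟨_, rfl⟩
  have hs' : ContDiff ℝ ∞ t' := by
    rw [contDiff_iff_contDiffAt]
    intro z
    by_cases hz : z ∈ c.e.target
    · rw [ht']
      exact hκ.contDiffAt.smul (ht.contDiffAt (c.e.open_target.mem_nhds hz))
    · have h1 : ∀ᶠ x in 𝓝 z, κ x = 0 := hκ0.filter_mono (nhds_le_nhdsSet hz)
      refine (contDiffAt_const (c := (0 : (E d) [⋀^Fin 2]→L[ℝ] ℝ))).congr_of_eventuallyEq ?_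
      filter_upwards [h1] with x hx
      rw [ht']
      simp only
      rw [hx, zero_smul]
  have heq : ∀ z ∈ Q, t' =ᶠ[𝓝 z] t := by
    intro z hz
    have h1 : ∀ᶠ x in 𝓝 z, κ x = 1 := hκ1.filter_mono (nhds_le_nhdsSet hz)
    filter_upwards [h1] with x hx
    rw [ht']
    simp only
    rw [hx, one_smul]
  have hb0 : ∀ z, z ∉ tsupport c.χ → gg t' c.χ y z = 0 := by
    intro z hz
    have h1 : c.χ z = 0 := image_eq_zero_of_notMem_tsupport hz
    ext w
    unfold gg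
    rw [Pool.Agent.Y431.SY.G_apply hs']
    have h2 : ∀ (q : (E d) [⋀^Fin 2]→L[ℝ] ℝ) (w : Fin 1 → E d), q (Matrix.vecCons 0 w) = 0 :=
      fun q w => q.map_coord_zero 0 rfl
    rw [h1, zero_smul]
    have h3 : ∀ s ∈ Icc (0 : ℝ) 1, (t' (z + s • (0 : E d))) (Matrix.vecCons 0 w) = 0 :=
      fun s _ => h2 _ w
    rw [setIntegral_congr_fun measurableSet_Icc h3]
    rw [integral_zero]
    rfl
  refine ⟨gg t' c.χ y, ?_, hb0, ?_⟩
  · have h1 : ContDiff ℝ ∞ (fun x : E d => (y, x)) := contDiff_prodMk_right y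
    have h0 := gg_smooth hs' c.smooth
    exact ContDiff.comp (g := fun q : E d × E d => gg t' c.χ q.1 q.2) (f := fun x => (y, x)) h0 h1
  · intro z hz
    by_cases h : z ∈ tsupport c.χ
    · have h1 : ∀ s ∈ Icc (0 : ℝ) 1, z + s • c.χ z • y ∈ Q := by
        intro s hs
        rw [hQ]
        exact ⟨(s, z), ⟨hs, h⟩, rfl⟩
      have e0 := (heq _ (h1 0 ⟨le_rfl, zero_le_one⟩)).self_of_nhds
      have e1 := (heq _ (h1 1 ⟨zero_le_one, le_rfl⟩)).self_of_nhds
      rw [zero_smul, add_zero] at e0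
      rw [one_smul] at e1
      rw [ext_gg hs' c.smooth y z ?_, e0, e1, hlo z]
      · rfl
      · intro s hs
        rw [(heq _ (h1 s hs)).extDeriv_eq]
        exact hcl _ (hQV (h1 s hs))
    · have h1 : gg t' c.χ y =ᶠ[𝓝 z] fun _ => 0 := by
        filter_upwards [(isClosed_tsupport c.χ).isOpen_compl.mem_nhds h] with x hx
        exact hb0 x hx
      have h2 : c.χ z = 0 := image_eq_zero_of_notMem_tsupport h
      have h3 : fderiv ℝ c.χ z = 0 := by
        have : c.χ =ᶠ[𝓝 z] fun _ => 0 := notMem_tsupport_iff_eventuallyEq.1 h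
        rw [this.fderiv_eq]
        simp
      rw [h1.extDeriv_eq, hlo z, h3]
      have h4 : c.lo y z = z := by rw [Cut.lo, h2, zero_smul, add_zero]
      rw [h4]
      have h5 : extDeriv (fun _ : E d => (0 : (E d) [⋀^Fin 1]→L[ℝ] ℝ)) z = 0 := by
        ext v
        rw [extDeriv_apply (by fun_prop)]
        simp
      rw [h5]
      ext v
      simp

end Pool.Agent.H819.LG
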