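import Mathlib
import Pool.Agent.H819.LG.Prim

/-!
# Pull-back by a small shift does not change the cohomology class
-/

set_option autoImplicit false

open Set Filter Topology MeasureTheory Metric
open scoped Manifold ContDiff

noncomputable section

namespace Pool.Agent.H819.LG

open Pool.Agent.Y501.SY
open Pool.Agent.Y487.SY (comp_chain)
open Pool.Agent.Y891.SY (contDiffAt_extDeriv pb_sub)
open Pool.Agent.Y604.SY (contDiff_pull)

variable {d : ℕ} {X : Type} [TopologicalSpace X] [ChartedSpace (E d) X] [IsManifold (𝓡 d) ∞ X]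

/-- a one-form given in a chart -/
def Cut.ext (c : Cut d X) (b : E d → (E d) [⋀^Fin 1]→L[ℝ] ℝ) : Form d X 1 := fun x =>
  letI := Classical.propDecidable (x ∈ c.e.source)
  if x ∈ c.e.source then (b (c.e x)).compContinuousLinearMap (mfderiv (𝓡 d) (𝓡 d) c.e x) else 0

omit [IsManifold (𝓡 d) ∞ X] in
theorem Cut.ext_of_mem (c : Cut d X) (b : E d → (E d) [⋀^Fin 1]→L[ℝ] ℝ) {x : X}
    (hx : x ∈ c.e.source) : c.ext b x = (b (c.e x)).compContinuousLinearMap
      (mfderiv (𝓡 d) (𝓡 d) c.e x) := if_pos hx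

omit [IsManifold (𝓡 d) ∞ X] in
theorem Cut.ext_of_notMem (c : Cut d X) (b : E d → (E d) [⋀^Fin 1]→L[ℝ] ℝ) {x : X}
    (hx : x ∉ c.e.source) : c.ext b x = 0 := if_neg hx

omit [IsManifold (𝓡 d) ∞ X] in
theorem Cut.ext_zero (c : Cut d X) (b : E d → (E d) [⋀^Fin 1]→L[ℝ] ℝ)
    (hb : ∀ z, z ∉ tsupport c.χ → b z = 0) {x : X} (hx : x ∉ c.M) : c.ext b x = 0 := by
  by_cases h : x ∈ c.e.source
  · rw [c.ext_of_mem b h, hb]
    · rfl
    · intro h'
      exact hx ⟨_, h', c.e.left_inv h⟩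
  · exact c.ext_of_notMem b h

theorem smooth2 : minSmoothness ℝ 2 ≤ (∞ : WithTop ℕ∞) := by
  rw [minSmoothness_of_isRCLikeNormedField]
  exact WithTop.coe_le_coe.2 (le_top : (2 : ℕ∞) ≤ ⊤)

theorem extDeriv_zero' {k : ℕ} (z : E d) :
    extDeriv (fun _ : E d => (0 : (E d) [⋀^Fin k]→L[ℝ] ℝ)) z = 0 := by
  ext v
  rw [extDeriv_apply (differentiableAt_const _)]
  simp

theorem closed_chart {σ : Form d X 2} (h : IsClosedForm σ) (x₀ : X) :
    ∀ z ∈ (chartAt (E d) x₀).target, extDeriv (pb (chartAt (E d) x₀).symm σ) z = 0 := by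
  intro z hz
  rw [h _ _ (chartAt (E d) x₀).open_target contMDiffOn_chart_symm z hz]
  rfl

theorem smooth_chart {k : ℕ} {σ : Form d X k} (h : IsSmooth σ) (x₀ : X) :
    ContDiffOn ℝ ∞ (pb (chartAt (E d) x₀).symm σ) (chartAt (E d) x₀).target :=
  h _ _ (chartAt (E d) x₀).open_target contMDiffOn_chart_symm

theorem Cut.exists_primitive [T2Space X] (c : Cut d X) {y : E d} (hy : ‖y‖ < c.R)
    {σ : Form d X 2} (hσ : IsSmooth σ) (hσc : IsClosedForm σ) :
    ∃ β : Form d X 1, IsSmooth β ∧ IsD β (pull (d := d) (c.sh y) σ - σ) := by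
  obtain ⟨b, hb, hb0, hbd⟩ := c.exists_local hy (smooth_chart hσ c.x₀) (closed_chart hσc c.x₀)
  have hsm := c.contMDiff_sh hy
  -- the pull-back of `β` near a point of the chart
  have key1 : ∀ (U : Set (E d)) (φ : E d → X), IsOpen U → ContMDiffOn (𝓡 d) (𝓡 d) ∞ φ U →
      ∀ p ∈ U, φ p ∈ c.e.source → ContDiffAt ℝ ∞ (c.e ∘ φ) p ∧
        (∀ᶠ q in 𝓝 p, q ∈ U ∧ φ q ∈ c.e.source) := by
    intro U φ hU hφ p hp hs
    have h1 : ContMDiffAt (𝓡 d) (𝓡 d) ∞ φ p := hφ.contMDiffAt (hU.mem_nhds hp)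
    have h2 : ContMDiffAt (𝓡 d) (𝓡 d) ∞ c.e (φ p) := contMDiffOn_chart.contMDiffAt
      (c.e.open_source.mem_nhds hs)
    refine ⟨contMDiffAt_iff_contDiffAt.1 (h2.comp p h1), ?_⟩
    have h3 : ∀ᶠ q in 𝓝 p, q ∈ U := hU.mem_nhds hp
    exact h3.and (h1.continuousAt.eventually (c.e.open_source.mem_nhds hs))
  have key2 : ∀ (U : Set (E d)) (φ : E d → X), IsOpen U → ContMDiffOn (𝓡 d) (𝓡 d) ∞ φ U →
      ∀ p ∈ U, φ p ∈ c.e.source → pb φ (c.ext b) =ᶠ[𝓝 p]
        fun q => (b ((c.e ∘ φ) q)).compContinuousLinearMap (fderiv ℝ (c.e ∘ φ) q) := by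
    intro U φ hU hφ p hp hs
    filter_upwards [(key1 U φ hU hφ p hp hs).2] with q hq
    have h1 : MDifferentiableAt (𝓡 d) (𝓡 d) φ q :=
      (hφ.contMDiffAt (hU.mem_nhds hq.1)).mdifferentiableAt (by simp)
    unfold pb
    rw [c.ext_of_mem b hq.2]
    exact comp_chain _ (mdiff_chart c.x₀ hq.2) h1
  have key3 : ∀ (U : Set (E d)) (φ : E d → X), IsOpen U → ContMDiffOn (𝓡 d) (𝓡 d) ∞ φ U →
      ∀ p ∈ U, φ p ∉ c.M → (∀ᶠ q in 𝓝 p, φ q ∉ c.M) ∧ pb φ (c.ext b) =ᶠ[𝓝 p] fun _ => 0 := by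
    intro U φ hU hφ p hp hs
    have h1 : ContMDiffAt (𝓡 d) (𝓡 d) ∞ φ p := hφ.contMDiffAt (hU.mem_nhds hp)
    have h2 : ∀ᶠ q in 𝓝 p, φ q ∉ c.M :=
      h1.continuousAt.eventually (c.M_compact.isClosed.isOpen_compl.mem_nhds hs)
    refine ⟨h2, ?_⟩
    filter_upwards [h2] with q hq
    rw [pb_congr_form (τ := 0) φ (c.ext_zero b hb0 hq)]
    rfl
  refine ⟨c.ext b, ?_, ?_⟩
  · intro U φ hU hφ p hp
    refine ContDiffAt.contDiffWithinAt ?_
    by_cases hs : φ p ∈ c.M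
    · have hs' := c.M_source hs
      refine ContDiffAt.congr_of_eventuallyEq ?_ (key2 U φ hU hφ p hp hs')
      have h1 := (key1 U φ hU hφ p hp hs').1
      have h2 : ContDiffAt ℝ ∞ (fun q => b ((c.e ∘ φ) q)) p := hb.contDiffAt.comp p h1
      have h3 : ContDiffAt ℝ ∞ (fderiv ℝ (c.e ∘ φ)) p := h1.fderiv_right (by simp)
      exact (contDiff_pull (ι := Fin 1) (V := E d) (V' := E d)).contDiffAt.comp p (h2.prodMk h3)
    · exact contDiffAt_const.congr_of_eventuallyEq (key3 U φ hU hφ p hp hs).2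
  · intro U φ hU hφ p hp
    have hφp : MDifferentiableAt (𝓡 d) (𝓡 d) φ p :=
      (hφ.contMDiffAt (hU.mem_nhds hp)).mdifferentiableAt (by simp)
    have hrhs : pb φ (pull (d := d) (c.sh y) σ - σ) p = pb (c.sh y ∘ φ) σ p - pb φ σ p := by
      rw [pb_sub, pb_pull σ ((hsm (φ p)).mdifferentiableAt (by simp)) hφp]
    rw [hrhs]
    by_cases hs : φ p ∈ c.M
    · have hs' := c.M_source hs
      have hk := key1 U φ hU hφ p hp hs'
      rw [(key2 U φ hU hφ p hp hs').extDeriv_eq,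
        extDeriv_pullback (r := ∞) (hb.differentiable (by simp) _) hk.1
          smooth2, show extDeriv b ((c.e ∘ φ) p) = _ from hbd _ (c.e.map_source hs')]
      have hlo : Differentiable ℝ (c.lo y) := by
        have := c.smooth.differentiable (n := ∞) (by simp)
        unfold Cut.lo
        fun_prop
      have e1 : pb (c.sh y ∘ φ) σ p = (pb c.e.symm σ (c.lo y (c.e (φ p)))).compContinuousLinearMap
          (fderiv ℝ (c.lo y ∘ (c.e ∘ φ)) p) := by
        have h1 : c.sh y ∘ φ =ᶠ[𝓝 p] c.e.symm ∘ (c.lo y ∘ (c.e ∘ φ)) := by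
          filter_upwards [hk.2] with q hq
          exact c.sh_of_mem y hq.2
        rw [pb_congr σ h1]
        exact pb_comp σ (mdiff_symm c.x₀ (c.lo_mem' hy.le (c.e.map_source hs')))
          ((hlo _).comp p (hk.1.differentiableAt (by simp)))
      have e2 : pb φ σ p = (pb c.e.symm σ (c.e (φ p))).compContinuousLinearMap
          (fderiv ℝ (c.e ∘ φ) p) := by
        have h1 : φ =ᶠ[𝓝 p] c.e.symm ∘ (c.e ∘ φ) := by
          filter_upwards [hk.2] with q hq
          exact (c.e.left_inv hq.2).symm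
        rw [pb_congr σ h1]
        exact pb_comp σ (mdiff_symm c.x₀ (c.e.map_source hs'))
          (hk.1.differentiableAt (by simp))
      have e3 : fderiv ℝ (c.lo y ∘ (c.e ∘ φ)) p =
          (fderiv ℝ (c.lo y) (c.e (φ p))).comp (fderiv ℝ (c.e ∘ φ) p) :=
        fderiv_comp p (hlo _) (hk.1.differentiableAt (by simp))
      rw [e1, e2, e3]
      rfl
    · obtain ⟨h1, h2⟩ := key3 U φ hU hφ p hp hs
      rw [h2.extDeriv_eq, extDeriv_zero']
      have h3 : c.sh y ∘ φ =ᶠ[𝓝 p] φ := by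
        filter_upwards [h1] with q hq
        exact c.sh_eq_self y hq
      rw [pb_congr σ h3, sub_self]

end Pool.Agent.H819.LG
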