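import Mathlib
import Pool.Agent.H819.LG.Prim2

/-!
# Extension by zero of a form with compact support in a chart
-/

set_option autoImplicit false

open Set Filter Topology MeasureTheory Metric
open scoped Manifold ContDiff

noncomputable section

namespace Pool.Agent.H819.LG

open Pool.Agent.Y501.SY
open Pool.Agent.Y487.SY (comp_chain)
open Pool.Agent.Y891.SY (contDiffAt_extDeriv pb_sub)
open Pool.Agent.Y604.SY (contDiff_pull)

variable {d : ℕ} {X : Type} [TopologicalSpace X] [ChartedSpace (E d) X]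

/-- a form given in a chart, extended by zero -/
def extF {k : ℕ} (x₀ : X) (b : E d → (E d) [⋀^Fin k]→L[ℝ] ℝ) : Form d X k := fun x =>
  letI := Classical.propDecidable (x ∈ (chartAt (E d) x₀).source)
  if x ∈ (chartAt (E d) x₀).source then (b (chartAt (E d) x₀ x)).compContinuousLinearMap
    (mfderiv (𝓡 d) (𝓡 d) (chartAt (E d) x₀) x) else 0

theorem extF_of_mem {k : ℕ} (x₀ : X) (b : E d → (E d) [⋀^Fin k]→L[ℝ] ℝ) {x : X}
    (hx : x ∈ (chartAt (E d) x₀).source) : extF x₀ b x =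
      (b (chartAt (E d) x₀ x)).compContinuousLinearMap
      (mfderiv (𝓡 d) (𝓡 d) (chartAt (E d) x₀) x) := if_pos hx

theorem extF_of_notMem {k : ℕ} (x₀ : X) (b : E d → (E d) [⋀^Fin k]→L[ℝ] ℝ) {x : X}
    (hx : x ∉ (chartAt (E d) x₀).source) : extF x₀ b x = 0 := if_neg hx

theorem extF_zero {k : ℕ} (x₀ : X) (b : E d → (E d) [⋀^Fin k]→L[ℝ] ℝ) {Q : Set (E d)}
    (hb : ∀ z, z ∉ Q → b z = 0) {x : X} (hx : x ∉ (chartAt (E d) x₀).symm '' Q) :
    extF x₀ b x = 0 := by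
  by_cases h : x ∈ (chartAt (E d) x₀).source
  · rw [extF_of_mem x₀ b h, hb]
    · ext v
      rfl
    · intro h'
      exact hx ⟨_, h', (chartAt (E d) x₀).left_inv h⟩
  · exact extF_of_notMem x₀ b h

variable [IsManifold (𝓡 d) ∞ X]

theorem extF_symm {k : ℕ} (x₀ : X) (b : E d → (E d) [⋀^Fin k]→L[ℝ] ℝ) {z : E d}
    (hz : z ∈ (chartAt (E d) x₀).target) : pb (chartAt (E d) x₀).symm (extF x₀ b) z = b z := by
  unfold pb
  rw [extF_of_mem x₀ b ((chartAt (E d) x₀).map_target hz), (chartAt (E d) x₀).right_inv hz]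
  ext v
  show b z (fun i => (mfderiv (𝓡 d) (𝓡 d) (chartAt (E d) x₀) ((chartAt (E d) x₀).symm z))
    ((mfderiv (𝓡 d) (𝓡 d) (chartAt (E d) x₀).symm z) (v i))) = b z v
  congr 1
  funext i
  exact Pool.Agent.Y455.SY.BA x₀ hz (v i)

section

variable {k : ℕ} {x₀ : X} {b : E d → (E d) [⋀^Fin k]→L[ℝ] ℝ} {Q : Set (E d)}

theorem extF_near {U : Set (E d)} {φ : E d → X} (hU : IsOpen U)
    (hφ : ContMDiffOn (𝓡 d) (𝓡 d) ∞ φ U) {p : E d} (hp : p ∈ U)
    (hs : φ p ∈ (chartAt (E d) x₀).source) : ContDiffAt ℝ ∞ (chartAt (E d) x₀ ∘ φ) p ∧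
      pb φ (extF x₀ b) =ᶠ[𝓝 p] fun q => (b ((chartAt (E d) x₀ ∘ φ) q)).compContinuousLinearMap
        (fderiv ℝ (chartAt (E d) x₀ ∘ φ) q) := by
  have h1 : ContMDiffAt (𝓡 d) (𝓡 d) ∞ φ p := hφ.contMDiffAt (hU.mem_nhds hp)
  have h2 : ContMDiffAt (𝓡 d) (𝓡 d) ∞ (chartAt (E d) x₀) (φ p) := contMDiffOn_chart.contMDiffAt
    ((chartAt (E d) x₀).open_source.mem_nhds hs)
  refine ⟨contMDiffAt_iff_contDiffAt.1 (h2.comp p h1), ?_⟩
  have h3 : ∀ᶠ q in 𝓝 p, q ∈ U := hU.mem_nhds hp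
  filter_upwards [h3, h1.continuousAt.eventually ((chartAt (E d) x₀).open_source.mem_nhds hs)]
    with q hq1 hq2
  have h4 : MDifferentiableAt (𝓡 d) (𝓡 d) φ q :=
    (hφ.contMDiffAt (hU.mem_nhds hq1)).mdifferentiableAt (by simp)
  unfold pb
  rw [extF_of_mem x₀ b hq2]
  exact comp_chain _ (mdiff_chart x₀ hq2) h4

theorem extF_far [T2Space X] (hQ : IsCompact Q) (hQt : Q ⊆ (chartAt (E d) x₀).target)
    (hb0 : ∀ z, z ∉ Q → b z = 0) {U : Set (E d)} {φ : E d → X} (hU : IsOpen U)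
    (hφ : ContMDiffOn (𝓡 d) (𝓡 d) ∞ φ U) {p : E d} (hp : p ∈ U)
    (hs : φ p ∉ (chartAt (E d) x₀).symm '' Q) : pb φ (extF x₀ b) =ᶠ[𝓝 p] fun _ => 0 := by
  have h1 : ContMDiffAt (𝓡 d) (𝓡 d) ∞ φ p := hφ.contMDiffAt (hU.mem_nhds hp)
  have hc : IsCompact ((chartAt (E d) x₀).symm '' Q) :=
    hQ.image_of_continuousOn ((chartAt (E d) x₀).continuousOn_symm.mono hQt)
  have h2 : ∀ᶠ q in 𝓝 p, φ q ∉ (chartAt (E d) x₀).symm '' Q :=
    h1.continuousAt.eventually (hc.isClosed.isOpen_compl.mem_nhds hs)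
  filter_upwards [h2] with q hq
  rw [pb_congr_form (τ := 0) φ (extF_zero x₀ b hb0 hq)]
  rfl

theorem smooth_extF [T2Space X] (hb : ContDiff ℝ ∞ b) (hQ : IsCompact Q)
    (hQt : Q ⊆ (chartAt (E d) x₀).target) (hb0 : ∀ z, z ∉ Q → b z = 0) :
    IsSmooth (extF x₀ b) := by
  intro U φ hU hφ p hp
  refine ContDiffAt.contDiffWithinAt ?_
  by_cases hs : φ p ∈ (chartAt (E d) x₀).symm '' Q
  · have hs' : φ p ∈ (chartAt (E d) x₀).source := by
      obtain ⟨z, hz, hz'⟩ := hs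
      rw [← hz']
      exact (chartAt (E d) x₀).map_target (hQt hz)
    obtain ⟨h1, h2⟩ := extF_near (b := b) hU hφ hp hs'
    refine ContDiffAt.congr_of_eventuallyEq ?_ h2
    have h3 : ContDiffAt ℝ ∞ (fun q => b ((chartAt (E d) x₀ ∘ φ) q)) p := hb.contDiffAt.comp p h1
    have h4 : ContDiffAt ℝ ∞ (fderiv ℝ (chartAt (E d) x₀ ∘ φ)) p := h1.fderiv_right (by simp)
    exact (contDiff_pull (ι := Fin k) (V := E d) (V' := E d)).contDiffAt.comp p (h3.prodMk h4)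
  · exact contDiffAt_const.congr_of_eventuallyEq (extF_far hQ hQt hb0 hU hφ hp hs)

theorem isD_extF [T2Space X] (hb : ContDiff ℝ ∞ b) (hQ : IsCompact Q)
    (hQt : Q ⊆ (chartAt (E d) x₀).target) (hb0 : ∀ z, z ∉ Q → b z = 0) :
    IsD (extF x₀ b) (extF x₀ (extDeriv b)) ∧ ∀ z, z ∉ Q → extDeriv b z = 0 := by
  have hz0 : ∀ z, z ∉ Q → extDeriv b z = 0 := by
    intro z hz
    have h1 : b =ᶠ[𝓝 z] fun _ => 0 := by
      filter_upwards [hQ.isClosed.isOpen_compl.mem_nhds hz] with x hx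
      exact hb0 x hx
    rw [h1.extDeriv_eq, extDeriv_zero']
  refine ⟨?_, hz0⟩
  intro U φ hU hφ p hp
  by_cases hs : φ p ∈ (chartAt (E d) x₀).symm '' Q
  · have hs' : φ p ∈ (chartAt (E d) x₀).source := by
      obtain ⟨z, hz, hz'⟩ := hs
      rw [← hz']
      exact (chartAt (E d) x₀).map_target (hQt hz)
    obtain ⟨h1, h2⟩ := extF_near (b := b) hU hφ hp hs'
    obtain ⟨-, h3⟩ := extF_near (b := extDeriv b) hU hφ hp hs'
    rw [h2.extDeriv_eq, h3.self_of_nhds,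
      extDeriv_pullback (r := ∞) (hb.differentiable (by simp) _) h1 smooth2]
  · rw [(extF_far hQ hQt hb0 hU hφ hp hs).extDeriv_eq, extDeriv_zero',
      (extF_far hQ hQt hz0 hU hφ hp hs).self_of_nhds]

end

end Pool.Agent.H819.LG
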