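import Mathlib
import Pool.Agent.H819.LG.Ext

/-!
# Comparison of the `L¹` norms in two charts
-/

set_option autoImplicit false

open Set Filter Topology MeasureTheory Metric
open scoped Manifold ContDiff ENNReal NNReal

noncomputable section

namespace Pool.Agent.H819.LG

open Pool.Agent.Y501.SY

variable {d : ℕ} {X : Type} [TopologicalSpace X] [ChartedSpace (E d) X]

/-- coordinate change -/
def tr (x₀ x₁ : X) (z : E d) : E d := chartAt (E d) x₁ ((chartAt (E d) x₀).symm z)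

/-- its domain -/
def trD (x₀ x₁ : X) : Set (E d) :=
  (chartAt (E d) x₀).target ∩ (chartAt (E d) x₀).symm ⁻¹' (chartAt (E d) x₁).source

theorem isOpen_trD (x₀ x₁ : X) : IsOpen (trD (d := d) x₀ x₁) :=
  (chartAt (E d) x₀).isOpen_inter_preimage_symm (chartAt (E d) x₁).open_source

theorem tr_maps {x₀ x₁ : X} {z : E d} (hz : z ∈ trD (d := d) x₀ x₁) :
    tr x₀ x₁ z ∈ trD (d := d) x₁ x₀ := by
  refine ⟨(chartAt (E d) x₁).map_source hz.2, ?_⟩
  show (chartAt (E d) x₁).symm (chartAt (E d) x₁ ((chartAt (E d) x₀).symm z)) ∈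
    (chartAt (E d) x₀).source
  rw [(chartAt (E d) x₁).left_inv hz.2]
  exact (chartAt (E d) x₀).map_target hz.1

theorem tr_inv {x₀ x₁ : X} {z : E d} (hz : z ∈ trD (d := d) x₀ x₁) :
    tr x₁ x₀ (tr x₀ x₁ z) = z := by
  unfold tr
  rw [(chartAt (E d) x₁).left_inv hz.2, (chartAt (E d) x₀).right_inv hz.1]

theorem tr_injOn (x₀ x₁ : X) : InjOn (tr (d := d) x₀ x₁) (trD x₀ x₁) := by
  intro z hz z' hz' h
  rw [← tr_inv hz, ← tr_inv hz', h]

variable [IsManifold (𝓡 d) ∞ X]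

theorem tr_smooth (x₀ x₁ : X) : ContDiffOn ℝ ∞ (tr (d := d) x₀ x₁) (trD x₀ x₁) := by
  intro z hz
  have h1 : ContMDiffAt (𝓡 d) (𝓡 d) ∞ (chartAt (E d) x₀).symm z :=
    contMDiffOn_chart_symm.contMDiffAt ((chartAt (E d) x₀).open_target.mem_nhds hz.1)
  have h2 : ContMDiffAt (𝓡 d) (𝓡 d) ∞ (chartAt (E d) x₁) ((chartAt (E d) x₀).symm z) :=
    contMDiffOn_chart.contMDiffAt ((chartAt (E d) x₁).open_source.mem_nhds hz.2)
  exact (contMDiffAt_iff_contDiffAt.1 (h2.comp z h1)).contDiffWithinAt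

theorem tr_diff {x₀ x₁ : X} {z : E d} (hz : z ∈ trD (d := d) x₀ x₁) :
    DifferentiableAt ℝ (tr (d := d) x₀ x₁) z :=
  ((tr_smooth x₀ x₁).contDiffAt ((isOpen_trD x₀ x₁).mem_nhds hz)).differentiableAt (by simp)

theorem tr_det {x₀ x₁ : X} {z : E d} (hz : z ∈ trD (d := d) x₀ x₁) :
    (fderiv ℝ (tr (d := d) x₀ x₁) z).det ≠ 0 := by
  have h1 : (fderiv ℝ (tr (d := d) x₁ x₀) (tr x₀ x₁ z)).comp (fderiv ℝ (tr (d := d) x₀ x₁) z) =
      ContinuousLinearMap.id ℝ (E d) := by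
    rw [← fderiv_comp z (tr_diff (tr_maps hz)) (tr_diff hz)]
    have h2 : tr (d := d) x₁ x₀ ∘ tr x₀ x₁ =ᶠ[𝓝 z] id := by
      filter_upwards [(isOpen_trD x₀ x₁).mem_nhds hz] with y hy
      exact tr_inv hy
    rw [h2.fderiv_eq]
    exact fderiv_id
  intro h
  have h3 := congrArg ContinuousLinearMap.det h1
  have h4 : ((fderiv ℝ (tr (d := d) x₁ x₀) (tr x₀ x₁ z)).comp
      (fderiv ℝ (tr (d := d) x₀ x₁) z)).det =
      (fderiv ℝ (tr (d := d) x₁ x₀) (tr x₀ x₁ z)).det * (fderiv ℝ (tr (d := d) x₀ x₁) z).det := by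
    simp only [ContinuousLinearMap.det]
    exact LinearMap.det_comp _ _
  rw [h4, h, mul_zero] at h3
  have h5 : (ContinuousLinearMap.id ℝ (E d)).det = 1 := by
    simp only [ContinuousLinearMap.det, ContinuousLinearMap.coe_id]
    exact LinearMap.det_id
  rw [h5] at h3
  exact zero_ne_one h3

theorem pb_tr {k : ℕ} (ξ : Form d X k) {x₀ x₁ : X} {z : E d} (hz : z ∈ trD (d := d) x₀ x₁) :
    pb (chartAt (E d) x₀).symm ξ z =
      (pb (chartAt (E d) x₁).symm ξ (tr x₀ x₁ z)).compContinuousLinearMap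
        (fderiv ℝ (tr x₀ x₁) z) := by
  have h1 : ((chartAt (E d) x₀).symm : E d → X) =ᶠ[𝓝 z] (chartAt (E d) x₁).symm ∘ tr x₀ x₁ := by
    filter_upwards [(isOpen_trD x₀ x₁).mem_nhds hz] with y hy
    exact ((chartAt (E d) x₁).left_inv hy.2).symm
  rw [pb_congr ξ h1]
  exact pb_comp ξ (mdiff_symm x₁ ((chartAt (E d) x₁).map_source hz.2)) (tr_diff hz)

theorem norm_comp2 (f : (E d) [⋀^Fin 2]→L[ℝ] ℝ) (g : E d →L[ℝ] E d) :
    ‖f.compContinuousLinearMap g‖ ≤ ‖f‖ * ‖g‖ ^ 2 := by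
  refine ContinuousAlternatingMap.opNorm_le_bound _ (by positivity) fun v => ?_
  rw [ContinuousAlternatingMap.compContinuousLinearMap_apply]
  refine (f.le_opNorm _).trans ?_
  rw [Fin.prod_univ_two, Fin.prod_univ_two]
  have h1 := g.le_opNorm (v 0)
  have h2 := g.le_opNorm (v 1)
  calc ‖f‖ * (‖g (v 0)‖ * ‖g (v 1)‖) ≤ ‖f‖ * ((‖g‖ * ‖v 0‖) * (‖g‖ * ‖v 1‖)) := by gcongr
    _ = ‖f‖ * ‖g‖ ^ 2 * (‖v 0‖ * ‖v 1‖) := by ring

/-- **Comparison of the `L¹` norms in two charts.** -/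
theorem chart_compare [T2Space X] (x₀ x₁ : X) {N Q : Set (E d)} (hN : IsCompact N)
    (hNt : N ⊆ (chartAt (E d) x₀).target) (hQ : IsCompact Q)
    (hQt : Q ⊆ (chartAt (E d) x₁).target) :
    ∃ C : ℝ, 0 ≤ C ∧ ∀ ξ : Form d X 2, (∀ x, x ∉ (chartAt (E d) x₁).symm '' Q → ξ x = 0) →
      ∫⁻ z in N, ‖pb (chartAt (E d) x₀).symm ξ z‖ₑ ≤
        ENNReal.ofReal C * ∫⁻ z in Q, ‖pb (chartAt (E d) x₁).symm ξ z‖ₑ := by
  set P : Set X := (chartAt (E d) x₁).symm '' Q with hP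
  have hPc : IsClosed P :=
    (hQ.image_of_continuousOn ((chartAt (E d) x₁).continuousOn_symm.mono hQt)).isClosed
  have hPs : P ⊆ (chartAt (E d) x₁).source := by
    rintro _ ⟨z, hz, rfl⟩
    exact (chartAt (E d) x₁).map_target (hQt hz)
  set D : Set (E d) := N ∩ (chartAt (E d) x₀).symm ⁻¹' P with hD
  have hDc : IsCompact D := by
    have h1 : IsClosed D := ((chartAt (E d) x₀).continuousOn_symm.mono hNt).preimage_isClosed_of_isClosed
      hN.isClosed hPc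
    exact hN.of_isClosed_subset h1 inter_subset_left
  have hDO : D ⊆ trD x₀ x₁ := fun z hz => ⟨hNt hz.1, hPs hz.2⟩
  have hfc : ContinuousOn (fun z => fderiv ℝ (tr (d := d) x₀ x₁) z) D :=
    ((tr_smooth x₀ x₁).continuousOn_fderiv_of_isOpen (isOpen_trD x₀ x₁) (by simp)).mono hDO
  obtain ⟨M, hM⟩ := hDc.exists_bound_of_continuousOn hfc
  obtain ⟨m, hm, hm'⟩ : ∃ m : ℝ, 0 < m ∧ ∀ z ∈ D, m ≤ |(fderiv ℝ (tr (d := d) x₀ x₁) z).det| := by
    rcases D.eq_empty_or_nonempty with h0 | h0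
    · exact ⟨1, one_pos, fun z hz => by rw [h0] at hz; exact hz.elim⟩
    · have hc : ContinuousOn (fun z => |(fderiv ℝ (tr (d := d) x₀ x₁) z).det|) D :=
        (ContinuousLinearMap.continuous_det.comp_continuousOn hfc).abs
      obtain ⟨z, hz, hmin⟩ := hDc.exists_isMinOn h0 hc
      exact ⟨_, abs_pos.2 (tr_det (hDO hz)), fun y hy => hmin hy⟩
  refine ⟨M ^ 2 / m, by positivity, fun ξ hξ => ?_⟩
  have hDm : MeasurableSet D := hDc.measurableSet
  have h1 : ∫⁻ z in N, ‖pb (chartAt (E d) x₀).symm ξ z‖ₑ ≤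
      ∫⁻ z in D, ‖pb (chartAt (E d) x₀).symm ξ z‖ₑ := by
    rw [← lintegral_indicator hN.measurableSet, ← lintegral_indicator hDm]
    refine lintegral_mono fun z => ?_
    by_cases hz : z ∈ N
    · rw [indicator_of_mem hz]
      by_cases hz' : z ∈ D
      · rw [indicator_of_mem hz']
      · have h2 : pb (chartAt (E d) x₀).symm ξ z = 0 := by
          have h3 : ξ ((chartAt (E d) x₀).symm z) = (0 : Form d X 2) ((chartAt (E d) x₀).symm z) :=
            hξ _ fun h => hz' ⟨hz, h⟩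
          rw [pb_congr_form (τ := 0) _ h3]
          rfl
        rw [h2]
        refine le_trans (le_of_eq ?_) zero_le
        rw [← ofReal_norm]
        have : ‖(0 : (E d) [⋀^Fin 2]→L[ℝ] ℝ)‖ = 0 := norm_zero
        exact (congrArg ENNReal.ofReal this).trans ENNReal.ofReal_zero
    · rw [indicator_of_notMem hz]
      exact zero_le
  refine h1.trans ?_
  have h4 : ∀ z ∈ D, ‖pb (chartAt (E d) x₀).symm ξ z‖ₑ ≤ ENNReal.ofReal (M ^ 2 / m) *
      (ENNReal.ofReal |(fderiv ℝ (tr (d := d) x₀ x₁) z).det| *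
        ‖pb (chartAt (E d) x₁).symm ξ (tr x₀ x₁ z)‖ₑ) := by
    intro z hz
    rw [pb_tr ξ (hDO hz)]
    set f := pb (chartAt (E d) x₁).symm ξ (tr x₀ x₁ z) with hf
    have h5 := norm_comp2 f (fderiv ℝ (tr x₀ x₁) z)
    have hm'' := hm' z hz
    have hM'' := hM z hz
    have h6 : ‖f.compContinuousLinearMap (fderiv ℝ (tr x₀ x₁) z)‖ ≤
        M ^ 2 / m * (|(fderiv ℝ (tr (d := d) x₀ x₁) z).det| * ‖f‖) := by
      calc ‖f.compContinuousLinearMap (fderiv ℝ (tr x₀ x₁) z)‖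
          ≤ ‖f‖ * ‖fderiv ℝ (tr x₀ x₁) z‖ ^ 2 := h5
        _ ≤ ‖f‖ * M ^ 2 := by gcongr
        _ = M ^ 2 / m * (m * ‖f‖) := by field_simp
        _ ≤ _ := by gcongr
    rw [← ofReal_norm, ← ofReal_norm, ← ENNReal.ofReal_mul (abs_nonneg _),
      ← ENNReal.ofReal_mul (by positivity)]
    exact ENNReal.ofReal_le_ofReal h6
  calc ∫⁻ z in D, ‖pb (chartAt (E d) x₀).symm ξ z‖ₑ
      ≤ ∫⁻ z in D, ENNReal.ofReal (M ^ 2 / m) *
        (ENNReal.ofReal |(fderiv ℝ (tr (d := d) x₀ x₁) z).det| *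
        ‖pb (chartAt (E d) x₁).symm ξ (tr x₀ x₁ z)‖ₑ) := setLIntegral_mono' hDm h4
    _ = ENNReal.ofReal (M ^ 2 / m) * ∫⁻ z in D,
        (ENNReal.ofReal |(fderiv ℝ (tr (d := d) x₀ x₁) z).det| *
        ‖pb (chartAt (E d) x₁).symm ξ (tr x₀ x₁ z)‖ₑ) :=
        lintegral_const_mul' _ _ ENNReal.ofReal_ne_top
    _ = ENNReal.ofReal (M ^ 2 / m) * ∫⁻ z in tr x₀ x₁ '' D,
        ‖pb (chartAt (E d) x₁).symm ξ z‖ₑ := by
        rw [lintegral_image_eq_lintegral_abs_det_fderiv_mul volume hDm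
          (fun z hz => (tr_diff (hDO hz)).hasFDerivAt.hasFDerivWithinAt)
          ((tr_injOn x₀ x₁).mono hDO)]
    _ ≤ _ := by
        gcongr
        rintro _ ⟨z, hz, rfl⟩
        obtain ⟨q, hq, hqz⟩ := hz.2
        show chartAt (E d) x₁ ((chartAt (E d) x₀).symm z) ∈ Q
        rw [← hqz, (chartAt (E d) x₁).right_inv (hQt hq)]
        exact hq

end Pool.Agent.H819.LG
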