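import Mathlib

/-!
# Mollification in `L¹`
-/

set_option autoImplicit false

open Set Filter Topology MeasureTheory Metric ContinuousLinearMap
open scoped ENNReal NNReal ContDiff Convolution

noncomputable section

namespace Pool.Agent.H819.LG

section

variable {V F : Type} [NormedAddCommGroup V] [InnerProductSpace ℝ V] [FiniteDimensional ℝ V]
  [MeasurableSpace V] [BorelSpace V] [NormedAddCommGroup F] [NormedSpace ℝ F] [CompleteSpace F]

omit [CompleteSpace F] in
/-- mollification of an integrable function does not increase the `L¹` norm -/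
theorem moll_norm_le (ρ : ContDiffBump (0 : V)) {h : V → F} (hh : Integrable h) :
    ∫⁻ x, ‖(ρ.normed volume ⋆[lsmul ℝ ℝ, volume] h) x‖ₑ ≤ ∫⁻ x, ‖h x‖ₑ := by
  obtain ⟨h', hh', hae⟩ := hh.aestronglyMeasurable
  have e1 : ∀ x, (ρ.normed volume ⋆[lsmul ℝ ℝ, volume] h) x =
      (ρ.normed volume ⋆[lsmul ℝ ℝ, volume] h') x := by
    intro x
    rw [convolution_def, convolution_def]
    refine integral_congr_ae ?_
    have : ∀ᵐ t : V, h (x - t) = h' (x - t) :=
      (quasiMeasurePreserving_sub_left_of_right_invariant volume x).ae hae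
    filter_upwards [this] with t ht
    rw [ht]
  have e2 : ∫⁻ x, ‖h x‖ₑ = ∫⁻ x, ‖h' x‖ₑ := by
    refine lintegral_congr_ae ?_
    filter_upwards [hae] with x hx
    rw [hx]
  simp_rw [e1]
  rw [e2]
  have hm : Measurable (fun p : V × V => ‖ρ.normed volume p.2‖ₑ * ‖h' (p.1 - p.2)‖ₑ) := by
    have h1 : Measurable (fun p : V × V => ‖ρ.normed volume p.2‖ₑ) :=
      ((ρ.contDiff_normed (n := 0)).continuous.comp continuous_snd).measurable.enorm
    have h2 : StronglyMeasurable (fun p : V × V => h' (p.1 - p.2)) :=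
      hh'.comp_measurable (measurable_fst.sub measurable_snd)
    exact h1.mul h2.enorm
  calc ∫⁻ x, ‖(ρ.normed volume ⋆[lsmul ℝ ℝ, volume] h') x‖ₑ
      ≤ ∫⁻ x, ∫⁻ t, ‖ρ.normed volume t‖ₑ * ‖h' (x - t)‖ₑ := by
        refine lintegral_mono fun x => ?_
        rw [convolution_def]
        refine (enorm_integral_le_lintegral_enorm _).trans (le_of_eq ?_)
        refine lintegral_congr fun t => ?_
        rw [lsmul_apply, enorm_smul]
    _ = ∫⁻ t, ∫⁻ x, ‖ρ.normed volume t‖ₑ * ‖h' (x - t)‖ₑ := lintegral_lintegral_swap hm.aemeasurable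
    _ = ∫⁻ t, ‖ρ.normed volume t‖ₑ * ∫⁻ x, ‖h' x‖ₑ := by
        refine lintegral_congr fun t => ?_
        have h2 : StronglyMeasurable (fun x : V => h' (x - t)) :=
          hh'.comp_measurable (measurable_id.sub_const t)
        rw [lintegral_const_mul _ h2.enorm]
        congr 1
        exact lintegral_sub_right_eq_self (fun x => ‖h' x‖ₑ) t
    _ = (∫⁻ t, ‖ρ.normed volume t‖ₑ) * ∫⁻ x, ‖h' x‖ₑ := by
        rw [lintegral_mul_const]
        exact (ρ.contDiff_normed (n := 0)).continuous.measurable.enorm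
    _ = ∫⁻ x, ‖h' x‖ₑ := by
        have h3 : ∫⁻ t, ‖ρ.normed volume t‖ₑ = 1 := by
          have h4 : Integrable (ρ.normed volume) := ρ.integrable_normed
          have h5 : ∫⁻ t, ‖ρ.normed volume t‖ₑ = ENNReal.ofReal (∫ t, ρ.normed volume t) := by
            rw [ofReal_integral_eq_lintegral_ofReal h4
              (Eventually.of_forall fun t => ρ.nonneg_normed t)]
            refine lintegral_congr fun t => ?_
            rw [← ofReal_norm, Real.norm_of_nonneg (ρ.nonneg_normed t)]
          rw [h5, ρ.integral_normed]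
          simp
        rw [h3, one_mul]

/-- mollifications converge in `L¹` -/
theorem moll_tendsto {b : V → F} (hb : Integrable b) {δ : ℝ} (hδ : 0 < δ) :
    ∃ r : ℝ, 0 < r ∧ ∀ ρ : ContDiffBump (0 : V), ρ.rOut < r →
      ∫⁻ x, ‖(ρ.normed volume ⋆[lsmul ℝ ℝ, volume] b) x - b x‖ₑ ≤ ENNReal.ofReal δ := by
  obtain ⟨g, hgc, hgd, hgcont, hgi⟩ := hb.exists_hasCompactSupport_lintegral_sub_le
    (ε := ENNReal.ofReal (δ / 3)) (by
      rw [ne_eq, ENNReal.ofReal_eq_zero, not_le]; positivity)
  have hcomp : IsCompact (cthickening 1 (tsupport g)) := hgc.isCompact.cthickening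
  set v : ℝ := (volume (cthickening 1 (tsupport g))).toReal with hv
  have hve : volume (cthickening 1 (tsupport g)) = ENNReal.ofReal v :=
    (ENNReal.ofReal_toReal hcomp.measure_lt_top.ne).symm
  have hv0 : 0 ≤ v := ENNReal.toReal_nonneg
  set η : ℝ := δ / (3 * (v + 1)) with hη
  have hηp : 0 < η := by positivity
  obtain ⟨r₁, hr₁, huc⟩ := Metric.uniformContinuous_iff.1
    (hgc.uniformContinuous_of_continuous hgcont) η hηp
  refine ⟨min r₁ 1, by positivity, fun ρ hρ => ?_⟩
  have hρc : Continuous (ρ.normed volume) := (ρ.contDiff_normed (n := 0)).continuous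
  have hcex : ∀ {f : V → F}, Integrable f → ConvolutionExists (ρ.normed volume) f
      (lsmul ℝ ℝ) volume := fun hf =>
    ρ.hasCompactSupport_normed.convolutionExists_left _ hρc hf.locallyIntegrable
  have hbg : Integrable (b - g) := hb.sub hgi
  have hsplit : ∀ x, (ρ.normed volume ⋆[lsmul ℝ ℝ, volume] b) x =
      (ρ.normed volume ⋆[lsmul ℝ ℝ, volume] (b - g)) x +
      (ρ.normed volume ⋆[lsmul ℝ ℝ, volume] g) x := by
    intro x
    have h := (hcex hbg x).distrib_add (hcex hgi x)
    rw [sub_add_cancel] at h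
    exact h
  have h1 : ∫⁻ x, ‖(ρ.normed volume ⋆[lsmul ℝ ℝ, volume] (b - g)) x‖ₑ ≤ ENNReal.ofReal (δ / 3) :=
    (moll_norm_le ρ hbg).trans hgd
  have h2 : ∫⁻ x, ‖(ρ.normed volume ⋆[lsmul ℝ ℝ, volume] g) x - g x‖ₑ ≤
      ENNReal.ofReal (δ / 3) := by
    have hpt : ∀ x, ‖(ρ.normed volume ⋆[lsmul ℝ ℝ, volume] g) x - g x‖ₑ ≤
        (cthickening 1 (tsupport g)).indicator (fun _ => ENNReal.ofReal η) x := by
      intro x
      by_cases hx : x ∈ cthickening 1 (tsupport g)
      · rw [indicator_of_mem hx, ← ofReal_norm, ← dist_eq_norm]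
        refine ENNReal.ofReal_le_ofReal ?_
        refine ρ.dist_normed_convolution_le hgi.aestronglyMeasurable fun y hy => ?_
        refine (huc ?_).le
        exact lt_trans hy (hρ.trans_le (min_le_left _ _))
      · rw [indicator_of_notMem hx]
        have h3 : ∀ y ∈ ball x ρ.rOut, g y = g x := by
          have h4 : ∀ y ∈ closedBall x 1, g y = 0 := by
            intro y hy
            by_contra h5
            apply hx
            refine mem_cthickening_of_dist_le x y 1 _ (subset_tsupport g h5) ?_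
            rw [dist_comm]
            exact hy
          intro y hy
          rw [h4 y (ball_subset_closedBall
            (ball_subset_ball ((hρ.trans_le (min_le_right _ _)).le) hy)),
            h4 x (mem_closedBall_self zero_le_one)]
        rw [ρ.normed_convolution_eq_right h3, sub_self, enorm_zero]
    refine (lintegral_mono hpt).trans ?_
    rw [lintegral_indicator_const hcomp.isClosed.measurableSet, hve,
      ← ENNReal.ofReal_mul hηp.le]
    refine ENNReal.ofReal_le_ofReal ?_
    rw [hη, div_mul_eq_mul_div, div_le_div_iff₀ (by positivity) (by norm_num)]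
    nlinarith
  have h3 : ∫⁻ x, ‖g x - b x‖ₑ ≤ ENNReal.ofReal (δ / 3) := by
    refine (le_of_eq (lintegral_congr fun x => ?_)).trans hgd
    rw [← enorm_neg, neg_sub]
  have hmeas1 : AEMeasurable (fun x => ‖(ρ.normed volume ⋆[lsmul ℝ ℝ, volume] (b - g)) x‖ₑ)
      volume := by
    have := ρ.hasCompactSupport_normed.continuous_convolution_left (lsmul ℝ ℝ) (μ := volume)
      hρc hbg.locallyIntegrable
    exact this.aestronglyMeasurable.enorm
  have hmeas2 : AEMeasurable (fun x => ‖(ρ.normed volume ⋆[lsmul ℝ ℝ, volume] g) x - g x‖ₑ)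
      volume := by
    have := ρ.hasCompactSupport_normed.continuous_convolution_left (lsmul ℝ ℝ) (μ := volume)
      hρc hgi.locallyIntegrable
    exact (this.sub hgcont).aestronglyMeasurable.enorm
  calc ∫⁻ x, ‖(ρ.normed volume ⋆[lsmul ℝ ℝ, volume] b) x - b x‖ₑ
      ≤ ∫⁻ x, (‖(ρ.normed volume ⋆[lsmul ℝ ℝ, volume] (b - g)) x‖ₑ +
        ‖(ρ.normed volume ⋆[lsmul ℝ ℝ, volume] g) x - g x‖ₑ) + ‖g x - b x‖ₑ := by
        refine lintegral_mono fun x => ?_
        rw [hsplit]
        have : (ρ.normed volume ⋆[lsmul ℝ ℝ, volume] (b - g)) x +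
            (ρ.normed volume ⋆[lsmul ℝ ℝ, volume] g) x - b x =
            (ρ.normed volume ⋆[lsmul ℝ ℝ, volume] (b - g)) x +
            ((ρ.normed volume ⋆[lsmul ℝ ℝ, volume] g) x - g x) + (g x - b x) := by abel
        rw [this]
        exact (enorm_add_le _ _).trans (add_le_add (enorm_add_le _ _) le_rfl)
    _ = (∫⁻ x, ‖(ρ.normed volume ⋆[lsmul ℝ ℝ, volume] (b - g)) x‖ₑ) +
        (∫⁻ x, ‖(ρ.normed volume ⋆[lsmul ℝ ℝ, volume] g) x - g x‖ₑ) + ∫⁻ x, ‖g x - b x‖ₑ := by
        have hm3 : AEMeasurable (fun x =>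
            ‖(ρ.normed volume ⋆[lsmul ℝ ℝ, volume] (b - g)) x‖ₑ +
            ‖(ρ.normed volume ⋆[lsmul ℝ ℝ, volume] g) x - g x‖ₑ) volume := hmeas1.add hmeas2
        rw [lintegral_add_left' hm3, lintegral_add_left' hmeas1]
    _ ≤ ENNReal.ofReal (δ / 3) + ENNReal.ofReal (δ / 3) + ENNReal.ofReal (δ / 3) := by gcongr
    _ = ENNReal.ofReal δ := by
        rw [← ENNReal.ofReal_add (by positivity) (by positivity),
          ← ENNReal.ofReal_add (by positivity) (by positivity)]
        congr 1
        ring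

end

end Pool.Agent.H819.LG
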