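import Mathlib
import Pool.Agent.H819.LG.Moll
import Pool.Graph.R_seed8.Y431.SY.HT

/-!
# The exterior derivative of a mollified one-form
-/

set_option autoImplicit false

open Set Filter Topology MeasureTheory Metric ContinuousLinearMap
open scoped ENNReal NNReal ContDiff Convolution

noncomputable section

namespace Pool.Agent.H819.LG

open Pool.Agent.Y431.SY (ev ev_apply)

variable {V : Type} [NormedAddCommGroup V] [InnerProductSpace ℝ V] [FiniteDimensional ℝ V]
  [MeasurableSpace V] [BorelSpace V]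

theorem moll_fderiv {F : Type} [NormedAddCommGroup F] [NormedSpace ℝ F] [CompleteSpace F]
    {a : V → F} (ha : LocallyIntegrable a) (ρ : ContDiffBump (0 : V)) (x u : V) :
    Integrable (fun t => fderiv ℝ (ρ.normed volume) t u • a (x - t)) ∧
    fderiv ℝ (ρ.normed volume ⋆[lsmul ℝ ℝ, volume] a) x u =
      ∫ t, fderiv ℝ (ρ.normed volume) t u • a (x - t) := by
  have hρc : HasCompactSupport (ρ.normed volume) := ρ.hasCompactSupport_normed
  have hρ1 : ContDiff ℝ 1 (ρ.normed volume) := ρ.contDiff_normed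
  have hdρ : Continuous (fderiv ℝ (ρ.normed volume)) := hρ1.continuous_fderiv (by simp)
  have hdρc : HasCompactSupport (fderiv ℝ (ρ.normed volume)) := hρc.fderiv (𝕜 := ℝ)
  have hder := hρc.hasFDerivAt_convolution_left (lsmul ℝ ℝ) (μ := volume) hρ1 ha x
  have hcex := hdρc.convolutionExists_left ((lsmul ℝ ℝ : ℝ →L[ℝ] F →L[ℝ] F).precompL V)
    (μ := volume) hdρ ha x
  have h2 : Integrable (fun t => fderiv ℝ (ρ.normed volume) t u • a (x - t)) := by
    have := hcex.apply_continuousLinearMap u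
    exact this
  refine ⟨h2, ?_⟩
  rw [hder.fderiv, convolution_def, ContinuousLinearMap.integral_apply hcex]
  rfl

/-- `b = da` in the sense of distributions -/
def WeakExt (a : V → V [⋀^Fin 1]→L[ℝ] ℝ) (b : V → V [⋀^Fin 2]→L[ℝ] ℝ) : Prop :=
  ∀ φ : V → ℝ, ContDiff ℝ ∞ φ → HasCompactSupport φ → ∀ u v : V,
    ∫ z, (a z ![v] * fderiv ℝ φ z u - a z ![u] * fderiv ℝ φ z v) = - ∫ z, b z ![u, v] * φ z

instance complete_alt (k : ℕ) : CompleteSpace (V [⋀^Fin k]→L[ℝ] ℝ) := inferInstance

theorem moll_extDeriv {a : V → V [⋀^Fin 1]→L[ℝ] ℝ} {b : V → V [⋀^Fin 2]→L[ℝ] ℝ}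
    (ha : LocallyIntegrable a) (hb : LocallyIntegrable b) (hab : WeakExt a b)
    (ρ : ContDiffBump (0 : V)) :
    ContDiff ℝ ∞ (ρ.normed volume ⋆[lsmul ℝ ℝ, volume] a) ∧
    ∀ x, extDeriv (ρ.normed volume ⋆[lsmul ℝ ℝ, volume] a) x =
      (ρ.normed volume ⋆[lsmul ℝ ℝ, volume] b) x := by
  have hρ : ContDiff ℝ ∞ (ρ.normed volume) := ρ.contDiff_normed
  have hρc : HasCompactSupport (ρ.normed volume) := ρ.hasCompactSupport_normed
  have hsm : ContDiff ℝ ∞ (ρ.normed volume ⋆[lsmul ℝ ℝ, volume] a) :=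
    hρc.contDiff_convolution_left (lsmul ℝ ℝ) (μ := volume) hρ ha
  refine ⟨hsm, fun x => ?_⟩
  have hρ1 : ContDiff ℝ 1 (ρ.normed volume) := ρ.contDiff_normed
  -- the value of the derivative
  have hval : ∀ (u w : V), fderiv ℝ (ρ.normed volume ⋆[lsmul ℝ ℝ, volume] a) x u ![w] =
      ∫ z, fderiv ℝ (ρ.normed volume) (x - z) u * a z ![w] := by
    intro u w
    obtain ⟨h2, h1⟩ := moll_fderiv ha ρ x u
    rw [h1]
    have h3 := (ev (![w] : Fin 1 → V)).integral_comp_comm h2
    rw [ev_apply] at h3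
    rw [← h3, ← integral_sub_left_eq_self (fun t => ev (![w] : Fin 1 → V)
      (fderiv ℝ (ρ.normed volume) t u • a (x - t))) volume x]
    refine integral_congr_ae (Eventually.of_forall fun z => ?_)
    simp only [sub_sub_cancel, map_smul, ev_apply, smul_eq_mul]
  ext v
  have hd : DifferentiableAt ℝ (ρ.normed volume ⋆[lsmul ℝ ℝ, volume] a) x :=
    hsm.differentiable (by simp) x
  rw [extDeriv_apply hd, Fin.sum_univ_two]
  have e0 : Fin.removeNth 0 v = ![v 1] := by
    funext i; fin_cases i; rfl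
  have e1 : Fin.removeNth 1 v = ![v 0] := by
    funext i; fin_cases i; rfl
  have hda : ∀ w : V, fderiv ℝ (fun y => (ρ.normed volume ⋆[lsmul ℝ ℝ, volume] a) y ![w]) x =
      (ev (![w] : Fin 1 → V)).comp (fderiv ℝ (ρ.normed volume ⋆[lsmul ℝ ℝ, volume] a) x) := by
    intro w
    exact ((ev (![w] : Fin 1 → V)).hasFDerivAt.comp x hd.hasFDerivAt).fderiv
  rw [e0, e1, hda, hda]
  simp only [Fin.val_zero, pow_zero, one_smul, Fin.val_one, pow_one, neg_smul, comp_apply,
    ev_apply]
  rw [hval, hval]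
  -- the weak derivative
  have hφ : ContDiff ℝ ∞ (fun z => ρ.normed volume (x - z)) := hρ.comp (by fun_prop)
  have hφc : HasCompactSupport (fun z => ρ.normed volume (x - z)) := by
    have := hρc.comp_homeomorph (Homeomorph.subLeft x)
    exact this
  have hφd : ∀ z u, fderiv ℝ (fun z => ρ.normed volume (x - z)) z u =
      - fderiv ℝ (ρ.normed volume) (x - z) u := by
    intro z u
    have h1 : HasFDerivAt (fun z : V => x - z) (-ContinuousLinearMap.id ℝ V) z := by
      have := (hasFDerivAt_id (𝕜 := ℝ) z).const_sub x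
      exact this
    have h2 : HasFDerivAt (ρ.normed volume) (fderiv ℝ (ρ.normed volume) (x - z)) (x - z) :=
      (hρ1.differentiable (by simp) _).hasFDerivAt
    have h3 : fderiv ℝ (fun z => ρ.normed volume (x - z)) z =
        (fderiv ℝ (ρ.normed volume) (x - z)).comp (-ContinuousLinearMap.id ℝ V) :=
      (h2.comp z h1).fderiv
    rw [h3]
    simp
  have hw := hab _ hφ hφc (v 0) (v 1)
  simp only [hφd] at hw
  have hi : ∀ (u w : V), Integrable (fun z => fderiv ℝ (ρ.normed volume) (x - z) u * a z ![w]) := by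
    intro u w
    have h1 := (moll_fderiv ha ρ x u).1
    have h2 := ((ev (![w] : Fin 1 → V)).integrable_comp h1).comp_sub_left x
    refine h2.congr (Eventually.of_forall fun z => ?_)
    simp [ev_apply]
  rw [← sub_eq_add_neg, ← integral_sub (hi _ _) (hi _ _)]
  have e2 : (ρ.normed volume ⋆[lsmul ℝ ℝ, volume] b) x v =
      ∫ z, b z ![v 0, v 1] * ρ.normed volume (x - z) := by
    have hcb : Integrable (fun t => ρ.normed volume t • b (x - t)) :=
      hρc.convolutionExists_left (lsmul ℝ ℝ) (μ := volume) hρ.continuous hb x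
    have h3 := (ev v).integral_comp_comm hcb
    rw [ev_apply] at h3
    rw [convolution_def]
    have h4 : (∫ t, (lsmul ℝ ℝ) (ρ.normed volume t) (b (x - t))) v =
        (∫ t, ρ.normed volume t • b (x - t)) v := rfl
    rw [h4, ← h3, ← integral_sub_left_eq_self (fun t => ev v (ρ.normed volume t • b (x - t)))
      volume x]
    refine integral_congr_ae (Eventually.of_forall fun z => ?_)
    have h5 : (![v 0, v 1] : Fin 2 → V) = v := by
      funext i; fin_cases i <;> rfl
    simp only [sub_sub_cancel, map_smul, ev_apply, smul_eq_mul, h5]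
    ring
  rw [e2]
  rw [← neg_eq_iff_eq_neg] at hw
  rw [← hw, ← integral_neg]
  refine integral_congr_ae (Eventually.of_forall fun z => ?_)
  simp only
  ring

end Pool.Agent.H819.LG
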