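import Mathlib
import Pool.Agent.H819.LG.Moll2
import Pool.Graph.R_seed8.Y658.SY.Prod

/-!
# Cutting off a weak primitive
-/

set_option autoImplicit false

open Set Filter Topology MeasureTheory Metric ContinuousLinearMap
open scoped ENNReal NNReal ContDiff

noncomputable section

namespace Pool.Agent.H819.LG

open Pool.Agent.Y501.SY (wedge1)
open Pool.Agent.Y658.SY (wedge1_apply)
open Pool.Agent.Y431.SY (ev ev_apply)

section

variable {V : Type} [NormedAddCommGroup V] [InnerProductSpace ℝ V] [FiniteDimensional ℝ V]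
  [MeasurableSpace V] [BorelSpace V]

/-- the wedge product as a continuous bilinear map -/
def wedgeL : (V →L[ℝ] ℝ) →L[ℝ] (V [⋀^Fin 1]→L[ℝ] ℝ) →L[ℝ] V [⋀^Fin 2]→L[ℝ] ℝ :=
  (compL ℝ (V [⋀^Fin 1]→L[ℝ] ℝ) (V →L[ℝ] (V [⋀^Fin 1]→L[ℝ] ℝ)) (V [⋀^Fin 2]→L[ℝ] ℝ)
    (ContinuousAlternatingMap.alternatizeUncurryFinCLM ℝ V ℝ)).comp (smulRightL ℝ V _)

omit [FiniteDimensional ℝ V] [MeasurableSpace V] [BorelSpace V] in
theorem wedgeL_apply (a : V →L[ℝ] ℝ) (b : V [⋀^Fin 1]→L[ℝ] ℝ) : wedgeL a b = wedge1 a b := rfl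

omit [InnerProductSpace ℝ V] [FiniteDimensional ℝ V] [MeasurableSpace V] [BorelSpace V] in
theorem wedge1_pair [NormedSpace ℝ V] (a : V →L[ℝ] ℝ) (b : V [⋀^Fin 1]→L[ℝ] ℝ) (u v : V) :
    wedge1 a b ![u, v] = a u * b ![v] - a v * b ![u] := by
  have h := wedge1_apply a b ![u, v]
  have e0 : (fun _ : Fin 1 => (![u, v] : Fin 2 → V) 1) = ![v] := by
    funext i; rw [Subsingleton.elim i 0]; rfl
  have e1 : (fun _ : Fin 1 => (![u, v] : Fin 2 → V) 0) = ![u] := by
    funext i; rw [Subsingleton.elim i 0]; rfl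
  rw [e0, e1] at h
  exact h

theorem int_bilin {F G H : Type} [NormedAddCommGroup F] [NormedSpace ℝ F] [NormedAddCommGroup G]
    [NormedSpace ℝ G] [NormedAddCommGroup H] [NormedSpace ℝ H] [SecondCountableTopology F]
    (L : F →L[ℝ] G →L[ℝ] H) {U S : Set V} (hS : IsCompact S) (hSU : S ⊆ U) {g : V → F}
    (hg : Continuous g) (hg0 : ∀ z, z ∉ S → g z = 0) {h : V → G} (hh : LocallyIntegrableOn h U) :
    Integrable (fun z => L (g z) (h z)) := by
  have h1 : IntegrableOn h S := hh.integrableOn_compact_subset hSU hS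
  obtain ⟨C, hC⟩ := hS.exists_bound_of_continuousOn hg.continuousOn
  have h2 : IntegrableOn (fun z => L (g z) (h z)) S := by
    refine Integrable.mono' (h1.norm.const_mul (‖L‖ * C))
      (L.aestronglyMeasurable_comp₂ hg.aestronglyMeasurable h1.aestronglyMeasurable) ?_
    refine (ae_restrict_iff' hS.measurableSet).2 (Eventually.of_forall fun z hz => ?_)
    refine (L.le_opNorm₂ _ _).trans ?_
    have := hC z hz
    gcongr
  refine (integrableOn_iff_integrable_of_support_subset ?_).1 h2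
  intro z hz
  by_contra hzS
  apply hz
  simp [hg0 z hzS]

omit [NormedAddCommGroup V] [InnerProductSpace ℝ V] [FiniteDimensional ℝ V] [BorelSpace V] in
theorem int_add {G : Type} [NormedAddCommGroup G] {f g : V → G} {μ : Measure V}
    (hf : Integrable f μ) (hg : Integrable g μ) : Integrable (fun z => f z + g z) μ := hf.add hg

theorem local_weak {U S : Set V} (hS : IsCompact S) (hSU : S ⊆ U) {χ : V → ℝ}
    (hχ : ContDiff ℝ ∞ χ) (hχ0 : ∀ z, z ∉ S → χ z = 0) {α : V → V [⋀^Fin 1]→L[ℝ] ℝ}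
    {η : V → V [⋀^Fin 2]→L[ℝ] ℝ} (hα : LocallyIntegrableOn α U) (hη : LocallyIntegrableOn η U)
    (hw : ∀ φ : V → ℝ, ContDiff ℝ ∞ φ → HasCompactSupport φ → tsupport φ ⊆ U → ∀ u v : V,
      ∫ z, (α z ![v] * fderiv ℝ φ z u - α z ![u] * fderiv ℝ φ z v) = - ∫ z, η z ![u, v] * φ z) :
    Integrable (fun z => χ z • α z) ∧
    Integrable (fun z => wedge1 (fderiv ℝ χ z) (α z) + χ z • η z) ∧
    WeakExt (fun z => χ z • α z) (fun z => wedge1 (fderiv ℝ χ z) (α z) + χ z • η z) := by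
  have hdχ : Continuous (fderiv ℝ χ) := hχ.continuous_fderiv (by simp)
  have hdχ0 : ∀ z, z ∉ S → fderiv ℝ χ z = 0 := by
    intro z hz
    have h1 : χ =ᶠ[𝓝 z] fun _ => 0 := by
      filter_upwards [hS.isClosed.isOpen_compl.mem_nhds hz] with x hx
      exact hχ0 x hx
    rw [h1.fderiv_eq]
    exact fderiv_const_apply 0
  have i1 : Integrable (fun z => χ z • α z) :=
    int_bilin (lsmul ℝ ℝ) hS hSU hχ.continuous hχ0 hα
  have i2 : Integrable (fun z => χ z • η z) :=
    int_bilin (lsmul ℝ ℝ) hS hSU hχ.continuous hχ0 hη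
  have i3 : Integrable (fun z => wedge1 (fderiv ℝ χ z) (α z)) :=
    int_bilin wedgeL hS hSU hdχ hdχ0 hα
  have i4 := int_add i3 i2
  refine ⟨i1, i4, ?_⟩
  intro φ hφ hφc u v
  set ψ : V → ℝ := fun z => χ z * φ z with hψ
  have hψs : ContDiff ℝ ∞ ψ := hχ.mul hφ
  have hψ0 : ∀ z, z ∉ S → ψ z = 0 := fun z hz => by simp [hψ, hχ0 z hz]
  have htψ : tsupport ψ ⊆ S := by
    refine closure_minimal ?_ hS.isClosed
    intro z hz
    by_contra h
    exact hz (hψ0 z h)
  have hψc : HasCompactSupport ψ := hS.of_isClosed_subset (isClosed_tsupport ψ) htψ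
  have hψd : ∀ z w, fderiv ℝ ψ z w = χ z * fderiv ℝ φ z w + φ z * fderiv ℝ χ z w := by
    intro z w
    have h1 : HasFDerivAt χ (fderiv ℝ χ z) z := (hχ.differentiable (by simp) z).hasFDerivAt
    have h2 : HasFDerivAt φ (fderiv ℝ φ z) z := (hφ.differentiable (by simp) z).hasFDerivAt
    have h3 := (h1.mul h2).fderiv
    have h4 : fderiv ℝ ψ z = χ z • fderiv ℝ φ z + φ z • fderiv ℝ χ z := h3
    rw [h4]
    rfl
  have key := hw ψ hψs hψc (htψ.trans hSU) u v
  have hdψ : ∀ w, Continuous (fun z => fderiv ℝ ψ z w) := fun w =>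
    (hψs.continuous_fderiv (by simp)).clm_apply continuous_const
  have hdψ0 : ∀ w z, z ∉ S → fderiv ℝ ψ z w = 0 := by
    intro w z hz
    have h1 : ψ =ᶠ[𝓝 z] fun _ => 0 := by
      filter_upwards [hS.isClosed.isOpen_compl.mem_nhds hz] with x hx
      exact hψ0 x hx
    rw [h1.fderiv_eq]
    simp
  have j1 : ∀ w w' : V, Integrable (fun z => α z ![w'] * fderiv ℝ ψ z w) := by
    intro w w'
    have h1 : Integrable (fun z => fderiv ℝ ψ z w • α z) :=
      int_bilin (lsmul ℝ ℝ) hS hSU (hdψ w) (hdψ0 w) hα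
    have h2 := (ev (![w'] : Fin 1 → V)).integrable_comp h1
    refine h2.congr (Eventually.of_forall fun z => ?_)
    simp only [map_smul, ev_apply, smul_eq_mul]
    ring
  have j2 : Integrable (fun z => η z ![u, v] * ψ z) := by
    have h1 : Integrable (fun z => ψ z • η z) :=
      int_bilin (lsmul ℝ ℝ) hS hSU hψs.continuous hψ0 hη
    have h2 := (ev (![u, v] : Fin 2 → V)).integrable_comp h1
    refine h2.congr (Eventually.of_forall fun z => ?_)
    simp only [map_smul, ev_apply, smul_eq_mul]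
    ring
  have j3 : Integrable (fun z => φ z * (fderiv ℝ χ z u * α z ![v] - fderiv ℝ χ z v * α z ![u])) := by
    have g1 : Continuous (fun z => φ z • fderiv ℝ χ z) := hφ.continuous.smul hdχ
    have g2 : ∀ z, z ∉ S → (fun z => φ z • fderiv ℝ χ z) z = 0 := by
      intro z hz
      show φ z • fderiv ℝ χ z = 0
      rw [hdχ0 z hz, smul_zero]
    have h1 : Integrable (fun z => wedgeL ((fun z => φ z • fderiv ℝ χ z) z) (α z)) :=
      int_bilin (wedgeL (V := V)) hS hSU (g := fun z => φ z • fderiv ℝ χ z) g1 g2 hα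
    have h2 := (ev (![u, v] : Fin 2 → V)).integrable_comp h1
    refine h2.congr (Eventually.of_forall fun z => ?_)
    have h3 : (ev (![u, v] : Fin 2 → V)) (wedgeL (φ z • fderiv ℝ χ z) (α z)) =
        (φ z • fderiv ℝ χ z) u * α z ![v] - (φ z • fderiv ℝ χ z) v * α z ![u] :=
      wedge1_pair _ _ _ _
    refine h3.trans ?_
    have h4 : ∀ w, (φ z • fderiv ℝ χ z) w = φ z * fderiv ℝ χ z w := fun w => rfl
    rw [h4 u, h4 v]
    ring
  have e1 : ∀ z, (χ z • α z) ![v] * fderiv ℝ φ z u - (χ z • α z) ![u] * fderiv ℝ φ z v =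
      (α z ![v] * fderiv ℝ ψ z u - α z ![u] * fderiv ℝ ψ z v) -
      φ z * (fderiv ℝ χ z u * α z ![v] - fderiv ℝ χ z v * α z ![u]) := by
    intro z
    have h1 := hψd z u
    have h2 := hψd z v
    show χ z * α z ![v] * fderiv ℝ φ z u - χ z * α z ![u] * fderiv ℝ φ z v = _
    linear_combination (α z ![u]) * h2 - (α z ![v]) * h1
  have e2 : ∀ z, (wedge1 (fderiv ℝ χ z) (α z) + χ z • η z) ![u, v] * φ z =
      η z ![u, v] * ψ z +
      φ z * (fderiv ℝ χ z u * α z ![v] - fderiv ℝ χ z v * α z ![u]) := by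
    intro z
    have h1 := wedge1_pair (fderiv ℝ χ z) (α z) u v
    have h2 : (wedge1 (fderiv ℝ χ z) (α z) + χ z • η z) ![u, v] =
      wedge1 (fderiv ℝ χ z) (α z) ![u, v] + χ z * η z ![u, v] := rfl
    rw [h2, h1]
    ring
  simp_rw [e1, e2]
  have k1 : Integrable (fun z => α z ![v] * fderiv ℝ ψ z u - α z ![u] * fderiv ℝ ψ z v) :=
    (j1 u v).sub (j1 v u)
  rw [integral_sub k1 j3, integral_add j2 j3, key]
  ring

end

end Pool.Agent.H819.LG
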