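import Mathlib
import Pool.Agent.H819.LG.CV
import Pool.Agent.H819.LG.Wk
import Pool.Graph.R_seed8.Y501.SY.PairL

/-!
# Weak primitives on a manifold, cut off in a chart
-/

set_option autoImplicit false

open Set Filter Topology MeasureTheory Metric
open scoped Manifold ContDiff ENNReal NNReal

noncomputable section

namespace Pool.Agent.H819.LG

open Pool.Agent.Y501.SY
open Pool.Agent.Y658.SY (pb_prodD)
open Pool.Agent.Y484.SY (dd_comp comp_smooth)

variable {d : ℕ} {X : Type} [TopologicalSpace X] [ChartedSpace (E d) X]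

/-- `η` is the exterior derivative of `α` in the sense of distributions, both being locally
integrable -/
structure WeakPrim (α : Form d X 1) (η : Form d X 2) : Prop where
  int1 : ∀ x₀ : X, LocallyIntegrableOn (pb (chartAt (E d) x₀).symm α) (chartAt (E d) x₀).target
  int2 : ∀ x₀ : X, LocallyIntegrableOn (pb (chartAt (E d) x₀).symm η) (chartAt (E d) x₀).target
  weak : ∀ (x₀ : X) (φ : E d → ℝ), ContDiff ℝ ∞ φ → HasCompactSupport φ →
    tsupport φ ⊆ (chartAt (E d) x₀).target → ∀ u v : E d,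
    ∫ z, (pb (chartAt (E d) x₀).symm α z ![v] * fderiv ℝ φ z u -
      pb (chartAt (E d) x₀).symm α z ![u] * fderiv ℝ φ z v) =
      - ∫ z, pb (chartAt (E d) x₀).symm η z ![u, v] * φ z

/-- a function with support in a chart, in the chart -/
def cutE (x₀ : X) (f : X → ℝ) : E d → ℝ := fun z =>
  letI := Classical.propDecidable (z ∈ (chartAt (E d) x₀).target)
  if z ∈ (chartAt (E d) x₀).target then f ((chartAt (E d) x₀).symm z) else 0

theorem cutE_mem (x₀ : X) (f : X → ℝ) {z : E d} (hz : z ∈ (chartAt (E d) x₀).target) :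
    cutE x₀ f z = f ((chartAt (E d) x₀).symm z) := if_pos hz

/-- the support in the chart -/
def suppE (x₀ : X) (f : X → ℝ) : Set (E d) := chartAt (E d) x₀ '' tsupport f

theorem cutE_zero (x₀ : X) (f : X → ℝ) {z : E d} (hz : z ∉ suppE x₀ f) : cutE x₀ f z = 0 := by
  unfold cutE
  split_ifs with h
  · by_contra h0
    exact hz ⟨_, subset_tsupport f h0, (chartAt (E d) x₀).right_inv h⟩
  · rfl

theorem isCompact_suppE [CompactSpace X] {x₀ : X} {f : X → ℝ}
    (hs : tsupport f ⊆ (chartAt (E d) x₀).source) : IsCompact (suppE (d := d) x₀ f) :=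
  (isClosed_tsupport f).isCompact.image_of_continuousOn ((chartAt (E d) x₀).continuousOn.mono hs)

theorem suppE_subset {x₀ : X} {f : X → ℝ} (hs : tsupport f ⊆ (chartAt (E d) x₀).source) :
    suppE (d := d) x₀ f ⊆ (chartAt (E d) x₀).target := by
  rintro _ ⟨x, hx, rfl⟩
  exact (chartAt (E d) x₀).map_source (hs hx)

theorem cutE_eventually (x₀ : X) (f : X → ℝ) {z : E d} (hz : z ∈ (chartAt (E d) x₀).target) :
    cutE x₀ f =ᶠ[𝓝 z] f ∘ (chartAt (E d) x₀).symm := by
  filter_upwards [(chartAt (E d) x₀).open_target.mem_nhds hz] with y hy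
  exact cutE_mem x₀ f hy

variable [IsManifold (𝓡 d) ∞ X]

theorem contDiff_cutE [CompactSpace X] {x₀ : X} {f : X → ℝ} (hf : SmoothFun (d := d) f)
    (hs : tsupport f ⊆ (chartAt (E d) x₀).source) : ContDiff ℝ ∞ (cutE (d := d) x₀ f) := by
  rw [contDiff_iff_contDiffAt]
  intro z
  by_cases hz : z ∈ (chartAt (E d) x₀).target
  · refine ContDiffAt.congr_of_eventuallyEq ?_ (cutE_eventually x₀ f hz)
    have h1 : ContMDiffAt (𝓡 d) (𝓡 d) ∞ (chartAt (E d) x₀).symm z :=
      contMDiffOn_chart_symm.contMDiffAt ((chartAt (E d) x₀).open_target.mem_nhds hz)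
    exact contMDiffAt_iff_contDiffAt.1 ((hf _).comp z h1)
  · have h1 : z ∉ suppE x₀ f := fun h => hz (suppE_subset hs h)
    have h2 : cutE x₀ f =ᶠ[𝓝 z] fun _ => 0 := by
      filter_upwards [(isCompact_suppE hs).isClosed.isOpen_compl.mem_nhds h1] with y hy
      exact cutE_zero x₀ f hy
    exact contDiffAt_const.congr_of_eventuallyEq h2

/-- the cut-off of `α` in the chart -/
def aE (x₀ : X) (f : X → ℝ) (α : Form d X 1) (z : E d) : (E d) [⋀^Fin 1]→L[ℝ] ℝ :=
  cutE x₀ f z • pb (chartAt (E d) x₀).symm α z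

/-- its exterior derivative -/
def bE (x₀ : X) (f : X → ℝ) (α : Form d X 1) (η : Form d X 2) (z : E d) :
    (E d) [⋀^Fin 2]→L[ℝ] ℝ :=
  wedge1 (fderiv ℝ (cutE x₀ f) z) (pb (chartAt (E d) x₀).symm α z) +
    cutE x₀ f z • pb (chartAt (E d) x₀).symm η z

omit [IsManifold (𝓡 d) ∞ X] in
theorem aE_zero (x₀ : X) (f : X → ℝ) (α : Form d X 1) {z : E d} (hz : z ∉ suppE x₀ f) :
    aE x₀ f α z = 0 := by
  unfold aE
  rw [cutE_zero x₀ f hz, zero_smul]

theorem bE_props [CompactSpace X] {x₀ : X} {f : X → ℝ} (hf : SmoothFun (d := d) f)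
    (hs : tsupport f ⊆ (chartAt (E d) x₀).source) {α : Form d X 1} {η : Form d X 2}
    (h : WeakPrim α η) : Integrable (aE x₀ f α) ∧ Integrable (bE x₀ f α η) ∧
      WeakExt (aE x₀ f α) (bE x₀ f α η) :=
  local_weak (isCompact_suppE hs) (suppE_subset hs) (contDiff_cutE hf hs)
    (fun _ hz => cutE_zero x₀ f hz) (h.int1 x₀) (h.int2 x₀) (h.weak x₀)

theorem pb_prodD_eq {x₀ : X} {f : X → ℝ} (hf : SmoothFun (d := d) f) (α : Form d X 1)
    (η : Form d X 2) {z : E d} (hz : z ∈ (chartAt (E d) x₀).target) :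
    pb (chartAt (E d) x₀).symm (prodD f α η) z = bE x₀ f α η z := by
  rw [pb_prodD (chartAt (E d) x₀).open_target contMDiffOn_chart_symm hf hz]
  unfold bE
  rw [(cutE_eventually x₀ f hz).fderiv_eq, cutE_mem x₀ f hz]
  rfl

theorem prodD_zero {f : X → ℝ} (α : Form d X 1) (η : Form d X 2) {x : X} (hx : x ∉ tsupport f) :
    prodD f α η x = 0 := by
  have h1 : f =ᶠ[𝓝 x] fun _ => 0 := by
    filter_upwards [(isClosed_tsupport f).isOpen_compl.mem_nhds hx] with y hy
    exact image_eq_zero_of_notMem_tsupport hy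
  have h2 : dd (d := d) f x = 0 := by
    unfold dd
    rw [h1.mfderiv_eq]
    exact mfderiv_const
  have h3 : f x = 0 := h1.self_of_nhds
  have h4 : wedge1 (V := E d) (dd (d := d) f x) (α x) = 0 := by
    rw [h2]
    ext v
    have := Pool.Agent.Y658.SY.wedge1_apply (V := E d) 0 (α x) v
    refine this.trans ?_
    show (0 : E d →L[ℝ] ℝ) (v 0) * _ - (0 : E d →L[ℝ] ℝ) (v 1) * _ = 0
    simp
  ext v
  have h5 : prodD f α η x v = wedge1 (V := E d) (dd (d := d) f x) (α x) v + f x * η x v := rfl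
  rw [h5, h4, h3, zero_mul, add_zero]
  rfl

theorem meas_prodD {f : X → ℝ} (hf : SmoothFun (d := d) f) {α : Form d X 1} {η : Form d X 2}
    (h : WeakPrim α η) (x₀ : X) {N : Set (E d)} (hN : IsCompact N)
    (hNt : N ⊆ (chartAt (E d) x₀).target) :
    AEStronglyMeasurable (pb (chartAt (E d) x₀).symm (prodD f α η)) (volume.restrict N) := by
  have hs := comp_smooth (contMDiffOn_chart_symm (x := x₀) (I := 𝓡 d) (n := ∞)) hf
  have h1 : ContinuousOn (fun z => fderiv ℝ (f ∘ (chartAt (E d) x₀).symm) z) N :=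
    (hs.continuousOn_fderiv_of_isOpen (chartAt (E d) x₀).open_target (by simp)).mono hNt
  have h2 : ContinuousOn (f ∘ (chartAt (E d) x₀).symm) N := hs.continuousOn.mono hNt
  have m1 := h1.aestronglyMeasurable (μ := volume) hN.measurableSet
  have m2 := h2.aestronglyMeasurable (μ := volume) hN.measurableSet
  have m3 := ((h.int1 x₀).integrableOn_compact_subset hNt hN).aestronglyMeasurable
  have m4 := ((h.int2 x₀).integrableOn_compact_subset hNt hN).aestronglyMeasurable
  have m5 := (wedgeL (V := E d)).aestronglyMeasurable_comp₂ m1 m3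
  have m6 := (ContinuousLinearMap.lsmul ℝ ℝ : ℝ →L[ℝ] ((E d) [⋀^Fin 2]→L[ℝ] ℝ) →L[ℝ] _
    ).aestronglyMeasurable_comp₂ m2 m4
  refine (m5.add m6).congr ?_
  refine (ae_restrict_iff' hN.measurableSet).2 (Eventually.of_forall fun z hz => ?_)
  exact (pb_prodD (chartAt (E d) x₀).open_target contMDiffOn_chart_symm hf (hNt hz)).symm

/-- the pieces of `η` add up -/
theorem sum_prodD {ι : Type} [Fintype ι] {f : ι → X → ℝ} (hf : ∀ j, SmoothFun (d := d) (f j))
    (h1 : ∀ x, ∑ j, f j x = 1) (α : Form d X 1) (η : Form d X 2) :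
    ∑ j, prodD (f j) α η = η := by
  classical
  funext x
  have h2 : ∀ s : Finset ι, ∀ v : E d, ∑ j ∈ s, dd (d := d) (f j) x v =
      dd (d := d) (fun y => ∑ j ∈ s, f j y) x v := by
    intro s v
    induction s using Finset.induction_on with
    | empty =>
      simp only [Finset.sum_empty]
      have h3 : dd (d := d) (fun _ : X => (0 : ℝ)) x = 0 := mfderiv_const
      rw [h3]
      rfl
    | insert a s ha ih =>
      simp only [Finset.sum_insert ha]
      rw [ih]
      have h3 : SmoothFun (d := d) (fun y => ∑ j ∈ s, f j y) :=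
        contMDiff_finsetSum fun j _ => hf j
      exact (dd_add (hf a) h3 x v).symm
  have h3 : ∀ v : E d, ∑ j, dd (d := d) (f j) x v = 0 := by
    intro v
    rw [h2]
    simp_rw [h1]
    have h3 : dd (d := d) (fun _ : X => (1 : ℝ)) x = 0 := mfderiv_const
    rw [h3]
    rfl
  rw [Finset.sum_apply]
  ext v
  have h4 : (∑ j, prodD (f j) α η x) v = ∑ j, prodD (f j) α η x v :=
    map_sum (Pool.Agent.Y431.SY.ev (E := E d) v) (fun j => prodD (f j) α η x) Finset.univ
  rw [h4]
  have h5 : ∀ j, prodD (f j) α η x v = (dd (d := d) (f j) x (v 0) * α x (fun _ => v 1) -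
      dd (d := d) (f j) x (v 1) * α x (fun _ => v 0)) + f j x * η x v := by
    intro j
    have h6 := Pool.Agent.Y658.SY.wedge1_apply (V := E d) (dd (f j) x) (α x) v
    exact congrArg (fun t => t + f j x * η x v) h6
  simp_rw [h5]
  rw [Finset.sum_add_distrib, Finset.sum_sub_distrib, ← Finset.sum_mul, ← Finset.sum_mul,
    ← Finset.sum_mul, h3, h3, h1]
  ring

end Pool.Agent.H819.LG
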