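import Mathlib

/-!
# Averages along submersions: measure estimates
-/

set_option autoImplicit false

open Set Filter Topology MeasureTheory Metric
open scoped ENNReal NNReal

noncomputable section

namespace Pool.Agent.H819.LG

/-- a map which does not decrease distances by more than the factor `1/2` does not increase
the measure density by more than `2 ^ d` -/
theorem vol_preimage_le {d : ℕ} {f : EuclideanSpace ℝ (Fin d) → EuclideanSpace ℝ (Fin d)}
    {S : Set (EuclideanSpace ℝ (Fin d))}
    (hf : ∀ u ∈ S, ∀ v ∈ S, ‖u - v‖ ≤ 2 * ‖f u - f v‖) (T : Set (EuclideanSpace ℝ (Fin d))) :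
    volume (S ∩ f ⁻¹' T) ≤ 2 ^ d * volume T := by
  classical
  rcases (S ∩ f ⁻¹' T).eq_empty_or_nonempty with h0 | h0
  · rw [h0]; simp
  have hinj : InjOn f S := by
    intro u hu v hv h
    have h1 := hf u hu v hv
    rw [h, sub_self, norm_zero, mul_zero] at h1
    exact sub_eq_zero.1 (norm_le_zero_iff.1 h1)
  obtain ⟨a, ha⟩ := h0
  have : Nonempty (EuclideanSpace ℝ (Fin d)) := ⟨a⟩
  have hμ : (volume : Measure (EuclideanSpace ℝ (Fin d))) =
      (volume : Measure (EuclideanSpace ℝ (Fin d))).addHaarScalarFactor μH[(d : ℝ)] •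
        (μH[(d : ℝ)] : Measure (EuclideanSpace ℝ (Fin d))) := by
    have h1 : (μH[(d : ℝ)] : Measure (EuclideanSpace ℝ (Fin d))).IsAddHaarMeasure := by
      simpa using MeasureTheory.isAddHaarMeasure_hausdorffMeasure
        (E := EuclideanSpace ℝ (Fin d))
    exact Measure.isAddLeftInvariant_eq_smul _ _
  have hL : LipschitzOnWith 2 (Function.invFunOn f S) (f '' (S ∩ f ⁻¹' T)) := by
    refine LipschitzOnWith.of_dist_le_mul ?_
    rintro _ ⟨u, hu, rfl⟩ _ ⟨v, hv, rfl⟩
    rw [hinj.leftInvOn_invFunOn hu.1, hinj.leftInvOn_invFunOn hv.1, dist_eq_norm, dist_eq_norm]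
    exact hf u hu.1 v hv.1
  have h2 := hL.hausdorffMeasure_image_le (d := (d : ℝ)) (by positivity)
  have h3 : Function.invFunOn f S '' (f '' (S ∩ f ⁻¹' T)) = S ∩ f ⁻¹' T := by
    rw [← image_comp]
    refine (image_congr fun u hu => ?_).trans (image_id _)
    exact hinj.leftInvOn_invFunOn hu.1
  rw [h3] at h2
  have h4 : (μH[(d : ℝ)] : Measure (EuclideanSpace ℝ (Fin d))) (f '' (S ∩ f ⁻¹' T)) ≤
      μH[(d : ℝ)] T := by
    refine measure_mono ?_
    rintro _ ⟨u, hu, rfl⟩
    exact hu.2
  rw [hμ]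
  simp only [Measure.smul_apply]
  have h5 : (μH[(d : ℝ)] : Measure (EuclideanSpace ℝ (Fin d))) (S ∩ f ⁻¹' T) ≤
      2 ^ d * μH[(d : ℝ)] T := by
    refine h2.trans ?_
    refine (mul_le_mul_right h4 _).trans (le_of_eq ?_)
    congr 1
    rw [ENNReal.rpow_natCast]
    simp
  simp only [ENNReal.smul_def, smul_eq_mul]
  refine (mul_le_mul_right h5 _).trans (le_of_eq ?_)
  ring

/-- change of variables inequality -/
theorem lintegral_comp_le {d : ℕ} {f : EuclideanSpace ℝ (Fin d) → EuclideanSpace ℝ (Fin d)}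
    {S T : Set (EuclideanSpace ℝ (Fin d))} (hS : MeasurableSet S) (hT : MeasurableSet T)
    (hfc : ContinuousOn f S) (hfT : MapsTo f S T)
    (hf : ∀ u ∈ S, ∀ v ∈ S, ‖u - v‖ ≤ 2 * ‖f u - f v‖)
    {g : EuclideanSpace ℝ (Fin d) → ℝ≥0∞} (hg : Measurable g) :
    ∫⁻ u in S, g (f u) ≤ 2 ^ d * ∫⁻ z in T, g z := by
  have hfm : AEMeasurable f (volume.restrict S) := hfc.aemeasurable hS
  have h1 : Measure.map f (volume.restrict S) ≤ (2 ^ d : ℝ≥0∞) • volume.restrict T := by
    rw [Measure.le_iff]
    intro A hA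
    rw [Measure.map_apply_of_aemeasurable hfm hA, Measure.smul_apply, smul_eq_mul,
      Measure.restrict_apply hA]
    rw [Measure.restrict_apply' hS]
    refine (measure_mono ?_).trans (vol_preimage_le hf (A ∩ T))
    intro u hu
    exact ⟨hu.2, hu.1, hfT hu.2⟩
  calc ∫⁻ u in S, g (f u) = ∫⁻ z, g z ∂(Measure.map f (volume.restrict S)) :=
        (lintegral_map' hg.aemeasurable hfm).symm
    _ ≤ ∫⁻ z, g z ∂((2 ^ d : ℝ≥0∞) • volume.restrict T) := lintegral_mono' h1 le_rfl
    _ = 2 ^ d * ∫⁻ z in T, g z := by rw [lintegral_smul_measure, smul_eq_mul]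

/-- **Averages along a submersion.**  `W` carries an invariant measure, `ι` embeds the Euclidean
space in `W`, and `ψ` is on the translates of the image of `ι` expanding by at least `1/2`. -/
theorem average_le {d : ℕ} {W : Type} [NormedAddCommGroup W] [NormedSpace ℝ W]
    [MeasurableSpace W] [BorelSpace W] (μ : Measure W) [SFinite μ] [μ.IsAddLeftInvariant]
    [SecondCountableTopology W]
    (ι : EuclideanSpace ℝ (Fin d) →L[ℝ] W) {r : ℝ} (hr : 0 < r)
    (hι : ∀ u, ‖u‖ ≤ r → ‖ι u‖ ≤ r) {ψ : W → EuclideanSpace ℝ (Fin d)}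
    {T : Set (EuclideanSpace ℝ (Fin d))} (hT : MeasurableSet T)
    (hψ : ContinuousOn ψ (closedBall 0 r)) (hψT : MapsTo ψ (closedBall 0 r) T)
    (hexp : ∀ y ∈ closedBall (0 : W) (2 * r), ∀ u v, ‖u‖ ≤ r → ‖v‖ ≤ r →
      ι u + y ∈ closedBall (0 : W) r → ι v + y ∈ closedBall (0 : W) r →
      ‖u - v‖ ≤ 2 * ‖ψ (ι u + y) - ψ (ι v + y)‖)
    {g : EuclideanSpace ℝ (Fin d) → ℝ≥0∞} (hg : Measurable g) :
    volume (closedBall (0 : EuclideanSpace ℝ (Fin d)) r) * ∫⁻ y in closedBall 0 r, g (ψ y) ∂μ ≤
      2 ^ d * μ (closedBall 0 (2 * r)) * ∫⁻ z in T, g z := by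
  classical
  set B : Set W := closedBall 0 r with hB
  have hBm : MeasurableSet B := measurableSet_closedBall
  obtain ⟨h, hh⟩ : ∃ h : W → ℝ≥0∞, h = B.indicator (fun y => g (ψ y)) := ⟨_, rfl⟩
  have hhm : Measurable h := by
    rw [hh]
    have h1 : Measurable (B.piecewise ψ (fun _ => 0)) :=
      hψ.measurable_piecewise continuousOn_const hBm
    have h2 : B.indicator (fun y => g (ψ y)) =
        B.indicator (fun y => g (B.piecewise ψ (fun _ => 0) y)) := by
      funext y
      by_cases hy : y ∈ B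
      · rw [indicator_of_mem hy, indicator_of_mem hy, piecewise_eq_of_mem _ _ _ hy]
      · rw [indicator_of_notMem hy, indicator_of_notMem hy]
    rw [h2]
    exact (hg.comp h1).indicator hBm
  have hint : ∫⁻ y in B, g (ψ y) ∂μ = ∫⁻ y, h y ∂μ := by
    rw [hh, lintegral_indicator hBm]
  have htr : ∀ u : EuclideanSpace ℝ (Fin d), ‖u‖ ≤ r →
      ∫⁻ y, h y ∂μ ≤ ∫⁻ y in closedBall 0 (2 * r), h (ι u + y) ∂μ := by
    intro u hu
    rw [← lintegral_add_left_eq_self (fun y => h y) (ι u),
      ← lintegral_indicator measurableSet_closedBall]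
    refine lintegral_mono fun y => ?_
    by_cases hy : y ∈ closedBall (0 : W) (2 * r)
    · rw [indicator_of_mem hy]
    · rw [indicator_of_notMem hy, hh, indicator_of_notMem]
      intro hc
      apply hy
      rw [mem_closedBall_zero_iff] at hc ⊢
      calc ‖y‖ = ‖(ι u + y) - ι u‖ := by congr 1; abel
        _ ≤ ‖ι u + y‖ + ‖ι u‖ := norm_sub_le _ _
        _ ≤ 2 * r := by linarith [hι u hu]
  have hjm : Measurable (fun p : EuclideanSpace ℝ (Fin d) × W => h (ι p.1 + p.2)) := by
    refine hhm.comp ?_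
    exact ((ι.continuous.comp continuous_fst).add continuous_snd).measurable
  rw [hint]
  calc volume (closedBall (0 : EuclideanSpace ℝ (Fin d)) r) * ∫⁻ y, h y ∂μ
      = ∫⁻ u in closedBall (0 : EuclideanSpace ℝ (Fin d)) r, (∫⁻ y, h y ∂μ) := by
        rw [lintegral_const, Measure.restrict_apply_univ, mul_comm]
    _ ≤ ∫⁻ u in closedBall (0 : EuclideanSpace ℝ (Fin d)) r,
          ∫⁻ y in closedBall 0 (2 * r), h (ι u + y) ∂μ := by
        refine setLIntegral_mono' measurableSet_closedBall fun u hu => htr u ?_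
        rwa [mem_closedBall_zero_iff] at hu
    _ = ∫⁻ y in closedBall 0 (2 * r), ∫⁻ u in closedBall (0 : EuclideanSpace ℝ (Fin d)) r,
          h (ι u + y) ∂volume ∂μ := lintegral_lintegral_swap hjm.aemeasurable
    _ ≤ ∫⁻ y in closedBall 0 (2 * r), 2 ^ d * ∫⁻ z in T, g z ∂volume ∂μ := by
        refine setLIntegral_mono' measurableSet_closedBall fun y hy => ?_
        set S : Set (EuclideanSpace ℝ (Fin d)) := closedBall 0 r ∩ {u | ι u + y ∈ B} with hS
        have hSm : MeasurableSet S := by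
          refine measurableSet_closedBall.inter ?_
          have : Continuous (fun u => ι u + y) := by fun_prop
          exact this.measurable hBm
        have e1 : ∫⁻ u in closedBall (0 : EuclideanSpace ℝ (Fin d)) r, h (ι u + y) =
            ∫⁻ u in S, g (ψ (ι u + y)) := by
          rw [← lintegral_indicator measurableSet_closedBall, ← lintegral_indicator hSm]
          congr 1
          funext u
          by_cases h1 : u ∈ closedBall (0 : EuclideanSpace ℝ (Fin d)) r
          · rw [indicator_of_mem h1, hh]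
            by_cases h2 : ι u + y ∈ B
            · rw [indicator_of_mem h2, indicator_of_mem (show u ∈ S from ⟨h1, h2⟩)]
            · rw [indicator_of_notMem h2, indicator_of_notMem (show u ∉ S from fun h => h2 h.2)]
          · rw [indicator_of_notMem h1, indicator_of_notMem (show u ∉ S from fun h => h1 h.1)]
        rw [e1]
        refine lintegral_comp_le (f := fun u => ψ (ι u + y)) hSm hT ?_ ?_ ?_ hg
        · refine hψ.comp (by fun_prop) ?_
          intro u hu
          exact hu.2
        · intro u hu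
          exact hψT hu.2
        · intro u hu v hv
          exact hexp y hy u v (by simpa using hu.1) (by simpa using hv.1) hu.2 hv.2
    _ = 2 ^ d * μ (closedBall 0 (2 * r)) * ∫⁻ z in T, g z := by
        rw [lintegral_const, Measure.restrict_apply_univ]
        ring

end Pool.Agent.H819.LG
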