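import Mathlib

/-!
# Families of class `C¹` near a compact set; the basic pointwise inequality
-/

set_option autoImplicit false

open Set Filter Topology MeasureTheory Metric
open scoped ENNReal NNReal ContDiff

noncomputable section

namespace Pool.Agent.H819.LG

/-- A `C¹` map is Lipschitz in the first variable, uniformly near a compact set. -/
theorem c1_bound {W E F : Type} [NormedAddCommGroup W] [NormedSpace ℝ W]
    [FiniteDimensional ℝ W] [NormedAddCommGroup E] [NormedSpace ℝ E]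
    [NormedAddCommGroup F] [NormedSpace ℝ F] {G : W × E → F} {Ω : Set (W × E)} (hΩ : IsOpen Ω)
    (hG : ContDiffOn ℝ 1 G Ω) {K : Set E} (hK : IsCompact K) (h0 : ∀ z ∈ K, ((0 : W), z) ∈ Ω) :
    ∃ r : ℝ, 0 < r ∧ ∃ C : ℝ, 0 ≤ C ∧ ∀ y : W, ‖y‖ ≤ r → ∀ z ∈ K, (y, z) ∈ Ω ∧
      ‖G (y, z) - G (0, z)‖ ≤ C * ‖y‖ := by
  have : ProperSpace W := FiniteDimensional.proper_real W
  obtain ⟨u, v, hu, hv, h0u, hKv, huv⟩ := generalized_tube_lemma (isCompact_singleton (x := (0 : W)))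
    hK hΩ (by
      rintro ⟨a, b⟩ ⟨ha, hb⟩
      rw [mem_singleton_iff] at ha
      subst ha
      exact h0 b hb)
  obtain ⟨ε, hε, hball⟩ := Metric.isOpen_iff.1 hu 0 (h0u rfl)
  have hsub : closedBall (0 : W) (ε / 2) ×ˢ K ⊆ Ω := by
    rintro ⟨a, b⟩ ⟨ha, hb⟩
    exact huv ⟨hball (closedBall_subset_ball (by linarith) ha), hKv hb⟩
  have hc : ContinuousOn (fun q => fderiv ℝ G q) Ω :=
    hG.continuousOn_fderiv_of_isOpen hΩ (by simp)
  obtain ⟨C, hC⟩ := ((isCompact_closedBall (0 : W) (ε / 2)).prod hK).exists_bound_of_continuousOn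
    (hc.mono hsub)
  refine ⟨ε / 2, by positivity, |C| * ‖ContinuousLinearMap.inl ℝ W E‖, by positivity,
    fun y hy z hz => ⟨hsub ⟨by simpa using hy, hz⟩, ?_⟩⟩
  have hd : ∀ y' ∈ closedBall (0 : W) (ε / 2), HasFDerivWithinAt (fun y' => G (y', z))
      ((fderiv ℝ G (y', z)).comp (ContinuousLinearMap.inl ℝ W E)) (closedBall (0 : W) (ε / 2))
      y' := by
    intro y' hy'
    have h1 : HasFDerivAt G (fderiv ℝ G (y', z)) (y', z) :=
      ((hG.differentiableOn (by simp)).differentiableAt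
        (hΩ.mem_nhds (hsub ⟨hy', hz⟩))).hasFDerivAt
    exact (h1.comp y' (hasFDerivAt_prodMk_left y' z)).hasFDerivWithinAt
  have hb : ∀ y' ∈ closedBall (0 : W) (ε / 2),
      ‖(fderiv ℝ G (y', z)).comp (ContinuousLinearMap.inl ℝ W E)‖ ≤
        |C| * ‖ContinuousLinearMap.inl ℝ W E‖ := by
    intro y' hy'
    refine (ContinuousLinearMap.opNorm_comp_le _ _).trans ?_
    exact mul_le_mul_of_nonneg_right ((hC (y', z) ⟨hy', hz⟩).trans (le_abs_self C))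
      (norm_nonneg _)
  have h2 := (convex_closedBall (0 : W) (ε / 2)).norm_image_sub_le_of_norm_hasFDerivWithin_le
    hd hb (x := 0) (y := y) (by simp; positivity) (by simpa using hy)
  simpa using h2

theorem slice1 {W E F : Type} [NormedAddCommGroup W] [NormedSpace ℝ W]
    [NormedAddCommGroup E] [NormedSpace ℝ E] [NormedAddCommGroup F] [NormedSpace ℝ F]
    {P : W × E → F} {y : W} {z : E} (h : DifferentiableAt ℝ P (y, z)) :
    HasFDerivAt (fun y' => P (y', z)) ((fderiv ℝ P (y, z)).comp (ContinuousLinearMap.inl ℝ W E))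
      y :=
  h.hasFDerivAt.comp y (hasFDerivAt_prodMk_left y z)

theorem slice2 {W E F : Type} [NormedAddCommGroup W] [NormedSpace ℝ W]
    [NormedAddCommGroup E] [NormedSpace ℝ E] [NormedAddCommGroup F] [NormedSpace ℝ F]
    {P : W × E → F} {y : W} {z : E} (h : DifferentiableAt ℝ P (y, z)) :
    HasFDerivAt (fun z' => P (y, z')) ((fderiv ℝ P (y, z)).comp (ContinuousLinearMap.inr ℝ W E))
      z :=
  h.hasFDerivAt.comp z (hasFDerivAt_prodMk_right y z)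

/-- the map `u ↦ ψ (ι u + y)` is expanding -/
theorem expanding {E W : Type} [NormedAddCommGroup E] [NormedSpace ℝ E] [NormedAddCommGroup W]
    [NormedSpace ℝ W] {ψ : W → E} {ι : E →L[ℝ] W} {r : ℝ}
    (hd : ∀ y : W, ‖y‖ ≤ r → DifferentiableAt ℝ ψ y ∧
      ‖(fderiv ℝ ψ y).comp ι - ContinuousLinearMap.id ℝ E‖ ≤ 1 / 2)
    (y : W) (u v : E) (hu : ‖ι u + y‖ ≤ r) (hv : ‖ι v + y‖ ≤ r) :
    ‖u - v‖ ≤ 2 * ‖ψ (ι u + y) - ψ (ι v + y)‖ := by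
  have hconv : Convex ℝ {w : E | ‖ι w + y‖ ≤ r} := by
    have h1 : {w : E | ‖ι w + y‖ ≤ r} = ι ⁻¹' (closedBall (-y) r) := by
      ext w
      simp [dist_eq_norm]
    rw [h1]
    exact (convex_closedBall _ _).linear_preimage (ι : E →ₗ[ℝ] W)
  have hder : ∀ w ∈ {w : E | ‖ι w + y‖ ≤ r}, HasFDerivWithinAt (fun w => ψ (ι w + y) - w)
      ((fderiv ℝ ψ (ι w + y)).comp ι - ContinuousLinearMap.id ℝ E) {w : E | ‖ι w + y‖ ≤ r} w := by
    intro w hw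
    have h1 : HasFDerivAt ψ (fderiv ℝ ψ (ι w + y)) (ι w + y) := ((hd _ hw).1).hasFDerivAt
    have h2 : HasFDerivAt (fun w : E => ι w + y) ι w := ι.hasFDerivAt.add_const y
    exact ((h1.comp w h2).sub (hasFDerivAt_id w)).hasFDerivWithinAt
  have h3 := hconv.norm_image_sub_le_of_norm_hasFDerivWithin_le hder
    (fun w hw => (hd _ hw).2) (x := v) (y := u) hv hu
  have h4 : ‖u - v‖ ≤ ‖ψ (ι u + y) - ψ (ι v + y)‖ +
      ‖ψ (ι u + y) - u - (ψ (ι v + y) - v)‖ := by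
    have h5 : u - v = (ψ (ι u + y) - ψ (ι v + y)) - (ψ (ι u + y) - u - (ψ (ι v + y) - v)) := by
      abel
    rw [h5]
    exact norm_sub_le _ _
  linarith

/-- **The basic inequality.**  `θ` is a two-form with bounded distortion relative to `A'`,
`t` is close to `θ`, and `D` almost intertwines `A` and `A'`. -/
theorem basic {E : Type} [NormedAddCommGroup E] [NormedSpace ℝ E]
    (θ t : E [⋀^Fin 2]→L[ℝ] ℝ) (A A' D : E →L[ℝ] E) {C c : ℝ} (hC : 0 ≤ C) (hc : 0 ≤ c)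
    (hdist : ∀ u w : E, θ ![u, w] ^ 2 ≤ C * θ ![u, A' u] * θ ![w, A' w])
    (hlow : ∀ u : E, c * ‖u‖ ^ 2 ≤ θ ![u, A' u])
    (hD : ‖D - ContinuousLinearMap.id ℝ E‖ ≤ 1 / 2) (u : E) :
    (c / 8 - C / 2 * ‖A'‖ * (‖θ‖ * ‖D.comp A - A'.comp D‖ ^ 2) - 4 * ‖A‖ * ‖t - θ‖) * ‖u‖ ^ 2 ≤
      t ![D u, D (A u)] := by
  set a := D u with ha
  set δ := D (A u) - A' (D u) with hδ
  have e2 : ∀ (s : E [⋀^Fin 2]→L[ℝ] ℝ) (x y : E), |s ![x, y]| ≤ ‖s‖ * (‖x‖ * ‖y‖) := by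
    intro s x y
    have := s.le_opNorm ![x, y]
    simpa [Fin.prod_univ_two] using this
  have eadd : ∀ (s : E [⋀^Fin 2]→L[ℝ] ℝ) (x y z : E), s ![x, y + z] = s ![x, y] + s ![x, z] := by
    intro s x y z
    have := s.toAlternatingMap.map_update_add ![x, y] 1 y z
    have h1 : ∀ w : E, Function.update ![x, y] 1 w = ![x, w] := by
      intro w; funext i; fin_cases i <;> simp
    rw [h1, h1, h1] at this
    exact this
  have h1 : t ![a, D (A u)] = θ ![a, A' a] + θ ![a, δ] + (t - θ) ![a, D (A u)] := by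
    have h2 : θ ![a, D (A u)] = θ ![a, A' a] + θ ![a, δ] := by
      rw [← eadd]
      congr 1
      rw [hδ, ha]
      congr 2
      abel_nf
    have h3 : (t - θ) ![a, D (A u)] = t ![a, D (A u)] - θ ![a, D (A u)] := rfl
    rw [h3, h2]
    ring
  have hX : 0 ≤ θ ![a, A' a] := le_trans (by positivity) (hlow a)
  have h4 : |θ ![a, δ]| ≤ θ ![a, A' a] / 2 + C / 2 * (‖θ‖ * ‖A'‖ * ‖δ‖ ^ 2) := by
    have h5 : θ ![a, δ] ^ 2 ≤ θ ![a, A' a] * (C * (‖θ‖ * ‖A'‖ * ‖δ‖ ^ 2)) := by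
      refine (hdist a δ).trans ?_
      have h6 : θ ![δ, A' δ] ≤ ‖θ‖ * ‖A'‖ * ‖δ‖ ^ 2 := by
        refine (le_abs_self _).trans ((e2 θ δ (A' δ)).trans ?_)
        have := A'.le_opNorm δ
        calc ‖θ‖ * (‖δ‖ * ‖A' δ‖) ≤ ‖θ‖ * (‖δ‖ * (‖A'‖ * ‖δ‖)) := by gcongr
          _ = ‖θ‖ * ‖A'‖ * ‖δ‖ ^ 2 := by ring
      calc C * θ ![a, A' a] * θ ![δ, A' δ] ≤ C * θ ![a, A' a] * (‖θ‖ * ‖A'‖ * ‖δ‖ ^ 2) := by
            gcongr
        _ = _ := by ring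
    have h7 : 0 ≤ C * (‖θ‖ * ‖A'‖ * ‖δ‖ ^ 2) := by positivity
    refine abs_le_of_sq_le_sq ?_ (by positivity)
    nlinarith [sq_nonneg (θ ![a, A' a] - C * (‖θ‖ * ‖A'‖ * ‖δ‖ ^ 2))]
  have hDn : ‖D‖ ≤ 2 := by
    have : D = (D - ContinuousLinearMap.id ℝ E) + ContinuousLinearMap.id ℝ E := by abel
    rw [this]
    refine (norm_add_le _ _).trans ?_
    have := ContinuousLinearMap.norm_id_le (𝕜 := ℝ) (E := E)
    linarith
  have ha1 : ‖u‖ / 2 ≤ ‖a‖ := by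
    have h8 : ‖u‖ ≤ ‖a‖ + ‖(D - ContinuousLinearMap.id ℝ E) u‖ := by
      have : u = a - (D - ContinuousLinearMap.id ℝ E) u := by
        rw [ha]; simp
      calc ‖u‖ = ‖a - (D - ContinuousLinearMap.id ℝ E) u‖ := by rw [← this]
        _ ≤ _ := norm_sub_le _ _
    have h9 := (D - ContinuousLinearMap.id ℝ E).le_opNorm u
    nlinarith [norm_nonneg u]
  have ha2 : ‖a‖ ≤ 2 * ‖u‖ := (D.le_opNorm u).trans (by gcongr)
  have h10 : |(t - θ) ![a, D (A u)]| ≤ 4 * ‖A‖ * ‖t - θ‖ * ‖u‖ ^ 2 := by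
    refine (e2 _ _ _).trans ?_
    have h11 : ‖D (A u)‖ ≤ 2 * (‖A‖ * ‖u‖) :=
      (D.le_opNorm _).trans (mul_le_mul hDn (A.le_opNorm u) (norm_nonneg _) (by norm_num))
    calc ‖t - θ‖ * (‖a‖ * ‖D (A u)‖) ≤ ‖t - θ‖ * ((2 * ‖u‖) * (2 * (‖A‖ * ‖u‖))) := by gcongr
      _ = 4 * ‖A‖ * ‖t - θ‖ * ‖u‖ ^ 2 := by ring
  have h12 : ‖δ‖ ≤ ‖D.comp A - A'.comp D‖ * ‖u‖ := by
    have : δ = (D.comp A - A'.comp D) u := by rw [hδ]; simp
    rw [this]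
    exact ContinuousLinearMap.le_opNorm _ _
  have h13 : ‖δ‖ ^ 2 ≤ ‖D.comp A - A'.comp D‖ ^ 2 * ‖u‖ ^ 2 := by
    rw [← mul_pow]
    exact pow_le_pow_left₀ (norm_nonneg _) h12 2
  have h14 : c / 8 * ‖u‖ ^ 2 ≤ θ ![a, A' a] / 2 := by
    have h15 := hlow a
    have h16 : (‖u‖ / 2) ^ 2 ≤ ‖a‖ ^ 2 := pow_le_pow_left₀ (by positivity) ha1 2
    have h17 : c * (‖u‖ / 2) ^ 2 ≤ c * ‖a‖ ^ 2 := mul_le_mul_of_nonneg_left h16 hc
    nlinarith
  have h18 : C / 2 * (‖θ‖ * ‖A'‖ * ‖δ‖ ^ 2) ≤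
      C / 2 * ‖A'‖ * (‖θ‖ * ‖D.comp A - A'.comp D‖ ^ 2) * ‖u‖ ^ 2 := by
    calc C / 2 * (‖θ‖ * ‖A'‖ * ‖δ‖ ^ 2) ≤
        C / 2 * (‖θ‖ * ‖A'‖ * (‖D.comp A - A'.comp D‖ ^ 2 * ‖u‖ ^ 2)) := by gcongr
      _ = _ := by ring
  rw [h1]
  have h19 := (abs_le.1 h4).1
  have h20 := (abs_le.1 h10).1
  nlinarith

end Pool.Agent.H819.LG
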