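import Mathlib
import Pool.Agent.H819.LG.Prim2
import Pool.Graph.R_seed8.Y501.SY.PairL

/-!
# Compositions of small shifts
-/

set_option autoImplicit false

open Set Filter Topology MeasureTheory Metric
open scoped Manifold ContDiff

noncomputable section

namespace Pool.Agent.H819.LG

open Pool.Agent.Y501.SY

variable {d : ℕ} {X : Type} [TopologicalSpace X] [ChartedSpace (E d) X]

/-- composition of the shifts with indices in the list `l` -/
def fam {n : ℕ} (c : Fin n → Cut d X) (l : List (Fin n)) (y : Fin n → E d) (p : X) : X :=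
  l.foldr (fun i q => (c i).sh (y i) q) p

theorem fam_cons {n : ℕ} (c : Fin n → Cut d X) (i : Fin n) (l : List (Fin n))
    (y : Fin n → E d) (p : X) : fam c (i :: l) y p = (c i).sh (y i) (fam c l y p) := rfl

theorem fam_zero {n : ℕ} (c : Fin n → Cut d X) (l : List (Fin n)) (p : X) :
    fam c l 0 p = p := by
  induction l with
  | nil => rfl
  | cons i l ih => rw [fam_cons, ih]; exact (c i).sh_zero p

theorem fam_single_notMem {n : ℕ} (c : Fin n → Cut d X) (l : List (Fin n)) (i : Fin n)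
    (h : i ∉ l) (u : E d) (p : X) : fam c l (Pi.single i u) p = p := by
  induction l with
  | nil => rfl
  | cons j l ih =>
    rw [List.mem_cons, not_or] at h
    rw [fam_cons, ih h.2, Pi.single_eq_of_ne (Ne.symm h.1)]
    exact (c j).sh_zero p

theorem fam_single {n : ℕ} (c : Fin n → Cut d X) (l : List (Fin n)) (hl : l.Nodup) (i : Fin n)
    (h : i ∈ l) (u : E d) (p : X) : fam c l (Pi.single i u) p = (c i).sh u p := by
  induction l with
  | nil => simp at h
  | cons j l ih =>
    rw [List.nodup_cons] at hl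
    rw [fam_cons]
    by_cases hj : j = i
    · subst hj
      rw [fam_single_notMem c l j hl.1, Pi.single_eq_same]
    · have h2 : i ∈ l := by
        rcases List.mem_cons.1 h with h3 | h3
        · exact absurd h3.symm hj
        · exact h3
      rw [ih hl.2 h2, Pi.single_eq_of_ne hj]
      exact (c j).sh_zero _

variable [IsManifold (𝓡 d) ∞ X]

theorem contMDiffAt_fam [T2Space X] {n : ℕ} (c : Fin n → Cut d X) {R : ℝ} (hR : ∀ i, R ≤ (c i).R)
    (l : List (Fin n)) {y₀ : Fin n → E d} (hy : ‖y₀‖ < R) (p₀ : X) :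
    ContMDiffAt (𝓘(ℝ, Fin n → E d).prod (𝓡 d)) (𝓡 d) ∞
      (fun q : (Fin n → E d) × X => fam c l q.1 q.2) (y₀, p₀) := by
  induction l with
  | nil => exact contMDiffAt_snd
  | cons i l ih =>
    have h1 : ContMDiffAt (𝓘(ℝ, Fin n → E d).prod (𝓡 d)) 𝓘(ℝ, E d) ∞
        (fun q : (Fin n → E d) × X => q.1 i) (y₀, p₀) := by
      have h0 : ContMDiff 𝓘(ℝ, Fin n → E d) 𝓘(ℝ, E d) ∞ (fun y : Fin n → E d => y i) :=
        (contDiff_apply ℝ (E d) i).contMDiff
      exact (h0.contMDiffAt).comp (y₀, p₀) contMDiffAt_fst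
    have h2 := (c i).contMDiffAt_sh (y₀ := y₀ i)
      (((norm_le_pi_norm y₀ i).trans_lt hy).trans_le (hR i)) (fam c l y₀ p₀)
    exact h2.comp (y₀, p₀) (h1.prodMk ih)

theorem contMDiff_fam [T2Space X] {n : ℕ} (c : Fin n → Cut d X) {R : ℝ} (hR : ∀ i, R ≤ (c i).R)
    (l : List (Fin n)) {y : Fin n → E d} (hy : ‖y‖ < R) : ContMDiff (𝓡 d) (𝓡 d) ∞ (fam c l y) := by
  intro p
  have h := contMDiffAt_fam c hR l hy p
  exact h.comp p (contMDiffAt_const.prodMk contMDiffAt_id)

theorem pull_comp {f g : X → X} (hf : ContMDiff (𝓡 d) (𝓡 d) ∞ f) (hg : ContMDiff (𝓡 d) (𝓡 d) ∞ g)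
    (σ : Form d X 2) : pull (d := d) (f ∘ g) σ = pull (d := d) g (pull (d := d) f σ) := by
  funext x
  unfold pull
  rw [mfderiv_comp x ((hf (g x)).mdifferentiableAt (by simp))
    ((hg x).mdifferentiableAt (by simp))]
  rfl

omit [IsManifold (𝓡 d) ∞ X] in
theorem pull_id (σ : Form d X 2) : pull (d := d) (fun x : X => x) σ = σ := by
  funext x
  unfold pull
  have h : mfderiv (𝓡 d) (𝓡 d) (fun x : X => x) x = ContinuousLinearMap.id ℝ _ := mfderiv_id
  rw [h]
  rfl

/-- The pull-back by a composition of small shifts is smooth and closed and in the same class. -/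
theorem fam_class [T2Space X] {n : ℕ} (c : Fin n → Cut d X) {R : ℝ} (hR : ∀ i, R ≤ (c i).R)
    (l : List (Fin n)) {y : Fin n → E d} (hy : ‖y‖ < R) :
    ∀ σ : Form d X 2, IsSmooth σ → IsClosedForm σ →
      IsSmooth (pull (d := d) (fam c l y) σ) ∧ IsClosedForm (pull (d := d) (fam c l y) σ) ∧
      ∃ β : Form d X 1, IsSmooth β ∧ IsD β (pull (d := d) (fam c l y) σ - σ) := by
  induction l with
  | nil =>
    intro σ hσ hσc
    have h : pull (d := d) (fam c [] y) σ = σ := pull_id σ
    rw [h, sub_self]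
    exact ⟨hσ, hσc, 0, IsSmooth.zero, IsD.zero⟩
  | cons i l ih =>
    intro σ hσ hσc
    have hyi : ‖y i‖ < (c i).R := ((norm_le_pi_norm y i).trans_lt hy).trans_le (hR i)
    have hi := (c i).contMDiff_sh hyi
    obtain ⟨h1, h2⟩ := Pool.Agent.Y604.SY.t_PULL d d X X _ σ hi hσ hσc
    obtain ⟨β₁, h3, h4⟩ := (c i).exists_primitive hyi hσ hσc
    obtain ⟨h5, h6, β₂, h7, h8⟩ := ih _ h1 h2
    have he : pull (d := d) (fam c (i :: l) y) σ =
        pull (d := d) (fam c l y) (pull (d := d) ((c i).sh (y i)) σ) :=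
      pull_comp (f := (c i).sh (y i)) (g := fam c l y) hi (contMDiff_fam c hR l hy) σ
    rw [he]
    refine ⟨h5, h6, β₂ + β₁, h7.add h3, ?_⟩
    have h9 := h8.add h4 h7 h3
    rwa [sub_add_sub_cancel] at h9

end Pool.Agent.H819.LG
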