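import Mathlib
import Pool.Agent.H819.LG.Fam
import Pool.Agent.H819.LG.Calc

/-!
# Compositions of small shifts in the charts
-/

set_option autoImplicit false

open Set Filter Topology MeasureTheory Metric
open scoped Manifold ContDiff

noncomputable section

namespace Pool.Agent.H819.LG

open Pool.Agent.Y501.SY

variable {d : ℕ} {X : Type} [TopologicalSpace X] [ChartedSpace (E d) X]

/-- all shifts -/
abbrev Fam {n : ℕ} (c : Fin n → Cut d X) (y : Fin n → E d) (p : X) : X :=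
  fam c (List.finRange n) y p

/-- the composition of all shifts in the chart at `x₀` -/
def Psi {n : ℕ} (c : Fin n → Cut d X) (x₀ : X) (q : (Fin n → E d) × E d) : E d :=
  chartAt (E d) x₀ (Fam c q.1 ((chartAt (E d) x₀).symm q.2))

/-- the domain -/
def PsiD {n : ℕ} (c : Fin n → Cut d X) (R : ℝ) (x₀ : X) : Set ((Fin n → E d) × E d) :=
  {q | ‖q.1‖ < R ∧ q.2 ∈ (chartAt (E d) x₀).target ∧
    Fam c q.1 ((chartAt (E d) x₀).symm q.2) ∈ (chartAt (E d) x₀).source}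

variable [IsManifold (𝓡 d) ∞ X]

theorem contMDiffAt_famSymm [T2Space X] {n : ℕ} (c : Fin n → Cut d X) {R : ℝ}
    (hR : ∀ i, R ≤ (c i).R) (x₀ : X) {q : (Fin n → E d) × E d} (hq : ‖q.1‖ < R)
    (hq2 : q.2 ∈ (chartAt (E d) x₀).target) :
    ContMDiffAt 𝓘(ℝ, (Fin n → E d) × E d) (𝓡 d) ∞
      (fun q : (Fin n → E d) × E d => Fam c q.1 ((chartAt (E d) x₀).symm q.2)) q := by
  have h1 : ContMDiffAt 𝓘(ℝ, (Fin n → E d) × E d) 𝓘(ℝ, Fin n → E d) ∞
      (fun q : (Fin n → E d) × E d => q.1) q := contDiff_fst.contMDiff.contMDiffAt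
  have h2 : ContMDiffAt 𝓘(ℝ, (Fin n → E d) × E d) (𝓡 d) ∞
      (fun q : (Fin n → E d) × E d => q.2) q := contDiff_snd.contMDiff.contMDiffAt
  have h3 : ContMDiffAt (𝓡 d) (𝓡 d) ∞ (chartAt (E d) x₀).symm q.2 :=
    contMDiffOn_chart_symm.contMDiffAt ((chartAt (E d) x₀).open_target.mem_nhds hq2)
  have h4 : ContMDiffAt 𝓘(ℝ, (Fin n → E d) × E d) (𝓡 d) ∞
      (fun q : (Fin n → E d) × E d => (chartAt (E d) x₀).symm q.2) q := h3.comp q h2
  have h5 := contMDiffAt_fam c hR (List.finRange n) hq ((chartAt (E d) x₀).symm q.2)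
  exact h5.comp q (h1.prodMk h4)

theorem isOpen_PsiD [T2Space X] {n : ℕ} (c : Fin n → Cut d X) {R : ℝ}
    (hR : ∀ i, R ≤ (c i).R) (x₀ : X) : IsOpen (PsiD c R x₀) := by
  rw [isOpen_iff_eventually]
  rintro q ⟨h1, h2, h3⟩
  have e1 : ∀ᶠ q' : (Fin n → E d) × E d in 𝓝 q, ‖q'.1‖ < R :=
    (continuous_fst.norm.continuousAt (x := q)).eventually (gt_mem_nhds h1)
  have e2 : ∀ᶠ q' : (Fin n → E d) × E d in 𝓝 q, q'.2 ∈ (chartAt (E d) x₀).target :=
    (continuous_snd.continuousAt (x := q)).eventually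
      ((chartAt (E d) x₀).open_target.mem_nhds h2)
  have e3 := (contMDiffAt_famSymm c hR x₀ h1 h2).continuousAt.eventually
    ((chartAt (E d) x₀).open_source.mem_nhds h3)
  filter_upwards [e1, e2, e3] with q' a1 a2 a3
  exact ⟨a1, a2, a3⟩

theorem contDiffAt_Psi [T2Space X] {n : ℕ} (c : Fin n → Cut d X) {R : ℝ}
    (hR : ∀ i, R ≤ (c i).R) (x₀ : X) {q : (Fin n → E d) × E d} (hq : q ∈ PsiD c R x₀) :
    ContDiffAt ℝ ∞ (Psi c x₀) q := by
  have h1 := contMDiffAt_famSymm c hR x₀ hq.1 hq.2.1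
  have h2 : ContMDiffAt (𝓡 d) (𝓡 d) ∞ (chartAt (E d) x₀)
      (Fam c q.1 ((chartAt (E d) x₀).symm q.2)) :=
    contMDiffOn_chart.contMDiffAt ((chartAt (E d) x₀).open_source.mem_nhds hq.2.2)
  exact contMDiffAt_iff_contDiffAt.1 (h2.comp q h1)

/-- the inclusion of the `i`-th coordinate -/
abbrev inc {n : ℕ} (i : Fin n) : E d →L[ℝ] (Fin n → E d) :=
  ContinuousLinearMap.single ℝ (fun _ : Fin n => E d) i

omit [IsManifold (𝓡 d) ∞ X] in
theorem Psi_zero {n : ℕ} (c : Fin n → Cut d X) (x₀ : X) {z : E d}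
    (hz : z ∈ (chartAt (E d) x₀).target) : Psi c x₀ (0, z) = z := by
  show chartAt (E d) x₀ (fam c _ 0 _) = z
  rw [fam_zero, (chartAt (E d) x₀).right_inv hz]

omit [IsManifold (𝓡 d) ∞ X] in
theorem Psi_single {n : ℕ} (c : Fin n → Cut d X) (i : Fin n) {z u : E d}
    (hz : z ∈ (c i).e.target) (h1 : (c i).χ z = 1) (hu : ‖u‖ ≤ (c i).R) :
    Psi c (c i).x₀ (Pi.single i u, z) = z + u := by
  show (c i).e (fam c (List.finRange n) (Pi.single i u) ((c i).e.symm z)) = z + u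
  rw [fam_single c _ (List.nodup_finRange n) i (List.mem_finRange i), (c i).sh_one u hz h1,
    (c i).e.right_inv]
  have := (c i).lo_mem' hu hz
  rwa [Cut.lo, h1, one_smul] at this

/-- **Bounds for the composition of the shifts in a chart.** -/
theorem psi_bounds [T2Space X] {n : ℕ} (c : Fin n → Cut d X) {R : ℝ} (hR0 : 0 < R)
    (hR : ∀ i, R ≤ (c i).R) (i : Fin n) {K : Set (E d)} (hK : IsCompact K)
    (hKt : K ⊆ (c i).e.target) (hK1 : ∀ z ∈ K, (c i).χ z = 1) :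
    ∃ r : ℝ, 0 < r ∧ r < R ∧ ∃ C : ℝ, 1 ≤ C ∧ ∀ y : Fin n → E d, ‖y‖ ≤ r → ∀ z ∈ K,
      (y, z) ∈ PsiD c R (c i).x₀ ∧
      ‖Psi c (c i).x₀ (y, z) - z‖ ≤ C * ‖y‖ ∧
      ‖fderiv ℝ (fun z' => Psi c (c i).x₀ (y, z')) z - ContinuousLinearMap.id ℝ (E d)‖ ≤
        C * ‖y‖ ∧
      ‖(fderiv ℝ (fun y' => Psi c (c i).x₀ (y', z)) y).comp (inc i) -
        ContinuousLinearMap.id ℝ (E d)‖ ≤ C * ‖y‖ := by
  set P := Psi c (c i).x₀ with hP
  set Ω := PsiD c R (c i).x₀ with hΩ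
  have hΩo : IsOpen Ω := isOpen_PsiD c hR _
  have hPc : ContDiffOn ℝ ∞ P Ω := fun q hq => (contDiffAt_Psi c hR _ hq).contDiffWithinAt
  have h0 : ∀ z ∈ (c i).e.target, ((0 : Fin n → E d), z) ∈ Ω := by
    intro z hz
    refine ⟨by simpa using hR0, hz, ?_⟩
    show fam c _ 0 _ ∈ _
    rw [fam_zero]
    exact (c i).e.map_target hz
  obtain ⟨r₁, hr₁, C₁, hC₁, hb₁⟩ := c1_bound hΩo (hPc.of_le (by exact_mod_cast le_top)) hK
    fun z hz => h0 z (hKt hz)
  have hPf : ContDiffOn ℝ 1 (fun q => fderiv ℝ P q) Ω := by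
    intro q hq
    have h1 : ContDiffAt ℝ ∞ P q := contDiffAt_Psi c hR _ hq
    exact (h1.fderiv_right (m := 1) (by
      have : (1 : WithTop ℕ∞) + 1 = ((2 : ℕ∞) : WithTop ℕ∞) := by norm_num
      rw [this]
      exact WithTop.coe_le_coe.2 le_top)).contDiffWithinAt
  obtain ⟨r₂, hr₂, C₂, hC₂, hb₂⟩ := c1_bound hΩo hPf hK fun z hz => h0 z (hKt hz)
  have hsl2 : ∀ y z, (y, z) ∈ Ω → fderiv ℝ (fun z' => P (y, z')) z =
      (fderiv ℝ P (y, z)).comp (ContinuousLinearMap.inr ℝ (Fin n → E d) (E d)) := by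
    intro y z hq
    exact (slice2 ((contDiffAt_Psi c hR _ hq).differentiableAt (by simp))).fderiv
  have hsl1 : ∀ y z, (y, z) ∈ Ω → fderiv ℝ (fun y' => P (y', z)) y =
      (fderiv ℝ P (y, z)).comp (ContinuousLinearMap.inl ℝ (Fin n → E d) (E d)) := by
    intro y z hq
    exact (slice1 ((contDiffAt_Psi c hR _ hq).differentiableAt (by simp))).fderiv
  have hid2 : ∀ z ∈ K, (fderiv ℝ P (0, z)).comp (ContinuousLinearMap.inr ℝ (Fin n → E d) (E d)) =
      ContinuousLinearMap.id ℝ (E d) := by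
    intro z hz
    rw [← hsl2 0 z (h0 z (hKt hz))]
    have h1 : (fun z' => P (0, z')) =ᶠ[𝓝 z] fun z' => z' := by
      filter_upwards [(c i).e.open_target.mem_nhds (hKt hz)] with z' hz'
      exact Psi_zero c _ hz'
    rw [h1.fderiv_eq]
    exact fderiv_fun_id
  have hid1 : ∀ z ∈ K, ((fderiv ℝ P (0, z)).comp
      (ContinuousLinearMap.inl ℝ (Fin n → E d) (E d))).comp (inc i) =
      ContinuousLinearMap.id ℝ (E d) := by
    intro z hz
    have h1 := slice1 ((contDiffAt_Psi c hR _ (h0 z (hKt hz))).differentiableAt (by simp))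
    have h2 : HasFDerivAt (fun u : E d => P (inc i u, z)) (((fderiv ℝ P (0, z)).comp
      (ContinuousLinearMap.inl ℝ (Fin n → E d) (E d))).comp (inc i)) 0 := by
      have h3 : HasFDerivAt (fun y' : Fin n → E d => P (y', z)) ((fderiv ℝ P (0, z)).comp
        (ContinuousLinearMap.inl ℝ (Fin n → E d) (E d))) (inc i 0) := by
        rw [map_zero]
        exact h1
      exact h3.comp (0 : E d) (inc i).hasFDerivAt
    have h4 : (fun u : E d => P (inc i u, z)) =ᶠ[𝓝 0] fun u => z + u := by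
      filter_upwards [Metric.closedBall_mem_nhds (0 : E d) ((c i).pos)] with u hu
      exact Psi_single c i (hKt hz) (hK1 z hz) (by simpa using hu)
    have h5 : HasFDerivAt (fun u : E d => z + u) (ContinuousLinearMap.id ℝ (E d)) 0 :=
      (hasFDerivAt_id (0 : E d)).const_add z
    rw [← h2.fderiv, h4.fderiv_eq, h5.fderiv]
  have hinl : ‖ContinuousLinearMap.inl ℝ (Fin n → E d) (E d)‖ ≤ 1 :=
    ContinuousLinearMap.norm_inl_le_one _ _ _
  have hinr : ‖ContinuousLinearMap.inr ℝ (Fin n → E d) (E d)‖ ≤ 1 :=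
    ContinuousLinearMap.norm_inr_le_one _ _ _
  have hinc : ‖(inc i : E d →L[ℝ] (Fin n → E d))‖ ≤ 1 := by
    refine ContinuousLinearMap.opNorm_le_bound _ zero_le_one fun u => ?_
    rw [one_mul]
    show ‖(Pi.single i u : Fin n → E d)‖ ≤ ‖u‖
    rw [Pi.norm_single]
  refine ⟨min (min r₁ r₂) (R / 2), by positivity, lt_of_le_of_lt (min_le_right _ _) (by linarith),
    C₁ + C₂ + 1, by linarith, ?_⟩
  intro y hy z hz
  have hy1 : ‖y‖ ≤ r₁ := hy.trans ((min_le_left _ _).trans (min_le_left _ _))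
  have hy2 : ‖y‖ ≤ r₂ := hy.trans ((min_le_left _ _).trans (min_le_right _ _))
  obtain ⟨hm, hb⟩ := hb₁ y hy1 z hz
  obtain ⟨-, hf⟩ := hb₂ y hy2 z hz
  have hyn := norm_nonneg y
  refine ⟨hm, ?_, ?_, ?_⟩
  · rw [hP, Psi_zero c _ (hKt hz)] at hb
    nlinarith
  · rw [hsl2 y z hm, ← hid2 z hz, ← ContinuousLinearMap.sub_comp]
    refine (ContinuousLinearMap.opNorm_comp_le _ _).trans ?_
    have := mul_le_mul hf hinr (norm_nonneg _) (by positivity)
    nlinarith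
  · rw [hsl1 y z hm, ← hid1 z hz, ← ContinuousLinearMap.sub_comp,
      ← ContinuousLinearMap.sub_comp]
    refine (ContinuousLinearMap.opNorm_comp_le _ _).trans ?_
    have h1 := ContinuousLinearMap.opNorm_comp_le (fderiv ℝ P (y, z) - fderiv ℝ P (0, z))
      (ContinuousLinearMap.inl ℝ (Fin n → E d) (E d))
    have h2 := h1.trans (mul_le_mul hf hinl (norm_nonneg _) (by positivity))
    have := mul_le_mul h2 hinc (norm_nonneg _) (by positivity)
    nlinarith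

end Pool.Agent.H819.LG
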