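import Mathlib
import Pool.Agent.H819.LG.Psi
import Pool.Agent.H819.LG.Lip

/-!
# The local estimate
-/

set_option autoImplicit false

open Set Filter Topology MeasureTheory Metric
open scoped Manifold ContDiff ENNReal NNReal

noncomputable section

namespace Pool.Agent.H819.LG

open Pool.Agent.Y501.SY

/-- the normalized measure on a ball -/
def avg {W : Type} [NormedAddCommGroup W] [MeasurableSpace W] (μ : Measure W) (r : ℝ) :
    Measure W := (μ (closedBall 0 r))⁻¹ • μ.restrict (closedBall 0 r)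

theorem avg_prob {W : Type} [NormedAddCommGroup W] [NormedSpace ℝ W] [FiniteDimensional ℝ W]
    [MeasurableSpace W] [BorelSpace W] (μ : Measure W) [μ.IsAddHaarMeasure] {r : ℝ} (hr : 0 < r) :
    IsProbabilityMeasure (avg μ r) := by
  have h1 : μ (closedBall 0 r) ≠ 0 := (measure_closedBall_pos μ 0 hr).ne'
  have h2 : μ (closedBall 0 r) ≠ ⊤ := by
    have : ProperSpace W := FiniteDimensional.proper_real W
    exact (isCompact_closedBall 0 r).measure_lt_top.ne
  constructor
  rw [avg, Measure.smul_apply, Measure.restrict_apply_univ, smul_eq_mul]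
  exact ENNReal.inv_mul_cancel h1 h2

theorem integral_le_of_lintegral {W : Type} [MeasurableSpace W] {μ : Measure W} {f : W → ℝ}
    (hf : Integrable f μ) {a : ℝ} (ha : 0 ≤ a) (h : ∫⁻ y, ENNReal.ofReal (f y) ∂μ ≤
      ENNReal.ofReal a) : ∫ y, f y ∂μ ≤ a := by
  rw [integral_eq_lintegral_pos_part_sub_lintegral_neg_part hf]
  have h1 : (∫⁻ y, ENNReal.ofReal (f y) ∂μ).toReal ≤ a := ENNReal.toReal_le_of_le_ofReal ha h
  have h2 : 0 ≤ (∫⁻ y, ENNReal.ofReal (-f y) ∂μ).toReal := ENNReal.toReal_nonneg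
  linarith

/-- a lower bound for an average -/
theorem avg_lower {d : ℕ} {W : Type} [NormedAddCommGroup W] [NormedSpace ℝ W]
    [FiniteDimensional ℝ W] [MeasurableSpace W] [BorelSpace W] (μ : Measure W)
    [μ.IsAddHaarMeasure]
    (ι : EuclideanSpace ℝ (Fin d) →L[ℝ] W) {r : ℝ} (hr : 0 < r)
    (hι : ∀ u, ‖u‖ ≤ r → ‖ι u‖ ≤ r) {ψ : W → EuclideanSpace ℝ (Fin d)}
    {T : Set (EuclideanSpace ℝ (Fin d))}
    (hψT : MapsTo ψ (closedBall 0 r) T)
    (hd : ∀ y : W, ‖y‖ ≤ r → DifferentiableAt ℝ ψ y ∧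
      ‖(fderiv ℝ ψ y).comp ι - ContinuousLinearMap.id ℝ _‖ ≤ 1 / 2)
    {G : EuclideanSpace ℝ (Fin d) → ℝ≥0∞} (hG : AEMeasurable G (volume.restrict T))
    (hT : MeasurableSet T)
    {good : EuclideanSpace ℝ (Fin d) → Prop} (hgood : ∀ᵐ z ∂(volume.restrict T), good z)
    {F : W → ℝ} (hF : ContinuousOn F (closedBall 0 r)) {c₀ : ℝ}
    (hFG : ∀ y ∈ closedBall (0 : W) r, good (ψ y) → ENNReal.ofReal (c₀ - F y) ≤ G (ψ y))
    {a : ℝ} (ha : 0 ≤ a)
    (hsm : 2 ^ d * μ (closedBall 0 (2 * r)) * ∫⁻ z in T, G z ≤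
      ENNReal.ofReal a * (volume (closedBall (0 : EuclideanSpace ℝ (Fin d)) r) *
        μ (closedBall 0 r))) :
    c₀ - a ≤ ∫ y, F y ∂(avg μ r) := by
  have : ProperSpace W := FiniteDimensional.proper_real W
  have hWsc : SecondCountableTopology W := inferInstance
  have hprob := avg_prob μ hr
  obtain ⟨g0, hg0, hGg0⟩ := hG
  have hnull : volume.restrict T {z | ¬ (good z ∧ G z = g0 z)} = 0 := by
    have : ∀ᵐ z ∂(volume.restrict T), good z ∧ G z = g0 z := by
      filter_upwards [hgood, hGg0] with z h1 h2 using ⟨h1, h2⟩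
    exact this
  obtain ⟨Z, hZsub, hZm, hZ0⟩ := exists_measurable_superset_of_null hnull
  set g : EuclideanSpace ℝ (Fin d) → ℝ≥0∞ := fun z => g0 z + Z.indicator (fun _ => ⊤) z with hg
  have hgm : Measurable g := hg0.add (measurable_const.indicator hZm)
  have hgint : ∫⁻ z in T, g z = ∫⁻ z in T, G z := by
    refine lintegral_congr_ae ?_
    have h1 : ∀ᵐ z ∂(volume.restrict T), z ∉ Z := by
      rw [ae_iff]
      simpa using hZ0
    filter_upwards [h1, hGg0] with z h2 h3
    rw [hg]
    simp only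
    rw [indicator_of_notMem h2, add_zero, h3]
  have hψc : ContinuousOn ψ (closedBall 0 r) := fun y hy =>
    (hd y (by simpa using hy)).1.continuousAt.continuousWithinAt
  have hav := average_le μ ι hr hι hT hψc hψT
    (fun y _ u v _ _ h1 h2 => expanding hd y u v (by simpa using h1) (by simpa using h2)) hgm
  rw [hgint] at hav
  have hV0 : volume (closedBall (0 : EuclideanSpace ℝ (Fin d)) r) ≠ 0 :=
    (measure_closedBall_pos volume 0 hr).ne'
  have hVt : volume (closedBall (0 : EuclideanSpace ℝ (Fin d)) r) ≠ ⊤ :=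
    (isCompact_closedBall 0 r).measure_lt_top.ne
  have hμ0 : μ (closedBall 0 r) ≠ 0 := (measure_closedBall_pos μ 0 hr).ne'
  have hμt : μ (closedBall 0 r) ≠ ⊤ := (isCompact_closedBall 0 r).measure_lt_top.ne
  have h1 : ∫⁻ y in closedBall 0 r, g (ψ y) ∂μ ≤ ENNReal.ofReal a * μ (closedBall 0 r) := by
    have h2 := hav.trans hsm
    have h3 : volume (closedBall (0 : EuclideanSpace ℝ (Fin d)) r) *
        ∫⁻ y in closedBall 0 r, g (ψ y) ∂μ ≤
        volume (closedBall (0 : EuclideanSpace ℝ (Fin d)) r) *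
          (ENNReal.ofReal a * μ (closedBall 0 r)) := by
      refine h2.trans (le_of_eq ?_)
      ring
    exact (ENNReal.mul_le_mul_iff_right hV0 hVt).1 h3
  have h4 : ∫⁻ y, ENNReal.ofReal (c₀ - F y) ∂(avg μ r) ≤ ENNReal.ofReal a := by
    rw [avg, lintegral_smul_measure, smul_eq_mul]
    have h5 : ∫⁻ y in closedBall 0 r, ENNReal.ofReal (c₀ - F y) ∂μ ≤
        ∫⁻ y in closedBall 0 r, g (ψ y) ∂μ := by
      refine setLIntegral_mono' measurableSet_closedBall fun y hy => ?_
      by_cases hz : ψ y ∈ Z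
      · rw [hg]
        simp only
        rw [indicator_of_mem hz]
        simp
      · have h6 : good (ψ y) ∧ G (ψ y) = g0 (ψ y) := by
          by_contra h7
          exact hz (hZsub h7)
        rw [hg]
        simp only
        rw [indicator_of_notMem hz, add_zero, ← h6.2]
        exact hFG y hy h6.1
    calc (μ (closedBall 0 r))⁻¹ * ∫⁻ y in closedBall 0 r, ENNReal.ofReal (c₀ - F y) ∂μ
        ≤ (μ (closedBall 0 r))⁻¹ * (ENNReal.ofReal a * μ (closedBall 0 r)) := by
          gcongr
          exact h5.trans h1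
      _ = ENNReal.ofReal a * ((μ (closedBall 0 r))⁻¹ * μ (closedBall 0 r)) := by ring
      _ = ENNReal.ofReal a := by rw [ENNReal.inv_mul_cancel hμ0 hμt, mul_one]
  have hFi : Integrable F (avg μ r) := by
    have h7 : IntegrableOn F (closedBall 0 r) μ :=
      hF.integrableOn_compact (isCompact_closedBall 0 r)
    exact Integrable.smul_measure h7 (ENNReal.inv_ne_top.2 hμ0)
  have h8 : Integrable (fun y => c₀ - F y) (avg μ r) := (integrable_const c₀).sub hFi
  have h9 := integral_le_of_lintegral h8 ha h4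
  rw [integral_sub (integrable_const c₀) hFi] at h9
  simp only [integral_const, probReal_univ, one_smul] at h9
  linarith

end Pool.Agent.H819.LG
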