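import Mathlib
import Pool.Agent.H819.LG.Loc

/-!
# Averages in convex sets of continuous functions
-/

set_option autoImplicit false

open Set Filter Topology MeasureTheory Metric
open scoped ENNReal NNReal

noncomputable section

namespace Pool.Agent.H819.LG

theorem avg_convex {W S : Type} [NormedAddCommGroup W] [NormedSpace ℝ W] [FiniteDimensional ℝ W]
    [MeasurableSpace W] [BorelSpace W] (μ : Measure W) [μ.IsAddHaarMeasure] [TopologicalSpace S]
    [CompactSpace S] {r : ℝ} (hr : 0 < r) {F : W × S → ℝ}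
    (hF : ContinuousOn F (closedBall 0 r ×ˢ univ)) {𝒜 : Set C(S, ℝ)} (h𝒜 : Convex ℝ 𝒜)
    (hmem : ∀ y ∈ closedBall (0 : W) r, ∃ g ∈ 𝒜, ∀ s, g s = F (y, s)) {a : ℝ} (ha : 0 < a)
    (hlow : ∀ s, a ≤ ∫ y, F (y, s) ∂(avg μ r)) : ∃ g ∈ 𝒜, ∀ s, 0 < g s := by
  classical
  have : ProperSpace W := FiniteDimensional.proper_real W
  have hprob := avg_prob μ hr
  obtain ⟨H, hH⟩ : ∃ H : C(closedBall (0 : W) r, C(S, ℝ)), ∀ y s, H y s = F (y.1, s) := by
    have hc : Continuous (fun q : closedBall (0 : W) r × S => F (q.1.1, q.2)) := by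
      have h2 : Continuous (fun q : closedBall (0 : W) r × S => ((q.1.1, q.2) : W × S)) := by
        fun_prop
      exact hF.comp_continuous h2 fun q => ⟨q.1.2, mem_univ _⟩
    exact ⟨(⟨_, hc⟩ : C(closedBall (0 : W) r × S, ℝ)).curry, fun y s => rfl⟩
  set f : W → C(S, ℝ) := fun y => if h : y ∈ closedBall (0 : W) r then H ⟨y, h⟩ else 0 with hf
  have hfb : ∀ (y : W) (h : y ∈ closedBall (0 : W) r), f y = H ⟨y, h⟩ := fun y h => dif_pos h
  have hfc : ContinuousOn f (closedBall 0 r) := by
    rw [continuousOn_iff_continuous_domRestrict]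
    have : (closedBall (0 : W) r).domRestrict f = H := by
      funext y
      exact hfb y.1 y.2
    rw [this]
    exact H.continuous
  have hae : ∀ᵐ y ∂(avg μ r), y ∈ closedBall (0 : W) r := by
    rw [avg]
    refine Measure.ae_smul_measure ?_ _
    exact ae_restrict_mem measurableSet_closedBall
  have hfi : Integrable f (avg μ r) := by
    obtain ⟨C, hC⟩ := (isCompact_closedBall (0 : W) r).exists_bound_of_continuousOn hfc
    have h7 : AEStronglyMeasurable f (μ.restrict (closedBall 0 r)) :=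
      hfc.aestronglyMeasurable_of_isCompact (isCompact_closedBall 0 r) measurableSet_closedBall
    have h8 : AEStronglyMeasurable f (avg μ r) := by
      rw [avg]
      exact h7.smul_measure _
    refine Integrable.of_bound h8 C ?_
    filter_upwards [hae] with y hy
    exact hC y hy
  have hmem2 : ∀ᵐ y ∂(avg μ r), f y ∈ closure 𝒜 := by
    filter_upwards [hae] with y hy
    refine subset_closure ?_
    obtain ⟨g, hg, hgs⟩ := hmem y hy
    have : f y = g := by
      ext s
      rw [hfb y hy, hH, hgs]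
    rw [this]
    exact hg
  have hint := h𝒜.closure.integral_mem isClosed_closure hmem2 hfi
  obtain ⟨g, hg, hgd⟩ := Metric.mem_closure_iff.1 hint (a / 2) (by positivity)
  refine ⟨g, hg, fun s => ?_⟩
  have h1 : (∫ y, f y ∂(avg μ r)) s = ∫ y, F (y, s) ∂(avg μ r) := by
    rw [ContinuousMap.integral_apply hfi]
    refine integral_congr_ae ?_
    filter_upwards [hae] with y hy
    rw [hfb y hy, hH]
  have h2 := (ContinuousMap.dist_apply_le_dist (f := ∫ y, f y ∂(avg μ r)) (g := g) s).trans_lt hgd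
  rw [h1, Real.dist_eq, abs_lt] at h2
  have h3 := hlow s
  linarith [h2.2]

theorem exists_pos_le {n : ℕ} (f : Fin n → ℝ) (hf : ∀ i, 0 < f i) :
    ∃ ε : ℝ, 0 < ε ∧ ∀ i, ε ≤ f i := by
  rcases isEmpty_or_nonempty (Fin n) with h | h
  · exact ⟨1, one_pos, fun i => (h.false i).elim⟩
  · obtain ⟨i, hi⟩ := Finite.exists_min f
    exact ⟨f i, hf i, hi⟩

end Pool.Agent.H819.LG
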