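import Mathlib
import Pool.Agent.H819.LG.Loc

/-!
# The local estimate, continued
-/

set_option autoImplicit false

open Set Filter Topology MeasureTheory Metric
open scoped Manifold ContDiff ENNReal NNReal

noncomputable section

namespace Pool.Agent.H819.LG

open Pool.Agent.Y501.SY

variable {d : ℕ} {X : Type} [TopologicalSpace X] [ChartedSpace (E d) X]

/-- The two-form `θ` (in a chart) is bounded below by `c₀` on the pairs `(u, A u)` and has
distortion at most `C`, at the point `z`. -/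
def GoodAt (θ : E d → (E d) [⋀^Fin 2]→L[ℝ] ℝ) (A : E d → (E d →L[ℝ] E d)) (C c₀ : ℝ) (z : E d) :
    Prop :=
  (∀ u : E d, c₀ * ‖u‖ ^ 2 ≤ θ z ![u, A z u]) ∧
  ∀ u w : E d, θ z ![u, w] ^ 2 ≤ C * θ z ![u, A z u] * θ z ![w, A z w]

/-- the mass of `θ` in the ball of radius `ρ`, weighted by `(ρ + |A - B|)²` -/
def mass (θ : E d → (E d) [⋀^Fin 2]→L[ℝ] ℝ) (A : E d → (E d →L[ℝ] E d)) (B : E d →L[ℝ] E d)
    (z : E d) (ρ : ℝ) : ℝ≥0∞ :=
  ∫⁻ z' in closedBall z ρ, ENNReal.ofReal ((ρ + ‖A z' - B‖) ^ 2) * ‖θ z'‖ₑ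

/-- the value of the averaged form -/
def val {n : ℕ} (c : Fin n → Cut d X) (x₀ : X) (t : E d → (E d) [⋀^Fin 2]→L[ℝ] ℝ)
    (A : E d → (E d →L[ℝ] E d)) (z u : E d) (y : Fin n → E d) : ℝ :=
  t (Psi c x₀ (y, z)) ![fderiv ℝ (fun z' => Psi c x₀ (y, z')) z u,
    fderiv ℝ (fun z' => Psi c x₀ (y, z')) z (A z u)]

theorem vol_ball (z : E d) {ρ : ℝ} (hρ : 0 ≤ ρ) :
    volume (closedBall z ρ) = ENNReal.ofReal (ρ ^ d) * volume (closedBall (0 : E d) 1) := by
  have h := Measure.addHaar_closedBall' (volume : Measure (E d)) z hρ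
  rw [finrank_euclideanSpace_fin] at h
  exact h

variable [IsManifold (𝓡 d) ∞ X]

theorem continuousOn_val [T2Space X] {n : ℕ} (c : Fin n → Cut d X) {R : ℝ}
    (hR : ∀ i, R ≤ (c i).R) (x₀ : X) {t : E d → (E d) [⋀^Fin 2]→L[ℝ] ℝ} {N : Set (E d)}
    (ht : ContinuousOn t N) {A : E d → (E d →L[ℝ] E d)} (hA : ContinuousOn A N)
    {B : Set ((Fin n → E d) × E d × E d)}
    (hB : ∀ q ∈ B, (q.1, q.2.1) ∈ PsiD c R x₀ ∧ Psi c x₀ (q.1, q.2.1) ∈ N ∧ q.2.1 ∈ N) :
    ContinuousOn (fun q : (Fin n → E d) × E d × E d => val c x₀ t A q.2.1 q.2.2 q.1) B := by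
  have h1 : ContinuousOn (fun q : (Fin n → E d) × E d × E d => Psi c x₀ (q.1, q.2.1)) B := by
    intro q hq
    have h2 : ContinuousAt (Psi c x₀) (q.1, q.2.1) := (contDiffAt_Psi c hR _ (hB q hq).1).continuousAt
    have h3 : ContinuousAt (fun q : (Fin n → E d) × E d × E d => (q.1, q.2.1)) q := by fun_prop
    exact (ContinuousAt.comp (f := fun q : (Fin n → E d) × E d × E d => (q.1, q.2.1))
      (g := Psi c x₀) h2 h3).continuousWithinAt
  have h4 : ContinuousOn (fun q : (Fin n → E d) × E d × E d =>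
      fderiv ℝ (fun z' => Psi c x₀ (q.1, z')) q.2.1) B := by
    have h5 : ∀ q ∈ B, fderiv ℝ (fun z' => Psi c x₀ (q.1, z')) q.2.1 =
        (fderiv ℝ (Psi c x₀) (q.1, q.2.1)).comp
          (ContinuousLinearMap.inr ℝ (Fin n → E d) (E d)) := fun q hq =>
      (slice2 ((contDiffAt_Psi c hR _ (hB q hq).1).differentiableAt (by simp))).fderiv
    refine ContinuousOn.congr ?_ h5
    intro q hq
    have h2 : ContinuousAt (fderiv ℝ (Psi c x₀)) (q.1, q.2.1) :=
      ((contDiffAt_Psi c hR _ (hB q hq).1).fderiv_right (m := 0) (by simp)).continuousAt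
    have h3 : ContinuousAt (fun q : (Fin n → E d) × E d × E d => (q.1, q.2.1)) q := by fun_prop
    have h6 := (ContinuousAt.comp (f := fun q : (Fin n → E d) × E d × E d => (q.1, q.2.1))
      (g := fderiv ℝ (Psi c x₀)) h2 h3)
    exact (h6.clm_comp continuousAt_const).continuousWithinAt
  have h7 : ContinuousOn (fun q : (Fin n → E d) × E d × E d => t (Psi c x₀ (q.1, q.2.1))) B :=
    ht.comp h1 fun q hq => (hB q hq).2.1
  have h8 : ContinuousOn (fun q : (Fin n → E d) × E d × E d => A q.2.1) B :=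
    hA.comp (by fun_prop) fun q hq => (hB q hq).2.2
  have h9 : ContinuousOn (fun q : (Fin n → E d) × E d × E d =>
      ((![fderiv ℝ (fun z' => Psi c x₀ (q.1, z')) q.2.1 q.2.2,
        fderiv ℝ (fun z' => Psi c x₀ (q.1, z')) q.2.1 (A q.2.1 q.2.2)] : Fin 2 → E d))) B := by
    rw [continuousOn_pi]
    intro i
    fin_cases i
    · exact h4.clm_apply (by fun_prop)
    · exact h4.clm_apply (h8.clm_apply (by fun_prop))
  have h10 : Continuous (fun p : ((E d) [⋀^Fin 2]→L[ℝ] ℝ) × (Fin 2 → E d) => p.1 p.2) := by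
    have h11 : Continuous (fun p : (ContinuousMultilinearMap ℝ (fun _ : Fin 2 => E d) ℝ) ×
        (Fin 2 → E d) => p.1 p.2) := ContinuousEval.continuous_eval
    have h12 : Continuous (fun f : (E d) [⋀^Fin 2]→L[ℝ] ℝ => f.toContinuousMultilinearMap) :=
      (ContinuousAlternatingMap.toContinuousMultilinearMapCLM ℝ :
        ((E d) [⋀^Fin 2]→L[ℝ] ℝ) →L[ℝ] _).continuous
    exact h11.comp (h12.prodMap continuous_id)
  exact h10.comp_continuousOn (h7.prodMk h9)


/-- **The local estimate.** -/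
theorem local_avg [T2Space X] {n : ℕ} (c : Fin n → Cut d X) {R : ℝ} (hR0 : 0 < R)
    (hR : ∀ i, R ≤ (c i).R) (i : Fin n) {K : Set (E d)} (hK : IsCompact K)
    (hKt : K ⊆ (c i).e.target) (hK1 : ∀ z ∈ K, (c i).χ z = 1) {N : Set (E d)} (hN : IsCompact N)
    {ρ₁ : ℝ} (hρ₁ : 0 < ρ₁) (hKN : ∀ z ∈ K, closedBall z ρ₁ ⊆ N)
    {C M : ℝ} (hC : 0 ≤ C) (hM1 : 1 ≤ M) :
    ∃ ε : ℝ, 0 < ε ∧ ∃ L : ℝ, 1 ≤ L ∧ ∃ r₀ : ℝ, 0 < r₀ ∧ r₀ < R ∧
      (∀ y : Fin n → E d, ‖y‖ ≤ r₀ → ∀ z ∈ K, (y, z) ∈ PsiD c R (c i).x₀ ∧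
        Psi c (c i).x₀ (y, z) ∈ N) ∧
      ∀ r : ℝ, 0 < r → r ≤ r₀ →
      ∀ A A' : E d → (E d →L[ℝ] E d), ContinuousOn A N → (∀ z ∈ N, ‖A z‖ ≤ M) →
      AEStronglyMeasurable A' (volume.restrict N) →
      ∀ θ : E d → (E d) [⋀^Fin 2]→L[ℝ] ℝ, AEStronglyMeasurable θ (volume.restrict N) →
      ∀ c₀ : ℝ, 0 < c₀ → (∀ᵐ z ∂(volume.restrict N), ‖A' z‖ ≤ M ∧ GoodAt θ A' C c₀ z) →
      (∀ z ∈ K, mass θ A' (A z) z (L * r) ≤ ENNReal.ofReal (ε * c₀ * (L * r) ^ d)) →
      ∃ δ : ℝ, 0 < δ ∧ ∀ t : E d → (E d) [⋀^Fin 2]→L[ℝ] ℝ, ContinuousOn t N →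
        ∫⁻ z in N, ‖t z - θ z‖ₑ ≤ ENNReal.ofReal δ → ∀ z ∈ K, ∀ u : E d, ‖u‖ = 1 →
        c₀ / 16 ≤ ∫ y, val c (c i).x₀ t A z u y ∂(avg volume r) := by
  obtain ⟨r₁, hr₁, hr₁R, C₁, hC₁, hb⟩ := psi_bounds c hR0 hR i hK hKt hK1
  have hb1p : 0 < volume (closedBall (0 : E d) 1) := measure_closedBall_pos _ _ one_pos
  have hb1t : volume (closedBall (0 : E d) 1) ≠ ⊤ := (isCompact_closedBall _ _).measure_lt_top.ne
  set v₁ : ℝ := (volume (closedBall (0 : E d) 1)).toReal with hv₁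
  have hv₁p : 0 < v₁ := ENNReal.toReal_pos hb1p.ne' hb1t
  have hv₁e : volume (closedBall (0 : E d) 1) = ENNReal.ofReal v₁ :=
    (ENNReal.ofReal_toReal hb1t).symm
  -- constants
  set m : ℕ := Module.finrank ℝ (Fin n → E d) with hm
  set C₃ : ℝ := C / 2 * M * (2 * M * C₁ + 1) ^ 2 with hC₃
  have hC₃0 : 0 ≤ C₃ := by positivity
  set D : ℝ := 2 ^ d * 2 ^ m / v₁ with hD
  have hDp : 0 < D := by positivity
  refine ⟨1 / (32 * (D * (C₃ + 1) * C₁ ^ d)), by positivity, C₁, hC₁,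
    min r₁ (min (ρ₁ / C₁) (1 / (2 * C₁))), by positivity, (min_le_left _ _).trans_lt hr₁R, ?_⟩
  have hC₁p : 0 < C₁ := by linarith
  have hstep : ∀ y : Fin n → E d, ‖y‖ ≤ min r₁ (min (ρ₁ / C₁) (1 / (2 * C₁))) → ∀ z ∈ K,
      (y, z) ∈ PsiD c R (c i).x₀ ∧ Psi c (c i).x₀ (y, z) ∈ closedBall z (C₁ * ‖y‖) ∧
      C₁ * ‖y‖ ≤ ρ₁ ∧ C₁ * ‖y‖ ≤ 1 / 2 ∧
      ‖fderiv ℝ (fun z' => Psi c (c i).x₀ (y, z')) z - ContinuousLinearMap.id ℝ (E d)‖ ≤
        C₁ * ‖y‖ ∧
      ‖(fderiv ℝ (fun y' => Psi c (c i).x₀ (y', z)) y).comp (inc i) -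
        ContinuousLinearMap.id ℝ (E d)‖ ≤ C₁ * ‖y‖ := by
    intro y hy z hz
    obtain ⟨h1, h2, h3, h4⟩ := hb y (hy.trans (min_le_left _ _)) z hz
    have h5 : ‖y‖ ≤ ρ₁ / C₁ := hy.trans ((min_le_right _ _).trans (min_le_left _ _))
    have h6 : ‖y‖ ≤ 1 / (2 * C₁) := hy.trans ((min_le_right _ _).trans (min_le_right _ _))
    refine ⟨h1, ?_, ?_, ?_, h3, h4⟩
    · rw [mem_closedBall, dist_eq_norm]; exact h2
    · rw [le_div_iff₀ hC₁p] at h5; linarith
    · rw [le_div_iff₀ (by positivity)] at h6; linarith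
  refine ⟨fun y hy z hz => ?_, ?_⟩
  · obtain ⟨h1, h2, h3, -⟩ := hstep y hy z hz
    exact ⟨h1, hKN z hz (closedBall_subset_closedBall h3 h2)⟩
  intro r hr hrr A A' hA hM hA' θ hθ c₀ hc₀ hgood hmass
  have hrd : 0 < r ^ d := by positivity
  refine ⟨c₀ * r ^ d / (32 * (D * (4 * M))), by positivity, ?_⟩
  intro t ht htθ z hz u hu
  have hball : closedBall z (C₁ * r) ⊆ N := by
    refine (closedBall_subset_closedBall ?_).trans (hKN z hz)
    have h1 : r ≤ ρ₁ / C₁ := hrr.trans ((min_le_right _ _).trans (min_le_left _ _))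
    rw [le_div_iff₀ hC₁p] at h1
    linarith
  have hzN : z ∈ N := hball (mem_closedBall_self (by positivity))
  have hNm : MeasurableSet N := hN.measurableSet
  set T : Set (E d) := closedBall z (C₁ * r) with hT
  have hTm : MeasurableSet T := measurableSet_closedBall
  -- the majorant
  set G : E d → ℝ≥0∞ := fun z' => ENNReal.ofReal C₃ *
    (ENNReal.ofReal ((C₁ * r + ‖A' z' - A z‖) ^ 2) * ‖θ z'‖ₑ) +
    ENNReal.ofReal (4 * M) * ‖t z' - θ z'‖ₑ with hG
  have hθT : AEStronglyMeasurable θ (volume.restrict T) :=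
    hθ.mono_measure (Measure.restrict_mono hball le_rfl)
  have htT : AEStronglyMeasurable t (volume.restrict T) :=
    (ht.mono hball).aestronglyMeasurable hTm
  have hA'T : AEStronglyMeasurable A' (volume.restrict T) :=
    hA'.mono_measure (Measure.restrict_mono hball le_rfl)
  have hAT : AEMeasurable (fun z' => (C₁ * r + ‖A' z' - A z‖) ^ 2) (volume.restrict T) :=
    (((hA'T.sub aestronglyMeasurable_const).norm.aemeasurable).const_add _).pow_const 2
  have hm1 : AEMeasurable (fun z' => ENNReal.ofReal ((C₁ * r + ‖A' z' - A z‖) ^ 2) * ‖θ z'‖ₑ)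
      (volume.restrict T) :=
    hAT.ennreal_ofReal.mul hθT.enorm
  have hm2 : AEMeasurable (fun z' => ‖t z' - θ z'‖ₑ) (volume.restrict T) :=
    (htT.sub hθT).enorm
  have hGm : AEMeasurable G (volume.restrict T) :=
    (hm1.const_mul _).add (hm2.const_mul _)
  have hGint : ∫⁻ z' in T, G z' ≤ ENNReal.ofReal (c₀ / 16 * r ^ d / D) := by
    rw [hG, lintegral_add_left' (hm1.const_mul _), lintegral_const_mul'' _ hm1,
      lintegral_const_mul'' _ hm2]
    have h1 : ENNReal.ofReal C₃ * ∫⁻ z' in T, ENNReal.ofReal ((C₁ * r + ‖A' z' - A z‖) ^ 2) * ‖θ z'‖ₑ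
        ≤ ENNReal.ofReal (c₀ / 32 * r ^ d / D) := by
      calc _ ≤ ENNReal.ofReal C₃ * ENNReal.ofReal (1 / (32 * (D * (C₃ + 1) * C₁ ^ d)) * c₀ *
            (C₁ * r) ^ d) := by gcongr; exact hmass z hz
        _ = ENNReal.ofReal (C₃ * (1 / (32 * (D * (C₃ + 1) * C₁ ^ d)) * c₀ *
            (C₁ * r) ^ d)) := (ENNReal.ofReal_mul hC₃0).symm
        _ ≤ _ := by
          refine ENNReal.ofReal_le_ofReal ?_
          have h2 : C₃ * (1 / (32 * (D * (C₃ + 1) * C₁ ^ d)) * c₀ * (C₁ * r) ^ d) =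
              C₃ / (C₃ + 1) * (c₀ / 32 * r ^ d / D) := by
            rw [mul_pow]
            field_simp
          rw [h2]
          have h3 : C₃ / (C₃ + 1) ≤ 1 := by
            rw [div_le_one (by positivity)]; linarith
          have h4 : 0 ≤ c₀ / 32 * r ^ d / D := by positivity
          nlinarith
    have h5 : ENNReal.ofReal (4 * M) * ∫⁻ z' in T, ‖t z' - θ z'‖ₑ ≤
        ENNReal.ofReal (c₀ / 32 * r ^ d / D) := by
      calc _ ≤ ENNReal.ofReal (4 * M) * ENNReal.ofReal (c₀ * r ^ d / (32 * (D * (4 * M)))) := by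
            gcongr
            exact (lintegral_mono_set hball).trans htθ
        _ = ENNReal.ofReal (4 * M * (c₀ * r ^ d / (32 * (D * (4 * M))))) :=
            (ENNReal.ofReal_mul (by positivity)).symm
        _ ≤ _ := by
          refine ENNReal.ofReal_le_ofReal (le_of_eq ?_)
          field_simp
    refine (add_le_add h1 h5).trans (le_of_eq ?_)
    rw [← ENNReal.ofReal_add (by positivity) (by positivity)]
    congr 1
    ring
  have hμr : (volume (closedBall (0 : Fin n → E d) (2 * r))) =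
      ENNReal.ofReal (2 ^ m) * volume (closedBall (0 : Fin n → E d) r) := by
    have h := Measure.addHaar_closedBall_mul (volume : Measure (Fin n → E d)) (0 : Fin n → E d)
      (r := 2) (by norm_num) (s := r) hr.le
    exact h
  have hmain := avg_lower (μ := (volume : Measure (Fin n → E d))) (inc i) hr
    (fun u hu => by
      show ‖(Pi.single i u : Fin n → E d)‖ ≤ r
      rwa [Pi.norm_single])
    (ψ := fun y => Psi c (c i).x₀ (y, z)) (T := T) ?_ ?_ hGm hTm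
    (good := fun z' => ‖A' z'‖ ≤ M ∧ GoodAt θ A' C c₀ z')
    (ae_mono (Measure.restrict_mono hball le_rfl) hgood)
    (F := fun y => val c (c i).x₀ t A z u y) ?_ (c₀ := c₀ / 8) ?_ (a := c₀ / 16) (by positivity) ?_
  · refine le_trans (le_of_eq ?_) hmain
    ring
  · -- `ψ` maps the ball to `T`
    intro y hy
    rw [mem_closedBall_zero_iff] at hy
    obtain ⟨-, h2, -⟩ := hstep y (hy.trans hrr) z hz
    exact closedBall_subset_closedBall (by gcongr) h2
  · intro y hy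
    obtain ⟨h1, -, -, h4, -, h6⟩ := hstep y (hy.trans hrr) z hz
    exact ⟨(slice1 ((contDiffAt_Psi c hR _ h1).differentiableAt (by simp))).differentiableAt,
      h6.trans h4⟩
  · -- continuity
    have h := continuousOn_val c hR (c i).x₀ ht hA (B := (fun y => (y, z, u)) ''
      closedBall (0 : Fin n → E d) r) (by
        rintro _ ⟨y, hy, rfl⟩
        rw [mem_closedBall_zero_iff] at hy
        obtain ⟨h1, h2, h3, -⟩ := hstep y (hy.trans hrr) z hz
        exact ⟨h1, hKN z hz (closedBall_subset_closedBall h3 h2), hzN⟩)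
    exact h.comp (f := fun y : Fin n → E d => (y, z, u)) (by fun_prop) (mapsTo_image _ _)
  · -- the pointwise inequality
    intro y hy hg
    rw [mem_closedBall_zero_iff] at hy
    obtain ⟨h1, h2, h3, h4, h5, h6⟩ := hstep y (hy.trans hrr) z hz
    set P := Psi c (c i).x₀ (y, z) with hP
    set Dz := fderiv ℝ (fun z' => Psi c (c i).x₀ (y, z')) z with hDz
    have hPN : P ∈ N := hKN z hz (closedBall_subset_closedBall h3 h2)
    have hbas := basic (θ P) (t P) (A z) (A' P) Dz hC hc₀.le hg.2.2 hg.2.1 (h5.trans h4) u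
    rw [hu, one_pow, mul_one] at hbas
    have hAz := hM z hzN
    have hAP := hg.1
    have h7 : ‖Dz.comp (A z) - (A' P).comp Dz‖ ≤
        (2 * M * C₁ + 1) * (C₁ * r + ‖A' P - A z‖) := by
      have h8 : Dz.comp (A z) - (A' P).comp Dz = (Dz - ContinuousLinearMap.id ℝ (E d)).comp (A z) -
          (A' P - A z) - (A' P).comp (Dz - ContinuousLinearMap.id ℝ (E d)) := by
        ext w
        simp
        try ring
      have h9 := ContinuousLinearMap.opNorm_comp_le (Dz - ContinuousLinearMap.id ℝ (E d)) (A z)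
      have h10 := ContinuousLinearMap.opNorm_comp_le (A' P) (Dz - ContinuousLinearMap.id ℝ (E d))
      have h11 : ‖Dz - ContinuousLinearMap.id ℝ (E d)‖ ≤ C₁ * r :=
        h5.trans (by gcongr)
      have h12 : ‖Dz.comp (A z) - (A' P).comp Dz‖ ≤ C₁ * r * M + ‖A' P - A z‖ + M * (C₁ * r) := by
        rw [h8]
        refine (norm_sub_le _ _).trans ?_
        refine add_le_add ((norm_sub_le _ _).trans (add_le_add ?_ le_rfl)) ?_
        · exact h9.trans (mul_le_mul h11 hAz (norm_nonneg _) (by positivity))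
        · exact h10.trans (mul_le_mul hAP h11 (norm_nonneg _) (by linarith))
      refine h12.trans ?_
      have h13 : 0 ≤ ‖A' P - A z‖ := norm_nonneg _
      have h14 : 0 < C₁ * r := by positivity
      have h15 : 0 ≤ M * C₁ := by positivity
      have h16 : M * (C₁ * r) ≤ M * C₁ * (C₁ * r) := by
        have : M * 1 * (C₁ * r) ≤ M * C₁ * (C₁ * r) := by gcongr
        linarith
      nlinarith [mul_nonneg h15 h13]
    have h17 : ‖Dz.comp (A z) - (A' P).comp Dz‖ ^ 2 ≤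
        (2 * M * C₁ + 1) ^ 2 * (C₁ * r + ‖A' P - A z‖) ^ 2 := by
      rw [← mul_pow]
      exact pow_le_pow_left₀ (norm_nonneg _) h7 2
    have h18 : c₀ / 8 - val c (c i).x₀ t A z u y ≤ C₃ * ((C₁ * r + ‖A' P - A z‖) ^ 2 * ‖θ P‖) +
        4 * M * ‖t P - θ P‖ := by
      have h19 : c₀ / 8 - C / 2 * ‖A' P‖ * (‖θ P‖ * ‖Dz.comp (A z) - (A' P).comp Dz‖ ^ 2) -
          4 * ‖A z‖ * ‖t P - θ P‖ ≤ val c (c i).x₀ t A z u y := hbas
      have h20 : C / 2 * ‖A' P‖ * (‖θ P‖ * ‖Dz.comp (A z) - (A' P).comp Dz‖ ^ 2) ≤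
          C₃ * ((C₁ * r + ‖A' P - A z‖) ^ 2 * ‖θ P‖) := by
        calc C / 2 * ‖A' P‖ * (‖θ P‖ * ‖Dz.comp (A z) - (A' P).comp Dz‖ ^ 2)
            ≤ C / 2 * M * (‖θ P‖ * ((2 * M * C₁ + 1) ^ 2 * (C₁ * r + ‖A' P - A z‖) ^ 2)) := by
              gcongr
          _ = _ := by rw [hC₃]; ring
      have h21 : 4 * ‖A z‖ * ‖t P - θ P‖ ≤ 4 * M * ‖t P - θ P‖ := by gcongr
      linarith
    refine (ENNReal.ofReal_le_ofReal h18).trans (le_of_eq ?_)
    have e1 : ENNReal.ofReal (C₃ * ((C₁ * r + ‖A' P - A z‖) ^ 2 * ‖θ P‖)) = ENNReal.ofReal C₃ *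
        (ENNReal.ofReal ((C₁ * r + ‖A' P - A z‖) ^ 2) * ‖θ P‖ₑ) := by
      rw [ENNReal.ofReal_mul hC₃0, ENNReal.ofReal_mul (sq_nonneg _), ofReal_norm]
    have e2 : ENNReal.ofReal (4 * M * ‖t P - θ P‖) = ENNReal.ofReal (4 * M) * ‖t P - θ P‖ₑ := by
      rw [ENNReal.ofReal_mul (by positivity), ofReal_norm]
    rw [ENNReal.ofReal_add (by positivity) (by positivity), e1, e2]
  · -- smallness
    rw [hμr, vol_ball 0 hr.le, hv₁e]
    calc 2 ^ d * (ENNReal.ofReal (2 ^ m) * volume (closedBall (0 : Fin n → E d) r)) *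
          ∫⁻ z' in T, G z'
        ≤ 2 ^ d * (ENNReal.ofReal (2 ^ m) * volume (closedBall (0 : Fin n → E d) r)) *
          ENNReal.ofReal (c₀ / 16 * r ^ d / D) := by gcongr
      _ = (ENNReal.ofReal (2 ^ d) * ENNReal.ofReal (2 ^ m) *
          ENNReal.ofReal (c₀ / 16 * r ^ d / D)) * volume (closedBall (0 : Fin n → E d) r) := by
          have : (2 : ℝ≥0∞) ^ d = ENNReal.ofReal (2 ^ d) := by
            rw [ENNReal.ofReal_pow (by norm_num)]
            norm_num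
          rw [this]
          ring
      _ = ENNReal.ofReal (c₀ / 16 * (r ^ d * v₁)) * volume (closedBall (0 : Fin n → E d) r) := by
          rw [← ENNReal.ofReal_mul (by positivity), ← ENNReal.ofReal_mul (by positivity)]
          congr 2
          rw [hD]
          field_simp
      _ ≤ _ := by
          rw [ENNReal.ofReal_mul (by positivity), ENNReal.ofReal_mul (by positivity)]
          refine le_of_eq ?_
          ring

end Pool.Agent.H819.LG
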