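import Mathlib
import Pool.Agent.H819.LG.Loc2
import Pool.Agent.H819.LG.AvgConv
import Pool.Graph.R_seed8.Y455.SY.Pert

/-!
# The global estimate
-/

set_option autoImplicit false

open Set Filter Topology MeasureTheory Metric
open scoped Manifold ContDiff ENNReal NNReal

noncomputable section

namespace Pool.Agent.H819.LG

open Pool.Agent.Y501.SY

variable {d : ℕ} {X : Type} [TopologicalSpace X] [ChartedSpace (E d) X]

/-- closed forms in the class of `w` -/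
def InClass (w σ : Form d X 2) : Prop :=
  IsSmooth σ ∧ IsClosedForm σ ∧ ∃ β : Form d X 1, IsSmooth β ∧ IsD β (σ - w)

theorem InClass.comb {w σ₁ σ₂ : Form d X 2} (h₁ : InClass w σ₁) (h₂ : InClass w σ₂) {a b : ℝ}
    (hab : a + b = 1) : InClass w (a • σ₁ + b • σ₂) := by
  obtain ⟨s₁, c₁, β₁, b₁, e₁⟩ := h₁
  obtain ⟨s₂, c₂, β₂, b₂, e₂⟩ := h₂
  refine ⟨(s₁.smul a).add (s₂.smul b), ?_, a • β₁ + b • β₂, (b₁.smul a).add (b₂.smul b), ?_⟩
  · have c₁' := IsD.smul c₁ a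
    have c₂' := IsD.smul c₂ b
    have h3 := c₁'.add c₂' (s₁.smul a) (s₂.smul b)
    rw [smul_zero, smul_zero, add_zero] at h3
    exact h3
  · have h := (e₁.smul a).add (e₂.smul b) (b₁.smul a) (b₂.smul b)
    have e : a • (σ₁ - w) + b • (σ₂ - w) = a • σ₁ + b • σ₂ - w := by
      have h1 : w = a • w + b • w := by rw [← add_smul, hab, one_smul]
      conv_rhs => rw [h1]
      rw [smul_sub, smul_sub]
      abel
    rwa [e] at h

theorem InClass.trans {w σ τ : Form d X 2} (h₁ : InClass w σ) (h₂ : InClass σ τ) :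
    InClass w τ := by
  obtain ⟨s₁, c₁, β₁, b₁, e₁⟩ := h₁
  obtain ⟨s₂, c₂, β₂, b₂, e₂⟩ := h₂
  refine ⟨s₂, c₂, β₂ + β₁, b₂.add b₁, ?_⟩
  have h := e₂.add e₁ b₂ b₁
  rwa [sub_add_sub_cancel] at h

variable [IsManifold (𝓡 d) ∞ X]

/-- the value of the pull-back -/
theorem val_eq [T2Space X] {n : ℕ} (c : Fin n → Cut d X) {R : ℝ} (hR : ∀ i, R ≤ (c i).R) (x₀ : X)
    (J : End d X) (w : Form d X 2) {y : Fin n → E d} {z : E d} (hq : (y, z) ∈ PsiD c R x₀)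
    (u : E d) :
    pb (chartAt (E d) x₀).symm (pull (d := d) (Fam c y) w) z ![u, inChart J x₀ z u] =
      val c x₀ (pb (chartAt (E d) x₀).symm w) (inChart J x₀) z u y := by
  have hf : MDifferentiableAt (𝓡 d) (𝓡 d) (Fam c y) ((chartAt (E d) x₀).symm z) :=
    (contMDiff_fam c hR (List.finRange n) hq.1 _).mdifferentiableAt (by simp)
  rw [pb_pull w hf (mdiff_symm x₀ hq.2.1)]
  have h1 : Fam c y ∘ (chartAt (E d) x₀).symm =ᶠ[𝓝 z]
      (chartAt (E d) x₀).symm ∘ (fun z' => Psi c x₀ (y, z')) := by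
    have h2 : ∀ᶠ z' in 𝓝 z, (y, z') ∈ PsiD c R x₀ := by
      have h3 : ContinuousAt (fun z' : E d => (y, z')) z := by fun_prop
      exact h3.eventually ((isOpen_PsiD c hR x₀).mem_nhds hq)
    filter_upwards [h2] with z' hz'
    exact ((chartAt (E d) x₀).left_inv hz'.2.2).symm
  have h4 : DifferentiableAt ℝ (fun z' => Psi c x₀ (y, z')) z :=
    (slice2 ((contDiffAt_Psi c hR _ hq).differentiableAt (by simp))).differentiableAt
  rw [pb_congr w h1, pb_comp w (mdiff_symm x₀ ((chartAt (E d) x₀).map_source hq.2.2)) h4]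
  unfold val
  rw [ContinuousAlternatingMap.compContinuousLinearMap_apply]
  congr 1
  funext i
  fin_cases i <;> rfl

omit [IsManifold (𝓡 d) ∞ X] [ChartedSpace (E d) X] [TopologicalSpace X] in
theorem mass_mono {θ : E d → (E d) [⋀^Fin 2]→L[ℝ] ℝ} {A : E d → (E d →L[ℝ] E d)}
    {B : E d →L[ℝ] E d} {z : E d} {ρ' ρ : ℝ} (h0 : 0 ≤ ρ') (h : ρ' ≤ ρ) :
    mass θ A B z ρ' ≤ mass θ A B z ρ := by
  unfold mass
  calc ∫⁻ z' in closedBall z ρ', ENNReal.ofReal ((ρ' + ‖A z' - B‖) ^ 2) * ‖θ z'‖ₑ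
      ≤ ∫⁻ z' in closedBall z ρ', ENNReal.ofReal ((ρ + ‖A z' - B‖) ^ 2) * ‖θ z'‖ₑ := by
        refine lintegral_mono fun z' => ?_
        gcongr
    _ ≤ ∫⁻ z' in closedBall z ρ, ENNReal.ofReal ((ρ + ‖A z' - B‖) ^ 2) * ‖θ z'‖ₑ :=
        lintegral_mono_set (closedBall_subset_closedBall h)

theorem glob [T2Space X] {n : ℕ} (c : Fin n → Cut d X) {K N : Fin n → Set (E d)} {ρ₁ : ℝ}
    (hρ₁ : 0 < ρ₁) (hK : ∀ i, IsCompact (K i)) (hKt : ∀ i, K i ⊆ (c i).e.target)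
    (hK1 : ∀ i, ∀ z ∈ K i, (c i).χ z = 1) (hN : ∀ i, IsCompact (N i))
    (hNt : ∀ i, N i ⊆ (c i).e.target) (hKN : ∀ i, ∀ z ∈ K i, closedBall z ρ₁ ⊆ N i)
    (hcov : ∀ p : X, ∃ i, ∃ z ∈ K i, (c i).e.symm z = p) {C M : ℝ} (hC : 0 ≤ C) (hM1 : 1 ≤ M) :
    ∃ ε : ℝ, 0 < ε ∧ ∃ ρ₀ : ℝ, 0 < ρ₀ ∧ ∀ J J' : End d X,
      (∀ i, ContinuousOn (inChart J (c i).x₀) (N i)) →
      (∀ i, ∀ z ∈ N i, ‖inChart J (c i).x₀ z‖ ≤ M) →
      (∀ i, AEStronglyMeasurable (inChart J' (c i).x₀) (volume.restrict (N i))) →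
      ∀ θ : Form d X 2,
      (∀ i, AEStronglyMeasurable (pb (c i).e.symm θ) (volume.restrict (N i))) →
      ∀ c₀ : ℝ, 0 < c₀ → (∀ i, ∀ᵐ z ∂(volume.restrict (N i)), ‖inChart J' (c i).x₀ z‖ ≤ M ∧
        GoodAt (pb (c i).e.symm θ) (inChart J' (c i).x₀) C c₀ z) →
      ∀ ρ : ℝ, 0 < ρ → ρ ≤ ρ₀ → (∀ i, ∀ z ∈ K i,
        mass (pb (c i).e.symm θ) (inChart J' (c i).x₀) (inChart J (c i).x₀ z) z ρ ≤
          ENNReal.ofReal (ε * c₀ * ρ ^ d)) →
      ∃ δ : ℝ, 0 < δ ∧ ∀ w : Form d X 2, IsSmooth w → IsClosedForm w →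
        (∀ i, ∫⁻ z in N i, ‖pb (c i).e.symm w z - pb (c i).e.symm θ z‖ₑ ≤ ENNReal.ofReal δ) →
        ∃ σ : Form d X 2, InClass w σ ∧ ∀ x, TamesAt σ J x := by
  classical
  obtain ⟨R, hR0, hR⟩ := exists_pos_le (fun i => (c i).R) fun i => (c i).pos
  have hloc := fun i => local_avg c hR0 hR i (hK i) (hKt i) (hK1 i) (hN i) hρ₁ (hKN i) hC hM1
  choose ε hε L hL r₀ hr₀ hr₀R hdom hloc using hloc
  have hL0 : ∀ i, 0 < L i := fun i => by linarith [hL i]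
  obtain ⟨Lm, hLm, hLm'⟩ : ∃ Lm : ℝ, 0 < Lm ∧ ∀ i, L i ≤ Lm := by
    refine ⟨∑ i, L i + 1, ?_, fun i => ?_⟩
    · have : 0 ≤ ∑ i, L i := Finset.sum_nonneg fun i _ => (hL0 i).le
      linarith
    · have : L i ≤ ∑ i, L i := Finset.single_le_sum (fun j _ => (hL0 j).le) (Finset.mem_univ i)
      linarith
  obtain ⟨ε₀, hε₀, hε₀'⟩ := exists_pos_le (fun i => ε i * (L i / Lm) ^ d) fun i => by
    have := hε i
    have := hL0 i
    positivity
  obtain ⟨r₂, hr₂, hr₂'⟩ := exists_pos_le r₀ hr₀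
  refine ⟨ε₀, hε₀, Lm * r₂, by positivity, ?_⟩
  intro J J' hJ hJM hJ' θ hθ c₀ hc₀ hgood ρ hρ hρ' hmass
  set r₁ : ℝ := ρ / Lm with hr₁def
  have hr₁ : 0 < r₁ := by positivity
  have hρr : ρ = Lm * r₁ := by rw [hr₁def]; field_simp
  have hr₁₂ : r₁ ≤ r₂ := by
    rw [hρr] at hρ'
    exact le_of_mul_le_mul_left hρ' hLm
  have hrr : ∀ i, r₁ ≤ r₀ i := fun i => hr₁₂.trans (hr₂' i)
  have hδ := fun i => hloc i r₁ hr₁ (hrr i) (inChart J (c i).x₀) (inChart J' (c i).x₀) (hJ i)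
    (hJM i) (hJ' i) (pb (c i).e.symm θ) (hθ i) c₀ hc₀ (hgood i) (by
    intro z hz
    have h1 : L i * r₁ ≤ ρ := by
      rw [hρr]
      have := hLm' i
      gcongr
    refine ((mass_mono (by have := hL0 i; positivity) h1).trans (hmass i z hz)).trans ?_
    refine ENNReal.ofReal_le_ofReal ?_
    have h2 := hε₀' i
    have h3 := hL0 i
    calc ε₀ * c₀ * ρ ^ d ≤ ε i * (L i / Lm) ^ d * c₀ * ρ ^ d := by gcongr
      _ = ε i * c₀ * (L i * r₁) ^ d := by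
          rw [hρr, div_pow, mul_pow, mul_pow]
          field_simp)
  choose δ hδ hδ' using hδ
  obtain ⟨δ₀, hδ₀, hδ₀'⟩ := exists_pos_le δ hδ
  refine ⟨δ₀, hδ₀, ?_⟩
  intro w hw hwc hwθ
  -- the compact space
  have hScomp : ∀ i, CompactSpace (K i ×ˢ sphere (0 : E d) 1 : Set (E d × E d)) := fun i =>
    isCompact_iff_compactSpace.1 ((hK i).prod (isCompact_sphere 0 1))
  set S := Σ i : Fin n, (K i ×ˢ sphere (0 : E d) 1 : Set (E d × E d)) with hS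
  set 𝒜 : Set C(S, ℝ) := {g | ∃ σ : Form d X 2, InClass w σ ∧ ∀ (i : Fin n)
    (q : (K i ×ˢ sphere (0 : E d) 1 : Set (E d × E d))), g ⟨i, q⟩ =
      pb (c i).e.symm σ q.1.1 ![q.1.2, inChart J (c i).x₀ q.1.1 q.1.2]} with h𝒜
  have hconv : Convex ℝ 𝒜 := by
    rintro g₁ ⟨σ₁, h₁, e₁⟩ g₂ ⟨σ₂, h₂, e₂⟩ a b ha hb hab
    refine ⟨a • σ₁ + b • σ₂, h₁.comb h₂ hab, fun i q => ?_⟩
    show a • g₁ ⟨i, q⟩ + b • g₂ ⟨i, q⟩ = _
    rw [e₁, e₂]
    rfl
  set F : (Fin n → E d) × S → ℝ := fun q => val c (c q.2.1).x₀ (pb (c q.2.1).e.symm w)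
    (inChart J (c q.2.1).x₀) q.2.2.1.1 q.2.2.1.2 q.1 with hF
  have hFc : ContinuousOn F (closedBall 0 r₁ ×ˢ univ) := by
    have hpiece : ∀ i : Fin n, ContinuousOn
        (fun q : (Fin n → E d) × (K i ×ˢ sphere (0 : E d) 1 : Set (E d × E d)) =>
          F (q.1, ⟨i, q.2⟩)) (closedBall 0 r₁ ×ˢ univ) := by
      intro i
      have h := continuousOn_val c hR (c i).x₀ ((smooth_chart hw (c i).x₀).continuousOn.mono
        (hNt i)) (hJ i)
        (B := {q | ‖q.1‖ ≤ r₁ ∧ q.2.1 ∈ K i}) (by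
          rintro q ⟨hq1, hq2⟩
          have h1 := hdom i q.1 (hq1.trans (hrr i)) q.2.1 hq2
          exact ⟨h1.1, h1.2, hKN i _ hq2 (mem_closedBall_self hρ₁.le)⟩)
      refine h.comp (f := fun q : (Fin n → E d) × (K i ×ˢ sphere (0 : E d) 1 :
        Set (E d × E d)) => (q.1, q.2.1.1, q.2.1.2)) (by fun_prop) ?_
      rintro q ⟨hq, -⟩
      exact ⟨by simpa using hq, q.2.2.1⟩
    rintro ⟨y, ⟨i, s⟩⟩ ⟨hy, -⟩
    have h1 := (hpiece i) (y, s) ⟨hy, mem_univ _⟩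
    -- neighbourhoods in the sigma type
    have h2 : 𝓝[closedBall (0 : Fin n → E d) r₁ ×ˢ univ] ((y, ⟨i, s⟩) : (Fin n → E d) × S) =
        Filter.map (fun q : (Fin n → E d) × (K i ×ˢ sphere (0 : E d) 1 : Set (E d × E d)) =>
          ((q.1, ⟨i, q.2⟩) : (Fin n → E d) × S))
          (𝓝[closedBall (0 : Fin n → E d) r₁ ×ˢ univ] (y, s)) := by
      rw [nhdsWithin_prod_eq, nhdsWithin_prod_eq, nhdsWithin_univ, nhdsWithin_univ,
        Sigma.nhds_mk, Filter.prod_map_right]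
      rfl
    unfold ContinuousWithinAt
    rw [h2, Filter.tendsto_map'_iff]
    exact h1
  have hmem : ∀ y ∈ closedBall (0 : Fin n → E d) r₁, ∃ g ∈ 𝒜, ∀ s, g s = F (y, s) := by
    intro y hy
    have hy' : ‖y‖ ≤ r₁ := by simpa using hy
    have hgc : Continuous (fun s : S => F (y, s)) := by
      have h2 : Continuous (fun s : S => ((y, s) : (Fin n → E d) × S)) := by fun_prop
      exact hFc.comp_continuous h2 fun s => ⟨hy, mem_univ _⟩
    refine ⟨⟨_, hgc⟩, ⟨pull (d := d) (Fam c y) w, ?_, ?_⟩, fun s => rfl⟩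
    · rcases isEmpty_or_nonempty (Fin n) with he | he
      · have hX : IsEmpty X := ⟨fun p => (he.false (hcov p).choose)⟩
        have : pull (d := d) (Fam c y) w = w := by
          funext x
          exact (hX.false x).elim
        rw [this]
        refine ⟨hw, hwc, 0, IsSmooth.zero, ?_⟩
        rw [sub_self]
        exact IsD.zero
      · obtain ⟨i⟩ := he
        exact fam_class c hR (List.finRange n) ((hy'.trans (hrr i)).trans_lt (hr₀R i)) w hw hwc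
    · intro i q
      have h1 := hdom i y (hy'.trans (hrr i)) q.1.1 q.2.1
      exact (val_eq c hR (c i).x₀ J w h1.1 q.1.2).symm
  obtain ⟨g, ⟨σ, hσ, hg⟩, hpos⟩ := avg_convex (volume : Measure (Fin n → E d)) hr₁ hFc hconv hmem
    (a := c₀ / 16) (by positivity) (by
      rintro ⟨i, q⟩
      refine hδ' i (pb (c i).e.symm w) ((smooth_chart hw (c i).x₀).continuousOn.mono (hNt i))
        ((hwθ i).trans (ENNReal.ofReal_le_ofReal (hδ₀' i))) q.1.1 q.2.1 q.1.2 ?_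
      simpa using q.2.2)
  refine ⟨σ, hσ, fun x => ?_⟩
  obtain ⟨i, z, hz, rfl⟩ := hcov x
  rw [Pool.Agent.Y455.SY.tames_iff σ J (c i).x₀ (hKt i hz)]
  rw [Pool.Agent.Y455.SY.pos_iff _ fun s v => Pool.Agent.Y455.SY.Q_smul σ J (c i).x₀ z v s]
  intro v hv
  have h1 := hpos ⟨i, ⟨(z, v), ⟨hz, hv⟩⟩⟩
  rw [hg] at h1
  exact h1

end Pool.Agent.H819.LG
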