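import Mathlib
import Pool.Agent.H819.LG.Cov
import Pool.Agent.H819.LG.Glob

/-!
# Approximation in `L¹` by smooth closed forms in the class
-/

set_option autoImplicit false

open Set Filter Topology MeasureTheory Metric
open scoped Manifold ContDiff ENNReal NNReal Convolution

noncomputable section

namespace Pool.Agent.H819.LG

open Pool.Agent.Y501.SY
open Pool.Agent.Y891.SY (pb_sub)

variable {d : ℕ} {X : Type} [TopologicalSpace X] [ChartedSpace (E d) X] [IsManifold (𝓡 d) ∞ X]

omit [IsManifold (𝓡 d) ∞ X] in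
theorem IsD.sum' {k : ℕ} {ι : Type} (s : Finset ι) {α : ι → Form d X k}
    {η : ι → Form d X (k + 1)} (h : ∀ i ∈ s, IsD (α i) (η i)) (hs : ∀ i ∈ s, IsSmooth (α i)) :
    IsD (∑ i ∈ s, α i) (∑ i ∈ s, η i) := by
  classical
  induction s using Finset.induction_on with
  | empty => simpa using IsD.zero
  | insert a s ha ih =>
    rw [Finset.sum_insert ha, Finset.sum_insert ha]
    refine (h a (Finset.mem_insert_self a s)).add
      (ih (fun i hi => h i (Finset.mem_insert_of_mem hi))
        fun i hi => hs i (Finset.mem_insert_of_mem hi)) (hs a (Finset.mem_insert_self a s)) ?_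
    exact IsSmooth.sum s fun i hi => hs i (Finset.mem_insert_of_mem hi)

omit [IsManifold (𝓡 d) ∞ X] in
theorem pb_sum {k : ℕ} {ι : Type} (s : Finset ι) (φ : E d → X) (σ : ι → Form d X k) :
    pb φ (∑ i ∈ s, σ i) = ∑ i ∈ s, pb φ (σ i) := by
  classical
  induction s using Finset.induction_on with
  | empty => exact pb_zero φ
  | insert a s ha ih => rw [Finset.sum_insert ha, Finset.sum_insert ha, pb_add, ih]

theorem enorm_sum_le' {G ι : Type} [NormedAddCommGroup G] (s : Finset ι) (f : ι → G) :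
    ‖∑ i ∈ s, f i‖ₑ ≤ ∑ i ∈ s, ‖f i‖ₑ := enorm_sum_le s f

/-- one piece of the approximation -/
theorem approx_piece [T2Space X] [CompactSpace X] {α : Form d X 1} {η : Form d X 2}
    (h : WeakPrim α η) {x₁ : X} {f : X → ℝ} (hf : SmoothFun (d := d) f)
    (hs : tsupport f ⊆ (chartAt (E d) x₁).source) {n : ℕ} (x : Fin n → X) (N : Fin n → Set (E d))
    (hN : ∀ i, IsCompact (N i)) (hNt : ∀ i, N i ⊆ (chartAt (E d) (x i)).target) {δ : ℝ}
    (hδ : 0 < δ) : ∃ (β : Form d X 1) (τ : Form d X 2), IsSmooth β ∧ IsSmooth τ ∧ IsD β τ ∧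
      IsClosedForm τ ∧ ∀ i, ∫⁻ z in N i, ‖pb (chartAt (E d) (x i)).symm (τ - prodD f α η) z‖ₑ ≤
        ENNReal.ofReal δ := by
  obtain ⟨ia, ib, hab⟩ := bE_props hf hs h
  have hSc := isCompact_suppE (d := d) hs
  have hSt := suppE_subset (d := d) hs
  obtain ⟨r₀, hr₀, hthick⟩ := hSc.exists_cthickening_subset_open
    (chartAt (E d) x₁).open_target hSt
  set Q : Set (E d) := cthickening r₀ (suppE x₁ f) with hQ
  have hQc : IsCompact Q := hSc.cthickening
  have hSQ : suppE x₁ f ⊆ Q := self_subset_cthickening _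
  choose C hC0 hC using fun i => chart_compare (x i) x₁ (hN i) (hNt i) hQc hthick
  set Cs : ℝ := ∑ i, C i with hCs
  have hCs0 : 0 ≤ Cs := Finset.sum_nonneg fun i _ => hC0 i
  obtain ⟨r, hr, hmoll⟩ := moll_tendsto ib (δ := δ / (Cs + 1)) (by positivity)
  obtain ⟨ρ, hρ⟩ : ∃ ρ : ContDiffBump (0 : E d), ρ.rOut < r ∧ ρ.rOut < r₀ := by
    set s : ℝ := min r r₀ / 2 with hs'
    have hs0 : 0 < s := by positivity
    refine ⟨⟨s / 2, s, by positivity, by linarith⟩, ?_, ?_⟩
    · show s < r
      have := min_le_left r r₀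
      have : 0 < min r r₀ := by positivity
      linarith
    · show s < r₀
      have := min_le_right r r₀
      have : 0 < min r r₀ := by positivity
      linarith
  obtain ⟨hBs, hBd⟩ := moll_extDeriv ia.locallyIntegrable ib.locallyIntegrable hab ρ
  set B : E d → (E d) [⋀^Fin 1]→L[ℝ] ℝ :=
    (ρ.normed volume ⋆[ContinuousLinearMap.lsmul ℝ ℝ, volume] aE x₁ f α) with hB
  have hB0 : ∀ z, z ∉ Q → B z = 0 := by
    intro z hz
    have h1 : ∀ y ∈ ball z ρ.rOut, aE x₁ f α y = aE x₁ f α z := by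
      have h2 : ∀ y ∈ ball z r₀, aE x₁ f α y = 0 := by
        intro y hy
        refine aE_zero x₁ f α fun h3 => hz ?_
        refine mem_cthickening_of_dist_le z y r₀ _ h3 ?_
        rw [dist_comm]
        exact (mem_ball.1 hy).le
      intro y hy
      rw [h2 y (ball_subset_ball hρ.2.le hy), h2 z (mem_ball_self hr₀)]
    have h3 : aE x₁ f α z = 0 := aE_zero x₁ f α fun h4 => hz (hSQ h4)
    rw [hB, ρ.normed_convolution_eq_right h1, h3]
  obtain ⟨hd1, hd0⟩ := isD_extF (x₀ := x₁) hBs hQc hthick hB0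
  have hsm2 : ContDiff ℝ ∞ (extDeriv B) := by
    rw [contDiff_iff_contDiffAt]
    intro z
    exact Pool.Agent.Y891.SY.contDiffAt_extDeriv hBs.contDiffAt
  obtain ⟨hd2, -⟩ := isD_extF (x₀ := x₁) hsm2 hQc hthick hd0
  have hcl : IsClosedForm (extF x₁ (extDeriv B)) := by
    have h1 : extF x₁ (extDeriv (extDeriv B)) = (0 : Form d X 3) := by
      have h2 : extDeriv (extDeriv B) = 0 := by
        funext z
        exact extDeriv_extDeriv_apply (r := ∞) hBs.contDiffAt smooth2
      rw [h2]
      funext y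
      exact extF_zero x₁ (0 : E d → (E d) [⋀^Fin 3]→L[ℝ] ℝ) (Q := ∅) (fun _ _ => rfl) (by simp)
    rw [h1] at hd2
    exact hd2
  refine ⟨extF x₁ B, extF x₁ (extDeriv B), smooth_extF hBs hQc hthick hB0,
    smooth_extF hsm2 hQc hthick hd0, hd1, hcl, fun i => ?_⟩
  refine (hC i _ ?_).trans ?_
  · intro y hy
    have h1 : extF x₁ (extDeriv B) y = 0 := extF_zero x₁ _ hd0 hy
    have h2 : prodD f α η y = 0 := by
      refine prodD_zero α η fun h3 => hy ?_
      exact ⟨chartAt (E d) x₁ y, hSQ ⟨y, h3, rfl⟩, (chartAt (E d) x₁).left_inv (hs h3)⟩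
    show extF x₁ (extDeriv B) y - prodD f α η y = 0
    rw [h1, h2, sub_zero]
  · have h1 : ∫⁻ z in Q, ‖pb (chartAt (E d) x₁).symm (extF x₁ (extDeriv B) - prodD f α η) z‖ₑ ≤
        ENNReal.ofReal (δ / (Cs + 1)) := by
      refine le_trans ?_ (hmoll ρ hρ.1)
      refine le_trans (le_of_eq ?_) (setLIntegral_le_lintegral Q _)
      refine setLIntegral_congr_fun hQc.measurableSet fun z hz => ?_
      have h2 : pb (chartAt (E d) x₁).symm (extF x₁ (extDeriv B) - prodD f α η) z =
          pb (chartAt (E d) x₁).symm (extF x₁ (extDeriv B)) z -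
          pb (chartAt (E d) x₁).symm (prodD f α η) z := by rw [pb_sub]
      have h3 := extF_symm x₁ (extDeriv B) (hthick hz)
      have h4 := pb_prodD_eq hf α η (hthick hz)
      have h5 : pb (chartAt (E d) x₁).symm (extF x₁ (extDeriv B) - prodD f α η) z =
        (ρ.normed volume ⋆[ContinuousLinearMap.lsmul ℝ ℝ, volume] bE x₁ f α η) z -
          bE x₁ f α η z := by rw [h2, h3, h4, hBd z]
      exact congrArg (fun t => ‖t‖ₑ) h5
    calc ENNReal.ofReal (C i) * _ ≤ ENNReal.ofReal (C i) * ENNReal.ofReal (δ / (Cs + 1)) := by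
          gcongr
      _ = ENNReal.ofReal (C i * (δ / (Cs + 1))) := (ENNReal.ofReal_mul (hC0 i)).symm
      _ ≤ ENNReal.ofReal δ := by
          refine ENNReal.ofReal_le_ofReal ?_
          have h2 : C i ≤ Cs := Finset.single_le_sum (fun j _ => hC0 j) (Finset.mem_univ i)
          rw [mul_div_assoc', div_le_iff₀ (by positivity)]
          nlinarith

/-- **`L¹` approximation.**  A form `σ₀ + η`, with `η` the weak exterior derivative of a locally
integrable form, is the `L¹` limit of smooth closed forms in the class of `σ₀`. -/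
theorem approx [T2Space X] [CompactSpace X] {σ₀ : Form d X 2} (hσ : IsSmooth σ₀)
    (hcl : IsClosedForm σ₀) {α : Form d X 1} {η : Form d X 2} (h : WeakPrim α η) {n : ℕ}
    (x : Fin n → X) (N : Fin n → Set (E d)) (hN : ∀ i, IsCompact (N i))
    (hNt : ∀ i, N i ⊆ (chartAt (E d) (x i)).target) {δ : ℝ} (hδ : 0 < δ) :
    ∃ w : Form d X 2, InClass σ₀ w ∧ ∀ i, ∫⁻ z in N i, ‖pb (chartAt (E d) (x i)).symm w z -
      pb (chartAt (E d) (x i)).symm (σ₀ + η) z‖ₑ ≤ ENNReal.ofReal δ := by
  classical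
  -- a finite subcover by charts and a partition of unity
  obtain ⟨t, ht⟩ := isCompact_univ.elim_finite_subcover (fun y : X => (chartAt (E d) y).source)
    (fun y => (chartAt (E d) y).open_source)
    (fun y _ => mem_iUnion.2 ⟨y, mem_chart_source (E d) y⟩)
  obtain ⟨f, hf⟩ := SmoothPartitionOfUnity.exists_isSubordinate (𝓡 d) (isClosed_univ (X := X))
    (fun j : t => (chartAt (E d) (j : X)).source) (fun j => (chartAt (E d) (j : X)).open_source)
    (fun y hy => by
      obtain ⟨j, hj⟩ := mem_iUnion.1 (ht hy)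
      obtain ⟨hj1, hj2⟩ := mem_iUnion.1 hj
      exact mem_iUnion.2 ⟨⟨j, hj1⟩, hj2⟩)
  have hfs : ∀ j : t, SmoothFun (d := d) (f j) := fun j => (f j).contMDiff
  have hsum : ∀ y, ∑ j : t, f j y = 1 := by
    intro y
    rw [← finsum_eq_sum_of_fintype]
    exact f.sum_eq_one (mem_univ y)
  have hδ' : 0 < δ / (Fintype.card t + 1 : ℝ) := by positivity
  choose β τ hβ hτ hd hc hest using fun j : t => approx_piece h (hfs j) (hf j) x N hN hNt hδ'
  refine ⟨σ₀ + ∑ j, τ j, ⟨hσ.add (IsSmooth.sum _ fun j _ => hτ j), ?_, ∑ j, β j,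
    IsSmooth.sum _ fun j _ => hβ j, ?_⟩, fun i => ?_⟩
  · have h1 := IsD.sum' Finset.univ (fun j _ => hc j) fun j _ => hτ j
    rw [Finset.sum_const_zero] at h1
    have h2 := IsD.add hcl h1 hσ (IsSmooth.sum _ fun j _ => hτ j)
    rw [add_zero] at h2
    exact h2
  · rw [add_sub_cancel_left]
    exact IsD.sum' Finset.univ (fun j _ => hd j) fun j _ => hβ j
  · have hη := sum_prodD hfs hsum α η
    have h1 : ∀ z, pb (chartAt (E d) (x i)).symm (σ₀ + ∑ j, τ j) z -
        pb (chartAt (E d) (x i)).symm (σ₀ + η) z =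
        ∑ j, pb (chartAt (E d) (x i)).symm (τ j - prodD (f j) α η) z := by
      intro z
      have h2 : ∑ j, (τ j - prodD (f j) α η) = (σ₀ + ∑ j, τ j) - (σ₀ + η) := by
        rw [Finset.sum_sub_distrib, hη]
        abel
      have h3 := pb_sum Finset.univ (chartAt (E d) (x i)).symm
        (fun j => τ j - prodD (f j) α η)
      have h4 := congrFun h3 z
      rw [h2, pb_sub, Finset.sum_apply] at h4
      exact h4
    have hm : ∀ j, AEMeasurable
        (fun z => ‖pb (chartAt (E d) (x i)).symm (τ j - prodD (f j) α η) z‖ₑ)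
        (volume.restrict (N i)) := by
      intro j
      have m1 : AEStronglyMeasurable (pb (chartAt (E d) (x i)).symm (τ j))
          (volume.restrict (N i)) :=
        ((smooth_chart (hτ j) (x i)).continuousOn.mono (hNt i)).aestronglyMeasurable
          (hN i).measurableSet
      have m2 := meas_prodD (hfs j) h (x i) (hN i) (hNt i)
      have m3 := (m1.sub m2).enorm
      refine m3.congr (Eventually.of_forall fun z => ?_)
      refine congrArg (fun t => ‖t‖ₑ) ?_
      exact (pb_sub _ _ _ _).symm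
    calc ∫⁻ z in N i, ‖pb (chartAt (E d) (x i)).symm (σ₀ + ∑ j, τ j) z -
          pb (chartAt (E d) (x i)).symm (σ₀ + η) z‖ₑ
        ≤ ∫⁻ z in N i, ∑ j, ‖pb (chartAt (E d) (x i)).symm (τ j - prodD (f j) α η) z‖ₑ := by
          refine lintegral_mono fun z => ?_
          rw [h1]
          exact enorm_sum_le' _ _
      _ = ∑ j, ∫⁻ z in N i, ‖pb (chartAt (E d) (x i)).symm (τ j - prodD (f j) α η) z‖ₑ :=
          lintegral_finsetSum' _ fun j _ => hm j
      _ ≤ ∑ _j : t, ENNReal.ofReal (δ / (Fintype.card t + 1 : ℝ)) :=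
          Finset.sum_le_sum fun j _ => hest j i
      _ ≤ ENNReal.ofReal δ := by
          rw [Finset.sum_const, Finset.card_univ, nsmul_eq_mul,
            ← ENNReal.ofReal_natCast, ← ENNReal.ofReal_mul (by positivity)]
          refine ENNReal.ofReal_le_ofReal ?_
          rw [mul_div_assoc', div_le_iff₀ (by positivity)]
          nlinarith

end Pool.Agent.H819.LG
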