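import Mathlib
import Pool.Agent.H819.LG.Approx

/-!
# The main estimate: small density
-/

set_option autoImplicit false

open Set Filter Topology MeasureTheory Metric
open scoped Manifold ContDiff ENNReal NNReal

noncomputable section

namespace Pool.Agent.H819.LG

open Pool.Agent.Y501.SY
open Pool.Agent.Y891.SY (pb_sub)

variable {d : ℕ} {X : Type} [TopologicalSpace X] [ChartedSpace (E d) X]

theorem exists_cut (x₀ : X) {K : Set (E d)} (hK : IsCompact K)
    (hKt : K ⊆ (chartAt (E d) x₀).target) : ∃ c : Cut d X, c.x₀ = x₀ ∧ ∀ z ∈ K, c.χ z = 1 := by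
  obtain ⟨r, hr, hrt⟩ := hK.exists_cthickening_subset_open (chartAt (E d) x₀).open_target hKt
  have hr2 : 0 < r / 2 := by positivity
  obtain ⟨f, hf, hf1, hf2, hf3⟩ := exists_contMDiff_support_eq_eq_one_iff (n := (⊤ : ℕ∞)) 𝓘(ℝ, E d)
    (isOpen_thickening (δ := r / 2) (E := K)) hK.isClosed (self_subset_thickening hr2 K)
  have hfs : ContDiff ℝ ∞ f := contMDiff_iff_contDiff.1 hf
  have h01 : ∀ z, f z ∈ Icc (0 : ℝ) 1 := fun z => hf1 (mem_range_self z)
  have hts : tsupport f ⊆ cthickening (r / 2) K := by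
    rw [tsupport, hf2]
    exact closure_thickening_subset_cthickening _ _
  refine ⟨⟨x₀, f, r / 2, hfs, fun z => (h01 z).1, fun z => (h01 z).2, ?_, hr2, ?_⟩, rfl,
    fun z hz => (hf3 z).1 hz⟩
  · exact hK.cthickening.of_isClosed_subset (isClosed_tsupport f) hts
  · intro z hz y hy
    apply hrt
    have h1 := mem_cthickening_iff.1 (hts hz)
    rw [mem_cthickening_iff]
    calc infEDist y K ≤ edist y z + infEDist z K := infEDist_le_edist_add_infEDist
      _ ≤ ENNReal.ofReal (r / 2) + ENNReal.ofReal (r / 2) := by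
          gcongr
          rw [edist_dist]
          exact ENNReal.ofReal_le_ofReal hy
      _ = ENNReal.ofReal r := by
          rw [← ENNReal.ofReal_add hr2.le hr2.le]
          congr 1
          ring

variable [IsManifold (𝓡 d) ∞ X]

/-- **Small density at one scale.** -/
theorem small_density [T2Space X] [CompactSpace X] {n : ℕ} (x : Fin n → X)
    (K N : Fin n → Set (E d)) (hK : ∀ i, IsCompact (K i)) (hN : ∀ i, IsCompact (N i))
    (hKN : ∀ i, K i ⊆ interior (N i)) (hNt : ∀ i, N i ⊆ (chartAt (E d) (x i)).target)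
    (hcov : ∀ p : X, ∃ i, ∃ z ∈ K i, (chartAt (E d) (x i)).symm z = p) {C : ℝ} (hC : 0 ≤ C)
    (M : ℝ) :
    ∃ ε : ℝ, 0 < ε ∧ ∃ ρ₀ : ℝ, 0 < ρ₀ ∧ ∀ J J' : End d X,
      (∀ i, ContinuousOn (inChart J (x i)) (N i)) →
      (∀ i, ∀ z ∈ N i, ‖inChart J (x i) z‖ ≤ M) →
      (∀ i, AEStronglyMeasurable (inChart J' (x i)) (volume.restrict (N i))) →
      ∀ (σ₀ : Form d X 2) (α : Form d X 1) (η : Form d X 2), IsSmooth σ₀ →
      IsClosedForm σ₀ → WeakPrim α η → ∀ c₀ : ℝ, 0 < c₀ →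
      (∀ i, ∀ᵐ z ∂(volume.restrict (N i)), ‖inChart J' (x i) z‖ ≤ M ∧
        GoodAt (pb (chartAt (E d) (x i)).symm (σ₀ + η)) (inChart J' (x i)) C c₀ z) →
      ∀ ρ : ℝ, 0 < ρ → ρ ≤ ρ₀ → (∀ i, ∀ z ∈ K i,
        mass (pb (chartAt (E d) (x i)).symm (σ₀ + η)) (inChart J' (x i)) (inChart J (x i) z) z ρ ≤
          ENNReal.ofReal (ε * c₀ * ρ ^ d)) →
      ∃ σ : Form d X 2, InClass σ₀ σ ∧ ∀ p, TamesAt σ J p := by
  have hKt : ∀ i, K i ⊆ (chartAt (E d) (x i)).target := fun i =>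
    ((hKN i).trans interior_subset).trans (hNt i)
  choose c hc hc1 using fun i => exists_cut (x i) (hK i) (hKt i)
  obtain rfl : x = fun i => (c i).x₀ := funext fun i => (hc i).symm
  choose ρ hρ hρN using fun i => (hK i).exists_cthickening_subset_open isOpen_interior (hKN i)
  obtain ⟨ρ₁, hρ₁, hρ₁'⟩ := exists_pos_le ρ hρ
  have hball : ∀ i, ∀ z ∈ K i, closedBall z ρ₁ ⊆ N i := by
    intro i z hz
    refine (closedBall_subset_closedBall (hρ₁' i)).trans ?_
    exact (closedBall_subset_cthickening hz _).trans ((hρN i).trans interior_subset)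
  obtain ⟨ε, hε, ρ₀, hρ₀, hglob⟩ := glob c hρ₁ hK hKt hc1 hN hNt hball hcov hC (le_max_right M 1)
  refine ⟨ε, hε, ρ₀, hρ₀, ?_⟩
  intro J J' hJ hJM hJ' σ₀ α η hσ hcl hα c₀ hc₀ hgood s hs hs₀ hmass
  have hmeas : ∀ i, AEStronglyMeasurable (pb (c i).e.symm (σ₀ + η)) (volume.restrict (N i)) := by
    intro i
    have m1 : AEStronglyMeasurable (pb (c i).e.symm σ₀) (volume.restrict (N i)) :=
      ((smooth_chart hσ (c i).x₀).continuousOn.mono (hNt i)).aestronglyMeasurable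
        (hN i).measurableSet
    have m2 := ((hα.int2 (c i).x₀).integrableOn_compact_subset (hNt i) (hN i)).aestronglyMeasurable
    exact m1.add m2
  obtain ⟨δ, hδ, h⟩ := hglob J J' hJ (fun i z hz => (hJM i z hz).trans (le_max_left M 1)) hJ'
    (σ₀ + η) hmeas c₀ hc₀ (fun i => by
      filter_upwards [hgood i] with z hz
      exact ⟨hz.1.trans (le_max_left M 1), hz.2⟩) s hs hs₀ hmass
  obtain ⟨w, hw, hwest⟩ := approx hσ hcl hα (fun i => (c i).x₀) N hN hNt hδ
  obtain ⟨σ, hσ', ht⟩ := h w hw.1 hw.2.1 hwest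
  exact ⟨σ, hw.trans hσ', ht⟩

end Pool.Agent.H819.LG
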