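import Mathlib
import Pool.Agent.H819.LG.Main

/-!
# Smooth taming forms satisfy the hypotheses
-/

set_option autoImplicit false

open Set Filter Topology MeasureTheory Metric
open scoped Manifold ContDiff ENNReal NNReal

noncomputable section

namespace Pool.Agent.H819.LG

open Pool.Agent.Y501.SY
open Pool.Agent.Y891.SY (pb_sub)
open Pool.Agent.Y431.SY (ev ev_apply)

variable {d : ℕ} {X : Type} [TopologicalSpace X] [ChartedSpace (E d) X] [IsManifold (𝓡 d) ∞ X]

/-- the exterior derivative of a smooth form is its weak exterior derivative -/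
theorem weakPrim_of_smooth {β : Form d X 1} {ξ : Form d X 2} (hβ : IsSmooth β)
    (hξ : IsSmooth ξ) (h : IsD β ξ) : WeakPrim β ξ := by
  refine ⟨fun x₀ => (smooth_chart hβ x₀).continuousOn.locallyIntegrableOn
      (chartAt (E d) x₀).open_target.measurableSet,
    fun x₀ => (smooth_chart hξ x₀).continuousOn.locallyIntegrableOn
      (chartAt (E d) x₀).open_target.measurableSet, ?_⟩
  intro x₀ φ hφ hφc hφt u v
  set T := (chartAt (E d) x₀).target with hT
  have hTo : IsOpen T := (chartAt (E d) x₀).open_target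
  set b := pb (chartAt (E d) x₀).symm β with hb
  have hbs : ContDiffOn ℝ ∞ b T := smooth_chart hβ x₀
  have hbd : ∀ z ∈ T, DifferentiableAt ℝ b z := fun z hz =>
    (hbs.contDiffAt (hTo.mem_nhds hz)).differentiableAt (by simp)
  have hext : ∀ z ∈ T, extDeriv b z = pb (chartAt (E d) x₀).symm ξ z := fun z hz =>
    h T _ hTo contMDiffOn_chart_symm z hz
  have hφ0 : ∀ z, z ∉ tsupport φ → φ z = 0 := fun z hz => image_eq_zero_of_notMem_tsupport hz
  have hdφ : ∀ w, Continuous (fun z => fderiv ℝ φ z w) := fun w =>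
    (hφ.continuous_fderiv (by simp)).clm_apply continuous_const
  have hdφ0 : ∀ w z, z ∉ tsupport φ → fderiv ℝ φ z w = 0 := by
    intro w z hz
    have h1 : φ =ᶠ[𝓝 z] fun _ => 0 := by
      filter_upwards [(isClosed_tsupport φ).isOpen_compl.mem_nhds hz] with x hx
      exact hφ0 x hx
    rw [h1.fderiv_eq]
    simp
  have hfs : ∀ w : E d, ContDiffOn ℝ ∞ (fun z => b z ![w]) T := fun w =>
    (ev (![w] : Fin 1 → E d)).contDiff.comp_contDiffOn hbs
  have hfd : ∀ w u : E d, ∀ z ∈ T, fderiv ℝ (fun z => b z ![w]) z u = fderiv ℝ b z u ![w] := by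
    intro w u z hz
    have h1 := ((ev (![w] : Fin 1 → E d)).hasFDerivAt.comp z (hbd z hz).hasFDerivAt).fderiv
    have h2 : fderiv ℝ (fun z => b z ![w]) z =
      (ev (![w] : Fin 1 → E d)).comp (fderiv ℝ b z) := h1
    rw [h2]
    rfl
  have k1 : ∀ u w : E d, Integrable (fun z => fderiv ℝ (fun z => b z ![w]) z u * φ z) := by
    intro u w
    have h1 : LocallyIntegrableOn (fun z => fderiv ℝ (fun z => b z ![w]) z u) T := by
      have h2 : ContinuousOn (fun z => fderiv ℝ (fun z => b z ![w]) z) T :=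
        (hfs w).continuousOn_fderiv_of_isOpen hTo (by simp)
      exact (h2.clm_apply continuousOn_const).locallyIntegrableOn hTo.measurableSet
    have h2 := int_bilin (ContinuousLinearMap.mul ℝ ℝ) hφc.isCompact hφt hφ.continuous hφ0 h1
    refine h2.congr (Eventually.of_forall fun z => ?_)
    exact mul_comm _ _
  have k2 : ∀ u w : E d, Integrable (fun z => b z ![w] * fderiv ℝ φ z u) := by
    intro u w
    have h1 : LocallyIntegrableOn (fun z => b z ![w]) T :=
      (hfs w).continuousOn.locallyIntegrableOn hTo.measurableSet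
    have h2 := int_bilin (ContinuousLinearMap.mul ℝ ℝ) hφc.isCompact hφt (hdφ u) (hdφ0 u) h1
    refine h2.congr (Eventually.of_forall fun z => ?_)
    exact mul_comm _ _
  have k3 : ∀ w : E d, Integrable (fun z => b z ![w] * φ z) := by
    intro w
    have h1 : LocallyIntegrableOn (fun z => b z ![w]) T :=
      (hfs w).continuousOn.locallyIntegrableOn hTo.measurableSet
    have h2 := int_bilin (ContinuousLinearMap.mul ℝ ℝ) hφc.isCompact hφt hφ.continuous hφ0 h1
    refine h2.congr (Eventually.of_forall fun z => ?_)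
    exact mul_comm _ _
  have ibp : ∀ u w : E d, ∫ z, b z ![w] * fderiv ℝ φ z u =
      - ∫ z, fderiv ℝ (fun z => b z ![w]) z u * φ z := by
    intro u w
    refine integral_mul_fderiv_eq_neg_fderiv_mul_of_integrable (k1 u w) (k2 u w) (k3 w) ?_ ?_
    · intro z hz
      exact ((hfs w).contDiffAt (hTo.mem_nhds (hφt hz))).differentiableAt (by simp)
    · intro z _
      exact hφ.differentiable (by simp) z
  rw [integral_sub (k2 u v) (k2 v u), ibp, ibp, sub_neg_eq_add, neg_add_eq_sub,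
    ← integral_sub (k1 v u) (k1 u v), ← integral_neg]
  refine integral_congr_ae (Eventually.of_forall fun z => ?_)
  show fderiv ℝ (fun z => b z ![u]) z v * φ z - fderiv ℝ (fun z => b z ![v]) z u * φ z =
    -(pb (chartAt (E d) x₀).symm ξ z ![u, v] * φ z)
  by_cases hz : z ∈ tsupport φ
  · have hzT := hφt hz
    rw [← hext z hzT, extDeriv_apply (hbd z hzT), Fin.sum_univ_two]
    have e0 : Fin.removeNth 0 (![u, v] : Fin 2 → E d) = ![v] := by
      funext i; fin_cases i; rfl
    have e1 : Fin.removeNth 1 (![u, v] : Fin 2 → E d) = ![u] := by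
      funext i; fin_cases i; rfl
    rw [e0, e1]
    simp only [Fin.val_zero, pow_zero, one_smul, Fin.val_one, pow_one, neg_smul,
      Matrix.cons_val_zero, Matrix.cons_val_one]
    ring
  · rw [hφ0 z hz]
    ring

theorem continuous_ev2 :
    Continuous (fun p : ((E d) [⋀^Fin 2]→L[ℝ] ℝ) × (Fin 2 → E d) => p.1 p.2) := by
  have h11 : Continuous (fun p : (ContinuousMultilinearMap ℝ (fun _ : Fin 2 => E d) ℝ) ×
      (Fin 2 → E d) => p.1 p.2) := ContinuousEval.continuous_eval
  have h12 : Continuous (fun f : (E d) [⋀^Fin 2]→L[ℝ] ℝ => f.toContinuousMultilinearMap) :=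
    (ContinuousAlternatingMap.toContinuousMultilinearMapCLM ℝ :
      ((E d) [⋀^Fin 2]→L[ℝ] ℝ) →L[ℝ] _).continuous
  exact h11.comp (h12.prodMap continuous_id)

/-- the operator norm bound for a two-form -/
theorem form2_le (f : (E d) [⋀^Fin 2]→L[ℝ] ℝ) (u w : E d) : |f ![u, w]| ≤ ‖f‖ * (‖u‖ * ‖w‖) := by
  have h := f.le_opNorm ![u, w]
  rw [Fin.prod_univ_two] at h
  exact h

/-- The form `θ` is bounded below by `c₀ |u|²` on the pairs `(u, J u)`, with bounded distortion,
locally uniformly, almost everywhere. -/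
def StronglyTames (θ : Form d X 2) (J : End d X) : Prop :=
  ∀ (x₀ : X) (N : Set (E d)), IsCompact N → N ⊆ (chartAt (E d) x₀).target →
    ∃ c₀ : ℝ, 0 < c₀ ∧ ∃ C : ℝ, ∀ᵐ z ∂(volume.restrict N),
      GoodAt (pb (chartAt (E d) x₀).symm θ) (inChart J x₀) C c₀ z

/-- The mass of `θ` in the balls of radius `ρ`, weighted by `(ρ + osc J)²`, is `o(ρ^d)`, locally
uniformly. -/
def VanishingDensity (θ : Form d X 2) (J : End d X) : Prop :=
  ∀ (x₀ : X) (K : Set (E d)), IsCompact K → K ⊆ (chartAt (E d) x₀).target →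
    ∀ ε : ℝ, 0 < ε → ∃ ρ₀ : ℝ, 0 < ρ₀ ∧ ∀ ρ, 0 < ρ → ρ < ρ₀ → ∀ z ∈ K,
      mass (pb (chartAt (E d) x₀).symm θ) (inChart J x₀) (inChart J x₀ z) z ρ ≤
        ENNReal.ofReal (ε * ρ ^ d)

/-- a smooth form taming `J` tames it strongly -/
theorem stronglyTames_of_tames {σ : Form d X 2} {J : End d X} (hσ : IsSmooth σ)
    (hJ : ∀ x₀, ContinuousOn (inChart J x₀) (chartAt (E d) x₀).target)
    (h : ∀ p, TamesAt σ J p) : StronglyTames σ J := by
  intro x₀ N hN hNt
  set s := pb (chartAt (E d) x₀).symm σ with hs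
  set A := inChart J x₀ with hA
  have hsc : ContinuousOn s N := (smooth_chart hσ x₀).continuousOn.mono hNt
  have hAc : ContinuousOn A N := (hJ x₀).mono hNt
  have hpos : ∀ z ∈ N, ∀ v : E d, v ≠ 0 → 0 < s z ![v, A z v] := fun z hz =>
    (Pool.Agent.Y455.SY.tames_iff σ J x₀ (hNt hz)).1 (h _)
  obtain ⟨m, hm, hm'⟩ : ∃ m : ℝ, 0 < m ∧ ∀ z ∈ N, ∀ v ∈ sphere (0 : E d) 1,
      m ≤ s z ![v, A z v] := by
    rcases (N ×ˢ sphere (0 : E d) 1).eq_empty_or_nonempty with h0 | h0
    · refine ⟨1, one_pos, fun z hz v hv => ?_⟩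
      have : (z, v) ∈ N ×ˢ sphere (0 : E d) 1 := ⟨hz, hv⟩
      rw [h0] at this
      exact this.elim
    · have hc : ContinuousOn (fun q : E d × E d => s q.1 ![q.2, A q.1 q.2])
          (N ×ˢ sphere (0 : E d) 1) := by
        have h1 : ContinuousOn (fun q : E d × E d => s q.1) (N ×ˢ sphere (0 : E d) 1) :=
          hsc.comp continuousOn_fst fun q hq => hq.1
        have h2 : ContinuousOn (fun q : E d × E d => A q.1 q.2) (N ×ˢ sphere (0 : E d) 1) :=
          (hAc.comp continuousOn_fst fun q hq => hq.1).clm_apply continuousOn_snd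
        have h3 : ContinuousOn (fun q : E d × E d => (![q.2, A q.1 q.2] : Fin 2 → E d))
            (N ×ˢ sphere (0 : E d) 1) := by
          refine continuousOn_pi.2 fun i => ?_
          fin_cases i
          · exact continuousOn_snd
          · exact h2
        exact continuous_ev2.comp_continuousOn (h1.prodMk h3)
      obtain ⟨q, hq, hmin⟩ := (hN.prod (isCompact_sphere 0 1)).exists_isMinOn h0 hc
      refine ⟨_, hpos q.1 hq.1 q.2 ?_, fun z hz v hv => hmin (a := (z, v)) ⟨hz, hv⟩⟩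
      have := hq.2
      rw [mem_sphere_zero_iff_norm] at this
      intro h3
      rw [h3, norm_zero] at this
      exact zero_ne_one this
  obtain ⟨M, hM⟩ := hN.exists_bound_of_continuousOn hsc
  have hlow : ∀ z ∈ N, ∀ u : E d, m * ‖u‖ ^ 2 ≤ s z ![u, A z u] := by
    intro z hz u
    by_cases hu : u = 0
    · have h1 : s z ![u, A z u] = 0 := by
        refine (s z).map_coord_zero 0 ?_
        exact hu
      rw [h1, hu, norm_zero]
      simp
    · have hu' : 0 < ‖u‖ := norm_pos_iff.2 hu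
      have h1 := hm' z hz (‖u‖⁻¹ • u) (by
        rw [mem_sphere_zero_iff_norm, norm_smul, norm_inv, norm_norm, inv_mul_cancel₀ hu'.ne'])
      have h2 := Pool.Agent.Y455.SY.Q_smul σ J x₀ z u ‖u‖⁻¹
      unfold Pool.Agent.Y455.SY.Q at h2
      rw [← hs, ← hA] at h2
      rw [h2, inv_pow] at h1
      rw [← div_eq_inv_mul, le_div_iff₀ (by positivity)] at h1
      exact h1
  refine ⟨m, hm, M ^ 2 / m ^ 2, ?_⟩
  refine (ae_restrict_iff' hN.measurableSet).2 (Eventually.of_forall fun z hz => ?_)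
  refine ⟨hlow z hz, fun u w => ?_⟩
  have h1 : |s z ![u, w]| ≤ M * (‖u‖ * ‖w‖) :=
    (form2_le _ _ _).trans (mul_le_mul_of_nonneg_right (hM z hz) (by positivity))
  have h2 : s z ![u, w] ^ 2 ≤ (M * (‖u‖ * ‖w‖)) ^ 2 := by
    rw [← sq_abs]
    exact pow_le_pow_left₀ (abs_nonneg _) h1 2
  have h3 := hlow z hz u
  have h4 := hlow z hz w
  refine h2.trans ?_
  have h5 : (m * ‖u‖ ^ 2) * (m * ‖w‖ ^ 2) ≤ s z ![u, A z u] * s z ![w, A z w] :=
    mul_le_mul h3 h4 (by positivity) ((by positivity : (0 : ℝ) ≤ m * ‖u‖ ^ 2).trans h3)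
  calc (M * (‖u‖ * ‖w‖)) ^ 2 = M ^ 2 / m ^ 2 * ((m * ‖u‖ ^ 2) * (m * ‖w‖ ^ 2)) := by
        field_simp
    _ ≤ M ^ 2 / m ^ 2 * (s z ![u, A z u] * s z ![w, A z w]) := by gcongr
    _ = M ^ 2 / m ^ 2 * s z ![u, A z u] * s z ![w, A z w] := by ring

theorem meas_mono {A : E d → (E d →L[ℝ] E d)} {θ : E d → (E d) [⋀^Fin 2]→L[ℝ] ℝ} {z : E d}
    {ρ κ M : ℝ} (hρ : 0 ≤ ρ) (hκ : 0 ≤ κ) (hM : 0 ≤ M)
    (hA : ∀ z' ∈ closedBall z ρ, ‖A z' - A z‖ ≤ κ)
    (hθ : ∀ᵐ z' ∂(volume.restrict (closedBall z ρ)), ‖θ z'‖ ≤ M) :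
    mass θ A (A z) z ρ ≤ ENNReal.ofReal ((ρ + κ) ^ 2 * M * ρ ^ d) * volume (closedBall (0 : E d) 1) := by
  unfold mass
  calc ∫⁻ z' in closedBall z ρ, ENNReal.ofReal ((ρ + ‖A z' - A z‖) ^ 2) * ‖θ z'‖ₑ
      ≤ ∫⁻ _z' in closedBall z ρ, ENNReal.ofReal ((ρ + κ) ^ 2 * M) := by
        refine lintegral_mono_ae ?_
        filter_upwards [hθ, ae_restrict_mem measurableSet_closedBall] with z' h2 hz'
        rw [ENNReal.ofReal_mul (by positivity), ← ofReal_norm]
        have h1 := hA z' hz'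
        gcongr
    _ = ENNReal.ofReal ((ρ + κ) ^ 2 * M) * volume (closedBall z ρ) := setLIntegral_const _ _
    _ = ENNReal.ofReal ((ρ + κ) ^ 2 * M * ρ ^ d) * volume (closedBall (0 : E d) 1) := by
        rw [vol_ball z hρ, ← mul_assoc, ← ENNReal.ofReal_mul (by positivity)]

omit [IsManifold (𝓡 d) ∞ X] in
/-- bounded forms have vanishing density -/
theorem vanishing_of_bounded {θ : Form d X 2} {J : End d X}
    (hJ : ∀ x₀, ContinuousOn (inChart J x₀) (chartAt (E d) x₀).target)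
    (h : ∀ (x₀ : X) (N : Set (E d)), IsCompact N → N ⊆ (chartAt (E d) x₀).target →
      ∃ M : ℝ, ∀ᵐ z ∂(volume.restrict N), ‖pb (chartAt (E d) x₀).symm θ z‖ ≤ M) :
    VanishingDensity θ J := by
  intro x₀ K hK hKt ε hε
  obtain ⟨r, hr, hrt⟩ := hK.exists_cthickening_subset_open (chartAt (E d) x₀).open_target hKt
  have hNc : IsCompact (cthickening r K) := hK.cthickening
  obtain ⟨M, hM⟩ := h x₀ _ hNc hrt
  have hAc : ContinuousOn (inChart J x₀) (cthickening r K) := (hJ x₀).mono hrt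
  set V : ℝ := (volume (closedBall (0 : E d) 1)).toReal with hV
  have hVe : volume (closedBall (0 : E d) 1) = ENNReal.ofReal V :=
    (ENNReal.ofReal_toReal measure_closedBall_lt_top.ne).symm
  have hV0 : 0 ≤ V := ENNReal.toReal_nonneg
  set M' : ℝ := max M 0 with hM'
  have hM'0 : 0 ≤ M' := le_max_right _ _
  obtain ⟨κ, hκ, hκ'⟩ : ∃ κ : ℝ, 0 < κ ∧ (2 * κ) ^ 2 * M' * V ≤ ε := by
    refine ⟨min 1 (ε / (4 * (M' * V + 1))), by positivity, ?_⟩
    set κ := min 1 (ε / (4 * (M' * V + 1)))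
    have h0 : 0 < κ := by positivity
    have h1 : κ ≤ 1 := min_le_left _ _
    have h2 : κ ≤ ε / (4 * (M' * V + 1)) := min_le_right _ _
    rw [le_div_iff₀ (by positivity)] at h2
    have h3 : 0 ≤ M' * V := by positivity
    have h4 : κ ^ 2 ≤ κ := by nlinarith
    calc (2 * κ) ^ 2 * M' * V = 4 * κ ^ 2 * (M' * V) := by ring
      _ ≤ 4 * κ * (M' * V) := by gcongr
      _ ≤ κ * (4 * (M' * V + 1)) := by nlinarith
      _ ≤ ε := h2
  obtain ⟨δ, hδ, huc⟩ := Metric.uniformContinuousOn_iff.1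
    (hNc.uniformContinuousOn_of_continuous hAc) κ hκ
  refine ⟨min (min r δ) κ, by positivity, fun ρ hρ hρ' z hz => ?_⟩
  have hρr : ρ < r := hρ'.trans_le ((min_le_left _ _).trans (min_le_left _ _))
  have hρδ : ρ < δ := hρ'.trans_le ((min_le_left _ _).trans (min_le_right _ _))
  have hρκ : ρ < κ := hρ'.trans_le (min_le_right _ _)
  have hball : closedBall z ρ ⊆ cthickening r K :=
    (closedBall_subset_closedBall hρr.le).trans (closedBall_subset_cthickening hz _)
  refine (meas_mono hρ.le hκ.le hM'0 (fun z' hz' => ?_) ?_).trans ?_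
  · have h1 := huc z' (hball hz') z (hball (mem_closedBall_self hρ.le))
      ((mem_closedBall.1 hz').trans_lt hρδ)
    rw [dist_eq_norm] at h1
    exact h1.le
  · filter_upwards [ae_mono (Measure.restrict_mono hball le_rfl) hM] with z' hz'
    exact hz'.trans (le_max_left _ _)
  · rw [hVe, ← ENNReal.ofReal_mul (by positivity)]
    refine ENNReal.ofReal_le_ofReal ?_
    calc (ρ + κ) ^ 2 * M' * ρ ^ d * V ≤ (2 * κ) ^ 2 * M' * ρ ^ d * V := by
          gcongr
          linarith
      _ = ((2 * κ) ^ 2 * M' * V) * ρ ^ d := by ring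
      _ ≤ ε * ρ ^ d := by gcongr

theorem vanishing_of_smooth {σ : Form d X 2} {J : End d X} (hσ : IsSmooth σ)
    (hJ : ∀ x₀, ContinuousOn (inChart J x₀) (chartAt (E d) x₀).target) : VanishingDensity σ J := by
  refine vanishing_of_bounded hJ fun x₀ N hN hNt => ?_
  obtain ⟨M, hM⟩ := hN.exists_bound_of_continuousOn ((smooth_chart hσ x₀).continuousOn.mono hNt)
  exact ⟨M, (ae_restrict_iff' hN.measurableSet).2 (Eventually.of_forall hM)⟩

end Pool.Agent.H819.LG
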