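import Mathlib
import Pool.Agent.H819.LG.Conv

/-!
# Vanishing density: the criterion, and critical exponents
-/

set_option autoImplicit false

open Set Filter Topology MeasureTheory Metric
open scoped Manifold ContDiff ENNReal NNReal

noncomputable section

namespace Pool.Agent.H819.LG

open Pool.Agent.Y501.SY

variable {d : ℕ} {X : Type} [TopologicalSpace X] [ChartedSpace (E d) X]

variable (d X) in
/-- a finite cover by compact pieces of charts -/
theorem exists_cover [CompactSpace X] : ∃ (n : ℕ) (x : Fin n → X) (K N : Fin n → Set (E d)),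
    (∀ i, IsCompact (K i)) ∧ (∀ i, IsCompact (N i)) ∧ (∀ i, K i ⊆ interior (N i)) ∧
    (∀ i, N i ⊆ (chartAt (E d) (x i)).target) ∧
    ∀ p : X, ∃ i, ∃ z ∈ K i, (chartAt (E d) (x i)).symm z = p := by
  have h1 : ∀ p : X, ∃ r : ℝ, 0 < r ∧ closedBall (chartAt (E d) p p) (2 * r) ⊆
      (chartAt (E d) p).target := by
    intro p
    obtain ⟨s, hs, hs'⟩ := Metric.nhds_basis_closedBall.mem_iff.1
      ((chartAt (E d) p).open_target.mem_nhds (mem_chart_target (E d) p))
    refine ⟨s / 2, by positivity, ?_⟩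
    rw [mul_div_cancel₀ s (two_ne_zero)]
    exact hs'
  choose r hr hrt using h1
  have h2 : ∀ p : X, (chartAt (E d) p).source ∩ (chartAt (E d) p) ⁻¹' (ball (chartAt (E d) p p)
      (r p)) ∈ 𝓝 p := by
    intro p
    refine ((chartAt (E d) p).isOpen_inter_preimage isOpen_ball).mem_nhds ?_
    exact ⟨mem_chart_source (E d) p, mem_ball_self (hr p)⟩
  obtain ⟨t, -, ht⟩ := isCompact_univ.elim_nhds_subcover _ fun p (_ : p ∈ (univ : Set X)) => h2 p
  refine ⟨t.card, fun i => (t.equivFin.symm i : X), fun i =>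
    closedBall (chartAt (E d) (t.equivFin.symm i : X) (t.equivFin.symm i : X))
      (r (t.equivFin.symm i : X)), fun i =>
    closedBall (chartAt (E d) (t.equivFin.symm i : X) (t.equivFin.symm i : X))
      (2 * r (t.equivFin.symm i : X)), fun i => isCompact_closedBall _ _,
    fun i => isCompact_closedBall _ _, fun i => ?_, fun i => hrt _, fun p => ?_⟩
  · refine (closedBall_subset_ball ?_).trans ball_subset_interior_closedBall
    have := hr (t.equivFin.symm i : X)
    linarith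
  · obtain ⟨q, hq, hpq⟩ := mem_iUnion₂.1 (ht (mem_univ p))
    refine ⟨t.equivFin ⟨q, hq⟩, chartAt (E d) q p, ?_, ?_⟩
    · show chartAt (E d) q p ∈ closedBall (chartAt (E d) (t.equivFin.symm (t.equivFin ⟨q, hq⟩) : X)
        (t.equivFin.symm (t.equivFin ⟨q, hq⟩) : X)) (r (t.equivFin.symm (t.equivFin ⟨q, hq⟩) : X))
      rw [Equiv.symm_apply_apply]
      exact ball_subset_closedBall hpq.2
    · show (chartAt (E d) (t.equivFin.symm (t.equivFin ⟨q, hq⟩) : X)).symm
        (chartAt (E d) q p) = p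
      rw [Equiv.symm_apply_apply]
      exact (chartAt (E d) q).left_inv hpq.1

variable [IsManifold (𝓡 d) ∞ X]

theorem GoodAt.mono {θ : E d → (E d) [⋀^Fin 2]→L[ℝ] ℝ} {A : E d → (E d →L[ℝ] E d)}
    {C C' c₀ c₁ : ℝ} {z : E d} (h : GoodAt θ A C c₀ z) (h0 : 0 ≤ c₀) (hC : C ≤ C')
    (hc : c₁ ≤ c₀) : GoodAt θ A C' c₁ z := by
  refine ⟨fun u => le_trans (by gcongr) (h.1 u), fun u w => (h.2 u w).trans ?_⟩
  have h1 : 0 ≤ θ z ![u, A z u] := le_trans (by positivity) (h.1 u)
  have h2 : 0 ≤ θ z ![w, A z w] := le_trans (by positivity) (h.1 w)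
  gcongr

/-- **Vanishing density.** -/
theorem vanishing_density [T2Space X] [CompactSpace X] {J : End d X}
    (hJ : ∀ x₀, ContinuousOn (inChart J x₀) (chartAt (E d) x₀).target) {σ₀ : Form d X 2}
    {α : Form d X 1} {η : Form d X 2} (hσ : IsSmooth σ₀) (hcl : IsClosedForm σ₀)
    (hα : WeakPrim α η) (ht : StronglyTames (σ₀ + η) J) (hv : VanishingDensity (σ₀ + η) J) :
    ∃ σ : Form d X 2, InClass σ₀ σ ∧ ∀ p, TamesAt σ J p := by
  obtain ⟨n, x, K, N, hK, hN, hKN, hNt, hcov⟩ := exists_cover d X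
  choose c hc C hC using fun i => ht (x i) (N i) (hN i) (hNt i)
  obtain ⟨c₀, hc₀, hc₀'⟩ := exists_pos_le c hc
  set C₀ : ℝ := ∑ i, |C i| with hC₀
  have hC₀0 : 0 ≤ C₀ := Finset.sum_nonneg fun i _ => abs_nonneg _
  have hCi : ∀ i, C i ≤ C₀ := fun i => (le_abs_self _).trans
    (Finset.single_le_sum (f := fun i => |C i|) (fun j _ => abs_nonneg _) (Finset.mem_univ i))
  have hM : ∀ i, ∃ M : ℝ, ∀ z ∈ N i, ‖inChart J (x i) z‖ ≤ M := fun i =>
    (hN i).exists_bound_of_continuousOn ((hJ (x i)).mono (hNt i))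
  choose M hM using hM
  set M₀ : ℝ := ∑ i, |M i| with hM₀
  have hMi : ∀ i, M i ≤ M₀ := fun i => (le_abs_self _).trans
    (Finset.single_le_sum (f := fun i => |M i|) (fun j _ => abs_nonneg _) (Finset.mem_univ i))
  obtain ⟨ε, hε, s, hs, h⟩ := small_density x K N hK hN hKN hNt hcov hC₀0 M₀
  have hv' := fun i => hv (x i) (K i) (hK i) (((hKN i).trans interior_subset).trans (hNt i))
    (ε * c₀) (by positivity)
  choose ρ₀ hρ₀ h' using hv'
  obtain ⟨ρ₁, hρ₁, hρ₁'⟩ := exists_pos_le ρ₀ hρ₀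
  refine h J J (fun i => (hJ (x i)).mono (hNt i)) (fun i z hz => (hM i z hz).trans (hMi i))
    (fun i => ((hJ (x i)).mono (hNt i)).aestronglyMeasurable (hN i).measurableSet)
    σ₀ α η hσ hcl hα c₀ hc₀ (fun i => ?_) (min s (ρ₁ / 2)) (by positivity) (min_le_left _ _)
    (fun i z hz => ?_)
  · filter_upwards [hC i, ae_restrict_mem (hN i).measurableSet] with z hz hzN
    exact ⟨(hM i z hzN).trans (hMi i), hz.mono (hc i).le (hCi i) (hc₀' i)⟩
  · refine h' i _ (by positivity) ?_ z hz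
    calc min s (ρ₁ / 2) ≤ ρ₁ / 2 := min_le_right _ _
      _ < ρ₁ := by linarith
      _ ≤ ρ₀ i := hρ₁' i

/-- `J` is locally Hölder continuous with exponent `a` in the charts. -/
def LocHolder (J : End d X) (a : ℝ) : Prop :=
  ∀ (x₀ : X) (N : Set (E d)), IsCompact N → N ⊆ (chartAt (E d) x₀).target →
    ∃ L : ℝ, ∀ z ∈ N, ∀ z' ∈ N, ‖inChart J x₀ z' - inChart J x₀ z‖ ≤ L * ‖z' - z‖ ^ a

/-- `θ` is locally in `L^p` in the charts. -/
def LocLp (θ : Form d X 2) (p : ℝ≥0∞) : Prop :=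
  ∀ (x₀ : X) (N : Set (E d)), IsCompact N → N ⊆ (chartAt (E d) x₀).target →
    MemLp (pb (chartAt (E d) x₀).symm θ) p (volume.restrict N)

theorem L1_of_Lp {F : Type} [NormedAddCommGroup F] {f : E d → F} {p : ℝ} (hp1 : 1 ≤ p)
    {B N : Set (E d)} (hB : MeasurableSet B) (hBN : B ⊆ N)
    (hf : AEStronglyMeasurable f (volume.restrict N)) {κ : ℝ≥0∞}
    (h : eLpNorm (B.indicator f) (ENNReal.ofReal p) (volume.restrict N) ≤ κ) :
    ∫⁻ z in B, ‖f z‖ₑ ≤ κ * volume B ^ (1 - 1 / p) := by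
  have hm : AEStronglyMeasurable f (volume.restrict B) :=
    hf.mono_measure (Measure.restrict_mono hBN le_rfl)
  have h2 := eLpNorm_le_eLpNorm_mul_rpow_measure_univ (μ := volume.restrict B)
    (ENNReal.one_le_ofReal.2 hp1) hm
  rw [eLpNorm_one_eq_lintegral_enorm, Measure.restrict_apply_univ, ENNReal.toReal_one,
    ENNReal.toReal_ofReal (by positivity), div_one] at h2
  refine h2.trans ?_
  rw [eLpNorm_indicator_eq_eLpNorm_restrict hB, Measure.restrict_restrict hB,
    inter_eq_left.2 hBN] at h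
  gcongr

omit [IsManifold (𝓡 d) ∞ X] in
/-- **The critical exponent.**  If `J` is locally Hölder continuous with exponent `a` and `θ` is
locally in `L^(d / (2 a))`, then the weighted mass of `θ` in the balls of radius `ρ` is
`o(ρ^d)`. -/
theorem vanishing_of_Lp {θ : Form d X 2} {J : End d X} {a : ℝ} (ha : 0 < a) (ha1 : a ≤ 1)
    (hd : 2 ≤ d) (hJ : LocHolder J a) (hθ : LocLp θ (ENNReal.ofReal (d / (2 * a)))) :
    VanishingDensity θ J := by
  intro x₀ K hK hKt ε hε
  obtain ⟨r, hr, hrt⟩ := hK.exists_cthickening_subset_open (chartAt (E d) x₀).open_target hKt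
  set N := cthickening r K with hN
  have hNc : IsCompact N := hK.cthickening
  set f := pb (chartAt (E d) x₀).symm θ with hf
  have hfN : MemLp f (ENNReal.ofReal (d / (2 * a))) (volume.restrict N) := hθ x₀ N hNc hrt
  obtain ⟨L, hL⟩ := hJ x₀ N hNc hrt
  set L' : ℝ := max L 0 with hL'
  have hL'0 : 0 ≤ L' := le_max_right _ _
  set V : ℝ := (volume (closedBall (0 : E d) 1)).toReal with hV
  have hVe : volume (closedBall (0 : E d) 1) = ENNReal.ofReal V :=
    (ENNReal.ofReal_toReal measure_closedBall_lt_top.ne).symm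
  have hV0 : 0 ≤ V := ENNReal.toReal_nonneg
  have hd' : (2 : ℝ) ≤ d := by exact_mod_cast hd
  set p : ℝ := d / (2 * a) with hp
  have hp1 : 1 ≤ p := by
    rw [hp, le_div_iff₀ (by positivity)]
    nlinarith
  set s : ℝ := 1 - 1 / p with hs
  have hs0 : 0 ≤ s := by
    rw [hs, sub_nonneg, div_le_one (by positivity)]
    exact hp1
  have hps : 1 / p = 2 * a / d := by
    rw [hp, one_div_div]
  have hds : (d : ℝ) * s = d - 2 * a := by
    rw [hs, hps]
    field_simp
  set W : ℝ := (1 + L') ^ 2 * V ^ s with hW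
  have hW0 : 0 ≤ W := by positivity
  obtain ⟨δ, hδ, hδ'⟩ := hfN.eLpNorm_indicator_le (ENNReal.one_le_ofReal.2 hp1)
    ENNReal.ofReal_ne_top (ε := ε / (W + 1)) (by positivity)
  obtain ⟨r₁, hr₁, hr₁'⟩ : ∃ r₁ : ℝ, 0 < r₁ ∧ ∀ ρ, 0 < ρ → ρ < r₁ → ρ ^ d * V ≤ δ := by
    refine ⟨min 1 (δ / (V + 1)), by positivity, fun ρ hρ hρ' => ?_⟩
    have h1 : ρ ≤ 1 := (hρ'.trans_le (min_le_left _ _)).le
    have h2 : ρ ≤ δ / (V + 1) := (hρ'.trans_le (min_le_right _ _)).le
    have h3 : ρ ^ d ≤ ρ := pow_le_of_le_one hρ.le h1 (by omega)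
    rw [le_div_iff₀ (by positivity)] at h2
    calc ρ ^ d * V ≤ ρ * V := by gcongr
      _ ≤ ρ * (V + 1) := by nlinarith
      _ ≤ δ := h2
  refine ⟨min (min r 1) r₁, by positivity, fun ρ hρ hρ' z hz => ?_⟩
  have hρr : ρ < r := hρ'.trans_le ((min_le_left _ _).trans (min_le_left _ _))
  have hρ1 : ρ < 1 := hρ'.trans_le ((min_le_left _ _).trans (min_le_right _ _))
  have hρr₁ : ρ < r₁ := hρ'.trans_le (min_le_right _ _)
  have hball : closedBall z ρ ⊆ N :=
    (closedBall_subset_closedBall hρr.le).trans (closedBall_subset_cthickening hz _)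
  have hvol : volume (closedBall z ρ) = ENNReal.ofReal (ρ ^ d * V) := by
    rw [vol_ball z hρ.le, hVe, ENNReal.ofReal_mul (by positivity)]
  have hρa : ρ ≤ ρ ^ a := by
    calc ρ = ρ ^ (1 : ℝ) := (Real.rpow_one ρ).symm
      _ ≤ ρ ^ a := Real.rpow_le_rpow_of_exponent_ge hρ hρ1.le ha1
  -- the `L¹` norm on the ball
  have h1 : ∫⁻ z' in closedBall z ρ, ‖f z'‖ₑ ≤
      ENNReal.ofReal (ε / (W + 1)) * ENNReal.ofReal (ρ ^ (d - 2 * a) * V ^ s) := by
    have h3 := hδ' (closedBall z ρ) measurableSet_closedBall (by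
      refine (Measure.restrict_apply_le _ _).trans ?_
      rw [hvol]
      exact ENNReal.ofReal_le_ofReal (hr₁' ρ hρ hρr₁))
    have h2 := L1_of_Lp hp1 measurableSet_closedBall hball hfN.1 h3
    rw [← hs, hvol, ENNReal.ofReal_rpow_of_nonneg (by positivity) hs0,
      Real.mul_rpow (by positivity) hV0, ← Real.rpow_natCast, ← Real.rpow_mul hρ.le, hds] at h2
    exact h2
  calc mass f (inChart J x₀) (inChart J x₀ z) z ρ
      ≤ ∫⁻ z' in closedBall z ρ, ENNReal.ofReal ((1 + L') ^ 2 * ρ ^ (2 * a)) * ‖f z'‖ₑ := by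
        refine setLIntegral_mono' measurableSet_closedBall fun z' hz' => ?_
        refine mul_le_mul_left (ENNReal.ofReal_le_ofReal ?_) _
        have h3 := hL z (hball (mem_closedBall_self hρ.le)) z' (hball hz')
        have h4 : ‖z' - z‖ ≤ ρ := by
          rw [← dist_eq_norm]
          exact hz'
        have h5 : ‖z' - z‖ ^ a ≤ ρ ^ a := Real.rpow_le_rpow (norm_nonneg _) h4 ha.le
        have h6 : ‖inChart J x₀ z' - inChart J x₀ z‖ ≤ L' * ρ ^ a := by
          refine h3.trans ?_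
          calc L * ‖z' - z‖ ^ a ≤ L' * ‖z' - z‖ ^ a := by
                gcongr
                exact le_max_left _ _
            _ ≤ L' * ρ ^ a := by gcongr
        calc (ρ + ‖inChart J x₀ z' - inChart J x₀ z‖) ^ 2 ≤ (ρ ^ a + L' * ρ ^ a) ^ 2 := by
              gcongr
          _ = (1 + L') ^ 2 * ρ ^ (2 * a) := by
              rw [two_mul a, Real.rpow_add hρ]
              ring
    _ = ENNReal.ofReal ((1 + L') ^ 2 * ρ ^ (2 * a)) * ∫⁻ z' in closedBall z ρ, ‖f z'‖ₑ :=
        lintegral_const_mul' _ _ ENNReal.ofReal_ne_top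
    _ ≤ ENNReal.ofReal ((1 + L') ^ 2 * ρ ^ (2 * a)) *
        (ENNReal.ofReal (ε / (W + 1)) * ENNReal.ofReal (ρ ^ (d - 2 * a) * V ^ s)) := by gcongr
    _ = ENNReal.ofReal (((1 + L') ^ 2 * ρ ^ (2 * a)) * (ε / (W + 1) *
        (ρ ^ (d - 2 * a) * V ^ s))) := by
        rw [← ENNReal.ofReal_mul (by positivity), ← ENNReal.ofReal_mul (by positivity)]
    _ ≤ ENNReal.ofReal (ε * ρ ^ d) := by
        refine ENNReal.ofReal_le_ofReal ?_
        have h3 : ρ ^ (2 * a) * ρ ^ (d - 2 * a) = ρ ^ d := by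
          rw [← Real.rpow_add hρ, add_sub_cancel, Real.rpow_natCast]
        calc ((1 + L') ^ 2 * ρ ^ (2 * a)) * (ε / (W + 1) * (ρ ^ (d - 2 * a) * V ^ s))
            = (W / (W + 1)) * ε * (ρ ^ (2 * a) * ρ ^ (d - 2 * a)) := by
              rw [hW]
              ring
          _ ≤ 1 * ε * (ρ ^ (2 * a) * ρ ^ (d - 2 * a)) := by
              gcongr
              rw [div_le_one (by positivity)]
              linarith
          _ = ε * ρ ^ d := by rw [h3, one_mul]

omit [IsManifold (𝓡 d) ∞ X] in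
theorem vanishing_of_top {θ : Form d X 2} {J : End d X}
    (hJ : ∀ x₀, ContinuousOn (inChart J x₀) (chartAt (E d) x₀).target) (hθ : LocLp θ ⊤) :
    VanishingDensity θ J := by
  refine vanishing_of_bounded hJ fun x₀ N hN hNt => ?_
  have h := hθ x₀ N hN hNt
  refine ⟨(eLpNorm (pb (chartAt (E d) x₀).symm θ) ⊤ (volume.restrict N)).toReal, ?_⟩
  have h1 := ae_le_eLpNormEssSup (f := pb (chartAt (E d) x₀).symm θ) (μ := volume.restrict N)
  have h2 : eLpNorm (pb (chartAt (E d) x₀).symm θ) ⊤ (volume.restrict N) < ⊤ := h.2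
  filter_upwards [h1] with z hz
  rw [← ofReal_norm] at hz
  rw [eLpNorm_exponent_top] at h2 ⊢
  exact (ENNReal.ofReal_le_iff_le_toReal h2.ne).1 hz

omit [IsManifold (𝓡 d) ∞ X] in
theorem locHolder_of_C1 {J : End d X}
    (hJ : ∀ x₀, ContDiffOn ℝ 1 (inChart J x₀) (chartAt (E d) x₀).target) : LocHolder J 1 := by
  intro x₀ N hN hNt
  have h1 : LocallyLipschitzOn N (inChart J x₀) := by
    intro z hz
    have h2 : ContDiffAt ℝ 1 (inChart J x₀) z :=
      (hJ x₀).contDiffAt ((chartAt (E d) x₀).open_target.mem_nhds (hNt hz))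
    obtain ⟨L, t, ht, hL⟩ := h2.exists_lipschitzOnWith
    exact ⟨L, t, mem_nhdsWithin_of_mem_nhds ht, hL⟩
  obtain ⟨L, hL⟩ := LocallyLipschitzOn.exists_lipschitzOnWith_of_compact hN h1
  refine ⟨L, fun z hz z' hz' => ?_⟩
  have h2 := hL.dist_le_mul z' hz' z hz
  rw [dist_eq_norm, dist_eq_norm] at h2
  rwa [Real.rpow_one]

end Pool.Agent.H819.LG
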