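import Mathlib
import Pool.Agent.H819.LG.Crit

/-!
# Invariant forms
-/

set_option autoImplicit false

open Set Filter Topology MeasureTheory Metric
open scoped Manifold ContDiff ENNReal NNReal

noncomputable section

namespace Pool.Agent.H819.LG

open Pool.Agent.Y501.SY

section lin

variable {V : Type} [NormedAddCommGroup V] [NormedSpace ℝ V]

theorem two_add_left (s : V [⋀^Fin 2]→L[ℝ] ℝ) (x y z : V) :
    s ![x + y, z] = s ![x, z] + s ![y, z] := by
  have := s.toAlternatingMap.map_update_add ![x, z] 0 x y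
  have h1 : ∀ w : V, Function.update ![x, z] 0 w = ![w, z] := by
    intro w; funext i; fin_cases i <;> simp
  rw [h1, h1, h1] at this
  exact this

theorem two_add_right (s : V [⋀^Fin 2]→L[ℝ] ℝ) (x y z : V) :
    s ![x, y + z] = s ![x, y] + s ![x, z] := by
  have := s.toAlternatingMap.map_update_add ![x, y] 1 y z
  have h1 : ∀ w : V, Function.update ![x, y] 1 w = ![x, w] := by
    intro w; funext i; fin_cases i <;> simp
  rw [h1, h1, h1] at this
  exact this

theorem two_smul_left (s : V [⋀^Fin 2]→L[ℝ] ℝ) (a : ℝ) (x z : V) :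
    s ![a • x, z] = a * s ![x, z] := by
  have := s.toAlternatingMap.map_update_smul ![x, z] 0 a x
  have h1 : ∀ w : V, Function.update ![x, z] 0 w = ![w, z] := by
    intro w; funext i; fin_cases i <;> simp
  rw [h1, h1] at this
  exact this

theorem two_smul_right (s : V [⋀^Fin 2]→L[ℝ] ℝ) (a : ℝ) (x z : V) :
    s ![x, a • z] = a * s ![x, z] := by
  have := s.toAlternatingMap.map_update_smul ![x, z] 1 a z
  have h1 : ∀ w : V, Function.update ![x, z] 1 w = ![x, w] := by
    intro w; funext i; fin_cases i <;> simp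
  rw [h1, h1] at this
  exact this

theorem two_swap (s : V [⋀^Fin 2]→L[ℝ] ℝ) (x z : V) : s ![x, z] = - s ![z, x] := by
  have := s.toAlternatingMap.map_swap ![x, z] (i := 0) (j := 1) (by decide)
  have h1 : (![x, z] : Fin 2 → V) ∘ Equiv.swap (0 : Fin 2) 1 = ![z, x] := by
    funext i; fin_cases i <;> simp
  rw [h1] at this
  have h2 : s ![z, x] = - s ![x, z] := this
  rw [h2, neg_neg]

/-- the distortion of an invariant form is at most one -/
theorem distortion_inv (s : V [⋀^Fin 2]→L[ℝ] ℝ) (A : V →L[ℝ] V) (hA : ∀ u, A (A u) = -u)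
    (hinv : ∀ u w, s ![A u, A w] = s ![u, w]) (h0 : ∀ u, 0 ≤ s ![u, A u]) (u w : V) :
    s ![u, w] ^ 2 ≤ 1 * s ![u, A u] * s ![w, A w] := by
  have hsymm : ∀ x y : V, s ![x, A y] = s ![y, A x] := by
    intro x y
    rw [← hinv x (A y), hA]
    have h1 : s ![A x, -y] = - s ![A x, y] := by
      have := two_smul_right s (-1) (A x) y
      rw [neg_one_smul, neg_one_mul] at this
      exact this
    rw [h1, two_swap s (A x) y, neg_neg]
  have hcs : ∀ x y : V, s ![x, A y] ^ 2 ≤ s ![x, A x] * s ![y, A y] := by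
    intro x y
    have h1 : ∀ t : ℝ, 0 ≤ s ![y, A y] * (t * t) + (2 * s ![x, A y]) * t + s ![x, A x] := by
      intro t
      have h2 := h0 (x + t • y)
      rw [map_add, map_smul, two_add_left, two_add_right, two_add_right, two_smul_left,
        two_smul_left, two_smul_right, two_smul_right, hsymm y x] at h2
      nlinarith
    have h3 := discrim_le_zero h1
    unfold discrim at h3
    nlinarith
  have h1 : s ![u, w] ^ 2 = s ![u, A (A w)] ^ 2 := by
    rw [hA]
    have h2 : s ![u, -w] = - s ![u, w] := by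
      have := two_smul_right s (-1) u w
      rw [neg_one_smul, neg_one_mul] at this
      exact this
    rw [h2, neg_sq]
  rw [h1, one_mul]
  refine (hcs u (A w)).trans (le_of_eq ?_)
  rw [hinv w (A w)]

end lin

variable {d : ℕ} {X : Type} [TopologicalSpace X] [ChartedSpace (E d) X]

/-- The form `θ` is bounded below by `c₀ |u|²` on the pairs `(u, J u)`, locally uniformly, almost
everywhere. -/
def LowerBounded (θ : Form d X 2) (J : End d X) : Prop :=
  ∀ (x₀ : X) (N : Set (E d)), IsCompact N → N ⊆ (chartAt (E d) x₀).target →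
    ∃ c₀ : ℝ, 0 < c₀ ∧ ∀ᵐ z ∂(volume.restrict N), ∀ u : E d,
      c₀ * ‖u‖ ^ 2 ≤ pb (chartAt (E d) x₀).symm θ z ![u, inChart J x₀ z u]

/-- The form `θ` is invariant under `J`. -/
def Invariant (θ : Form d X 2) (J : End d X) : Prop :=
  ∀ (x : X) (u w : TangentSpace (𝓡 d) x), θ x ![J x u, J x w] = θ x ![u, w]

variable [IsManifold (𝓡 d) ∞ X]

theorem inChart_sq {J : End d X} (hJ : ∀ (x : X) (v : TangentSpace (𝓡 d) x), J x (J x v) = -v)
    (x₀ : X) {z : E d} (hz : z ∈ (chartAt (E d) x₀).target) (u : E d) :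
    inChart J x₀ z (inChart J x₀ z u) = -u := by
  have h1 : ∀ v : E d, Pool.Agent.Y455.SY.A x₀ z (inChart J x₀ z v) =
      J ((chartAt (E d) x₀).symm z) (Pool.Agent.Y455.SY.A x₀ z v) := fun v =>
    Pool.Agent.Y455.SY.AB x₀ hz _
  have h2 : Pool.Agent.Y455.SY.A x₀ z (inChart J x₀ z (inChart J x₀ z u)) =
      -(Pool.Agent.Y455.SY.A x₀ z u) := by
    rw [h1, h1]
    exact hJ _ _
  have h3 := congrArg (Pool.Agent.Y455.SY.B x₀ z) h2
  rw [Pool.Agent.Y455.SY.BA x₀ hz, map_neg, Pool.Agent.Y455.SY.BA x₀ hz] at h3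
  exact h3

theorem inChart_inv {θ : Form d X 2} {J : End d X} (h : Invariant θ J) (x₀ : X) {z : E d}
    (hz : z ∈ (chartAt (E d) x₀).target) (u w : E d) :
    pb (chartAt (E d) x₀).symm θ z ![inChart J x₀ z u, inChart J x₀ z w] =
      pb (chartAt (E d) x₀).symm θ z ![u, w] := by
  have h1 : ∀ v : E d, Pool.Agent.Y455.SY.A x₀ z (inChart J x₀ z v) =
      J ((chartAt (E d) x₀).symm z) (Pool.Agent.Y455.SY.A x₀ z v) := fun v =>
    Pool.Agent.Y455.SY.AB x₀ hz _
  have h2 : ∀ v w : E d, pb (chartAt (E d) x₀).symm θ z ![v, w] =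
      θ ((chartAt (E d) x₀).symm z) ![Pool.Agent.Y455.SY.A x₀ z v,
        Pool.Agent.Y455.SY.A x₀ z w] := by
    intro v w
    unfold pb
    rw [ContinuousAlternatingMap.compContinuousLinearMap_apply]
    congr 1
    funext i
    fin_cases i <;> rfl
  rw [h2, h2, h1, h1]
  exact h _ _ _

/-- for invariant forms the distortion bound is automatic -/
theorem stronglyTames_of_invariant {θ : Form d X 2} {J : End d X}
    (hJ : ∀ (x : X) (v : TangentSpace (𝓡 d) x), J x (J x v) = -v) (hinv : Invariant θ J)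
    (h : LowerBounded θ J) : StronglyTames θ J := by
  intro x₀ N hN hNt
  obtain ⟨c₀, hc₀, hc⟩ := h x₀ N hN hNt
  refine ⟨c₀, hc₀, 1, ?_⟩
  filter_upwards [hc, ae_restrict_mem hN.measurableSet] with z hz hzN
  exact ⟨hz, distortion_inv _ _ (inChart_sq hJ x₀ (hNt hzN)) (inChart_inv hinv x₀ (hNt hzN))
    fun u => le_trans (by positivity) (hz u)⟩

/-- smooth forms are locally in every Lebesgue space -/
theorem locLp_of_smooth {σ : Form d X 2} (hσ : IsSmooth σ) (p : ℝ≥0∞) : LocLp σ p := by
  intro x₀ N hN hNt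
  have hc : ContinuousOn (pb (chartAt (E d) x₀).symm σ) N :=
    (smooth_chart hσ x₀).continuousOn.mono hNt
  obtain ⟨M, hM⟩ := hN.exists_bound_of_continuousOn hc
  have : IsFiniteMeasure (volume.restrict N) := isFiniteMeasure_restrict.2 hN.measure_lt_top.ne
  have h1 : MemLp (pb (chartAt (E d) x₀).symm σ) ⊤ (volume.restrict N) :=
    memLp_top_of_bound (hc.aestronglyMeasurable hN.measurableSet) M
      ((ae_restrict_iff' hN.measurableSet).2 (Eventually.of_forall hM))
  exact h1.mono_exponent le_top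

end Pool.Agent.H819.LG
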