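import Mathlib
import Pool.Graph.R_seed8.Y501.SY.Pub

/-!
# Closed two-forms with integrable coefficients: definitions

Forms and endomorphisms are those of `Pool.Graph.R_seed8.Y501.SY.Pub`: manifolds modelled on a
normed space `V`, in the applications `V = ES d` is Euclidean space and `μ = leb d` is Lebesgue
measure.
-/

set_option autoImplicit false

open Set Filter Topology MeasureTheory Metric
open scoped Manifold ContDiff ENNReal NNReal

noncomputable section

namespace Pool.Agent.H819.LGP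

open Pool.Agent.Y501.SYP

/-- Lebesgue measure on Euclidean space -/
def leb (d : ℕ) : Measure (ES d) := (volume : Measure (EuclideanSpace ℝ (Fin d)))

section lin

variable {V : Type} [NormedAddCommGroup V] [NormedSpace ℝ V]

/-- the value of an alternating map in one variable -/
def ev1 (s : V [⋀^Fin 1]→L[ℝ] ℝ) (u : V) : ℝ := s ![u]

/-- the value of an alternating map in two variables -/
def ev2 (s : V [⋀^Fin 2]→L[ℝ] ℝ) (u w : V) : ℝ := s ![u, w]

/-- `s(u, A u) ≥ c₀ |u|²` and `s(u, w)² ≤ C s(u, A u) s(w, A w)` -/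
structure Good (s : V [⋀^Fin 2]→L[ℝ] ℝ) (A : V →L[ℝ] V) (C c₀ : ℝ) : Prop where
  lower : ∀ u : V, c₀ * ‖u‖ ^ 2 ≤ ev2 s u (A u)
  dist : ∀ u w : V, ev2 s u w ^ 2 ≤ C * ev2 s u (A u) * ev2 s w (A w)

/-- the mass of `θ` in the ball of radius `ρ` about `z`, weighted by `(ρ + |A - B|)²` -/
def mass [MeasurableSpace V] (μ : Measure V) (θ : V → V [⋀^Fin 2]→L[ℝ] ℝ) (A : V → V →L[ℝ] V)
    (B : V →L[ℝ] V) (z : V) (ρ : ℝ) : ℝ≥0∞ :=
  ∫⁻ z' in closedBall z ρ, ENNReal.ofReal ((ρ + ‖A z' - B‖) ^ 2 * ‖θ z'‖) ∂μ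

end lin

section forms

variable {V : Type} [NormedAddCommGroup V] [NormedSpace ℝ V] [MeasurableSpace V]
  {X : Type} [TopologicalSpace X] [ChartedSpace V X]

/-- a form in the chart at `x₀` -/
def loc {k : ℕ} (x₀ : X) (θ : Form V X k) (z : V) : V [⋀^Fin k]→L[ℝ] ℝ :=
  pb (chartAt V x₀).symm θ z

/-- an endomorphism of the tangent bundle in the chart at `x₀` -/
def op (J : End V X) (x₀ : X) (p : V) : V →L[ℝ] V :=
  (mfderiv 𝓘(ℝ, V) 𝓘(ℝ, V) (chartAt V x₀) ((chartAt V x₀).symm p)).comp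
    ((J ((chartAt V x₀).symm p)).comp (mfderiv 𝓘(ℝ, V) 𝓘(ℝ, V) (chartAt V x₀).symm p))

/-- continuous fields of endomorphisms -/
def ContEnd (J : End V X) : Prop := ∀ x₀ : X, ContinuousOn (op J x₀) (chartAt V x₀).target

/-- `N` is a compact subset of the chart at `x₀`. -/
def InChart (x₀ : X) (N : Set V) : Prop := IsCompact N ∧ N ⊆ (chartAt V x₀).target

/-- `θ` is locally in `L^p` with respect to `μ` in the charts. -/
def LocLp (μ : Measure V) {k : ℕ} (θ : Form V X k) (p : ℝ≥0∞) : Prop :=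
  ∀ (x₀ : X) (N : Set V), InChart x₀ N → MemLp (loc x₀ θ) p (μ.restrict N)

/-- a smooth function whose support is a compact subset of the chart at `x₀` -/
structure Test (x₀ : X) (φ : V → ℝ) : Prop where
  smooth : ContDiff ℝ ∞ φ
  comp : HasCompactSupport φ
  supp : tsupport φ ⊆ (chartAt V x₀).target

/-- `η` is the exterior derivative of `α` in the sense of distributions; both are locally
integrable. -/
structure WeakD (μ : Measure V) (α : Form V X 1) (η : Form V X 2) : Prop where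
  int1 : LocLp μ α 1
  int2 : LocLp μ η 1
  weak : ∀ (x₀ : X) (φ : V → ℝ), Test x₀ φ → ∀ u v : V,
    ∫ z, (ev1 (loc x₀ α z) v * fderiv ℝ φ z u - ev1 (loc x₀ α z) u * fderiv ℝ φ z v) ∂μ =
      - ∫ z, ev2 (loc x₀ η z) u v * φ z ∂μ

/-- the form `θ - σ` -/
def subF (θ σ : Form V X 2) : Form V X 2 := fun x => θ x - σ x

/-- `θ` has locally integrable coefficients and represents the class of the smooth form `σ₀`: the
form `θ - σ₀` is the exterior derivative, in the sense of distributions, of a locally integrable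
one-form. -/
def Represents (μ : Measure V) (σ₀ θ : Form V X 2) : Prop :=
  ∃ α : Form V X 1, WeakD μ α (subF θ σ₀)

/-- `θ` is strongly taming: `θ(u, J u) ≥ c₀ |u|²` and `θ(u, w)² ≤ C θ(u, J u) θ(w, J w)` almost
everywhere, locally uniformly in the charts. -/
def StronglyTames (μ : Measure V) (θ : Form V X 2) (J : End V X) : Prop :=
  ∀ (x₀ : X) (N : Set V), InChart x₀ N → ∃ c₀ C : ℝ, 0 < c₀ ∧
    ∀ᵐ z ∂(μ.restrict N), Good (loc x₀ θ z) (op J x₀ z) C c₀

/-- `∫_{B(z, ρ)} (ρ + |J - J(z)|)² |θ| = o(ρ^d)`, locally uniformly in the charts. -/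
def VanishingDensity (μ : Measure V) (d : ℕ) (θ : Form V X 2) (J : End V X) : Prop :=
  ∀ (x₀ : X) (N : Set V), InChart x₀ N → ∀ ε : ℝ, 0 < ε → ∃ ρ₀ : ℝ, 0 < ρ₀ ∧
    ∀ ρ, 0 < ρ → ρ < ρ₀ → ∀ z ∈ N,
      mass μ (loc x₀ θ) (op J x₀) (op J x₀ z) z ρ ≤ ENNReal.ofReal (ε * ρ ^ d)

/-- `J` is locally Hölder continuous with exponent `a` in the charts. -/
def LocHolder (J : End V X) (a : ℝ) : Prop :=
  ∀ (x₀ : X) (N : Set V), InChart x₀ N →
    ∃ L : ℝ, ∀ z ∈ N, ∀ z' ∈ N, ‖op J x₀ z' - op J x₀ z‖ ≤ L * ‖z' - z‖ ^ a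

/-- `K i ⊆ N i` are compact pieces of charts, `K i` is contained in the interior of `N i`, and the
pieces `K i` cover `X`. -/
structure IsCover {n : ℕ} (x : Fin n → X) (K N : Fin n → Set V) : Prop where
  compact : ∀ i, IsCompact (K i)
  chart : ∀ i, InChart (x i) (N i)
  subset : ∀ i, K i ⊆ interior (N i)
  cover : ∀ p : X, ∃ i, ∃ z ∈ K i, (chartAt V (x i)).symm z = p

/-- In the charts, `J` is bounded by `M`, `J'` is measurable and bounded by `M`, the form `θ`
satisfies `θ(u, J' u) ≥ c₀ |u|²` and `θ(u, w)² ≤ C θ(u, J' u) θ(w, J' w)` almost everywhere, and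
`∫_{B(z, ρ)} (ρ + |J' - J(z)|)² |θ| ≤ m`. -/
structure SmallAt (μ : Measure V) {n : ℕ} (x : Fin n → X) (K N : Fin n → Set V) (J J' : End V X)
    (θ : Form V X 2) (C M c₀ ρ m : ℝ) : Prop where
  bound : ∀ i, ∀ z ∈ N i, ‖op J (x i) z‖ ≤ M
  meas : ∀ i, AEStronglyMeasurable (op J' (x i)) (μ.restrict (N i))
  bound' : ∀ i, ∀ᵐ z ∂(μ.restrict (N i)), ‖op J' (x i) z‖ ≤ M
  good : ∀ i, ∀ᵐ z ∂(μ.restrict (N i)), Good (loc (x i) θ z) (op J' (x i) z) C c₀
  small : ∀ i, ∀ z ∈ K i,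
    mass μ (loc (x i) θ) (op J' (x i)) (op J (x i) z) z ρ ≤ ENNReal.ofReal m

/-- The class of `σ₀` contains a symplectic form taming `J`. -/
def TamedIn (σ₀ : Form V X 2) (J : End V X) : Prop :=
  ∃ σ : Form V X 2, IsTamingSymplectic σ J ∧
    ∃ β : Form V X 1, IsSmooth β ∧ IsD β (subF σ σ₀)

end forms

end Pool.Agent.H819.LGP
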