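import Mathlib
import Pool.Agent.H819.LG.Inv

/-!
# The criterion
-/

set_option autoImplicit false

open Set Filter Topology MeasureTheory Metric
open scoped Manifold ContDiff ENNReal NNReal

noncomputable section

namespace Pool.Agent.H819.LG

open Pool.Agent.Y501.SY

section

variable {d : ℕ} {X : Type} [TopologicalSpace X] [ChartedSpace (E d) X]

/-- symplectic forms: smooth closed nondegenerate two-forms -/
def IsSymplectic (σ : Form d X 2) : Prop :=
  IsSmooth σ ∧ IsClosedForm σ ∧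
    ∀ (x : X) (u : TangentSpace (𝓡 d) x), (∀ v : TangentSpace (𝓡 d) x, σ x ![u, v] = 0) → u = 0

/-- The class of `σ₀` contains a symplectic form taming `J`. -/
def TamedIn (σ₀ : Form d X 2) (J : End d X) : Prop :=
  ∃ σ : Form d X 2, IsSymplectic σ ∧ (∃ β : Form d X 1, IsSmooth β ∧ IsD β (σ - σ₀)) ∧
    ∀ x, TamesAt σ J x

/-- `θ` has locally integrable coefficients and represents the class of `σ₀`: the form `θ - σ₀` is
the exterior derivative, in the sense of distributions, of a locally integrable one-form. -/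
def Represents (σ₀ θ : Form d X 2) : Prop := ∃ α : Form d X 1, WeakPrim α (θ - σ₀)

/-- `K i ⊆ N i` are compact pieces of charts, `K i` is contained in the interior of `N i`, and the
pieces `K i` cover `X`. -/
structure IsCover {n : ℕ} (x : Fin n → X) (K N : Fin n → Set (E d)) : Prop where
  compact : ∀ i, IsCompact (K i)
  compact' : ∀ i, IsCompact (N i)
  subset : ∀ i, K i ⊆ interior (N i)
  target : ∀ i, N i ⊆ (chartAt (E d) (x i)).target
  cover : ∀ p : X, ∃ i, ∃ z ∈ K i, (chartAt (E d) (x i)).symm z = p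

/-- In the charts, `J` is bounded by `M`, `J'` is measurable and bounded by `M`, the form `θ`
satisfies `θ(u, J' u) ≥ c₀ |u|²` and `θ(u, w)² ≤ C θ(u, J' u) θ(w, J' w)` almost everywhere, and
`∫_{B(z, ρ)} (ρ + |J' - J(z)|)² |θ| ≤ ε c₀ ρ^d`. -/
structure SmallAt {n : ℕ} (x : Fin n → X) (K N : Fin n → Set (E d)) (J J' : End d X)
    (θ : Form d X 2) (C M c₀ ρ ε : ℝ) : Prop where
  bound : ∀ i, ∀ z ∈ N i, ‖inChart J (x i) z‖ ≤ M
  meas : ∀ i, AEStronglyMeasurable (inChart J' (x i)) (volume.restrict (N i))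
  good : ∀ i, ∀ᵐ z ∂(volume.restrict (N i)), ‖inChart J' (x i) z‖ ≤ M ∧
    GoodAt (pb (chartAt (E d) (x i)).symm θ) (inChart J' (x i)) C c₀ z
  small : ∀ i, ∀ z ∈ K i, mass (pb (chartAt (E d) (x i)).symm θ) (inChart J' (x i))
    (inChart J (x i) z) z ρ ≤ ENNReal.ofReal (ε * c₀ * ρ ^ d)

theorem tamedIn_of {σ₀ : Form d X 2} {J : End d X}
    (h : ∃ σ : Form d X 2, InClass σ₀ σ ∧ ∀ p, TamesAt σ J p) : TamedIn σ₀ J := by
  obtain ⟨σ, ⟨h1, h2, h3⟩, h4⟩ := h
  refine ⟨σ, ⟨h1, h2, fun x u hu => ?_⟩, h3, h4⟩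
  by_contra h0
  have h5 := h4 x u h0
  rw [hu] at h5
  exact lt_irrefl _ h5

end

/-- **Symplectic forms from closed two-forms with integrable coefficients.**  Let `X` be a closed
manifold of dimension `d`, covered by compact pieces `K i ⊆ N i` of charts.  There are functions
`ε > 0` and `ρ₀ > 0` of two variables such that for each continuous field `J` of endomorphisms of
the tangent spaces and each smooth closed two-form `σ₀` the following are equivalent:

* the class of `σ₀` contains a symplectic form taming `J`;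
* it is represented by a locally bounded strongly taming form `θ`;
* it is represented by a strongly taming form `θ` with locally integrable coefficients and
  vanishing density;
* it is represented by a form `θ` with locally integrable coefficients which satisfies
  `θ(u, J' u) ≥ c₀ |u|²`, `θ(u, w)² ≤ C θ(u, J' u) θ(w, J' w)` almost everywhere and
  `∫_{B(z, ρ)} (ρ + |J' - J(z)|)² |θ| ≤ ε(C, M) c₀ ρ^d` for one scale `ρ ≤ ρ₀(C, M)`, where `J'` is
  a measurable field of endomorphisms and `J`, `J'` are bounded by `M`;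

and if `d ≥ 2` and `J` is locally Hölder continuous with exponent `a`:

* it is represented by a strongly taming form `θ` which is locally in `L^(d / (2 a))`. -/
theorem criterion (d : ℕ) (X : Type) [TopologicalSpace X] [ChartedSpace (E d) X]
    [IsManifold (𝓡 d) ∞ X] [CompactSpace X] [T2Space X] (n : ℕ) (x : Fin n → X)
    (K N : Fin n → Set (E d)) (hcov : IsCover x K N) :
    ∃ ε ρ₀ : ℝ → ℝ → ℝ, (∀ C M, 0 < ε C M ∧ 0 < ρ₀ C M) ∧
    ∀ (J : End d X), (∀ x₀, ContinuousOn (inChart J x₀) (chartAt (E d) x₀).target) →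
    ∀ σ₀ : Form d X 2, IsSmooth σ₀ → IsClosedForm σ₀ →
    List.TFAE [
      TamedIn σ₀ J,
      ∃ θ : Form d X 2, Represents σ₀ θ ∧ StronglyTames θ J ∧ LocLp θ ⊤,
      ∃ θ : Form d X 2, Represents σ₀ θ ∧ StronglyTames θ J ∧ VanishingDensity θ J,
      ∃ (θ : Form d X 2) (J' : End d X) (C M c₀ ρ : ℝ), Represents σ₀ θ ∧ 0 ≤ C ∧ 0 < c₀ ∧
        0 < ρ ∧ ρ ≤ ρ₀ C M ∧ SmallAt x K N J J' θ C M c₀ ρ (ε C M)] ∧
    (2 ≤ d → ∀ a : ℝ, 0 < a → a ≤ 1 → LocHolder J a →
      (TamedIn σ₀ J ↔ ∃ θ : Form d X 2, Represents σ₀ θ ∧ StronglyTames θ J ∧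
        LocLp θ (ENNReal.ofReal (d / (2 * a))))) := by
  have hadd : ∀ σ₀ θ : Form d X 2, σ₀ + (θ - σ₀) = θ := fun σ₀ θ => by abel
  have hex : ∀ C M : ℝ, ∃ ε ρ₀ : ℝ, 0 < ε ∧ 0 < ρ₀ ∧ (0 ≤ C → ∀ (J J' : End d X)
      (σ₀ θ : Form d X 2) (c₀ ρ : ℝ),
      (∀ x₀, ContinuousOn (inChart J x₀) (chartAt (E d) x₀).target) → IsSmooth σ₀ →
      IsClosedForm σ₀ → Represents σ₀ θ → 0 < c₀ → 0 < ρ → ρ ≤ ρ₀ →
      SmallAt x K N J J' θ C M c₀ ρ ε → TamedIn σ₀ J) := by
    intro C M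
    by_cases hC : 0 ≤ C
    · obtain ⟨ε, hε, ρ₀, hρ₀, h⟩ := small_density x K N hcov.compact hcov.compact' hcov.subset
        hcov.target hcov.cover hC M
      refine ⟨ε, ρ₀, hε, hρ₀, fun _ J J' σ₀ θ c₀ ρ hJ h1 h2 h3 hc₀ hρ hρ' hs => ?_⟩
      obtain ⟨α, hα⟩ := h3
      refine tamedIn_of (h J J' (fun i => (hJ (x i)).mono (hcov.target i)) hs.bound hs.meas
        σ₀ α (θ - σ₀) h1 h2 hα c₀ hc₀ ?_ ρ hρ hρ' ?_)
      · rw [hadd]
        exact hs.good
      · rw [hadd]
        exact hs.small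
    · exact ⟨1, 1, one_pos, one_pos, fun h => absurd h hC⟩
  choose ε ρ₀ hε hρ₀ hex using hex
  refine ⟨ε, ρ₀, fun C M => ⟨hε C M, hρ₀ C M⟩, fun J hJ σ₀ h1 h2 => ?_⟩
  have key : ∀ θ : Form d X 2, Represents σ₀ θ → StronglyTames θ J → VanishingDensity θ J →
      TamedIn σ₀ J := by
    rintro θ ⟨α, hα⟩ h3 h4
    refine tamedIn_of (vanishing_density hJ h1 h2 hα ?_ ?_)
    · rw [hadd]
      exact h3
    · rw [hadd]
      exact h4
  have hback : TamedIn σ₀ J → ∃ θ : Form d X 2, Represents σ₀ θ ∧ StronglyTames θ J ∧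
      ∀ p : ℝ≥0∞, LocLp θ p := by
    rintro ⟨σ, ⟨s1, s2, -⟩, ⟨β, hβ, hd⟩, ht⟩
    have hs : IsSmooth (σ - σ₀) := by
      intro U φ hU hφ
      refine ((s1 U φ hU hφ).sub (h1 U φ hU hφ)).congr fun p _ => ?_
      exact Pool.Agent.Y891.SY.pb_sub φ σ σ₀ p
    exact ⟨σ, ⟨β, weakPrim_of_smooth hβ hs hd⟩, stronglyTames_of_tames s1 hJ ht,
      fun p => locLp_of_smooth s1 p⟩
  refine ⟨?_, fun hd a ha ha1 hJa => ⟨fun h => ?_, ?_⟩⟩
  · tfae_have 1 → 2 := by
      intro h
      obtain ⟨θ, h3, h4, h5⟩ := hback h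
      exact ⟨θ, h3, h4, h5 ⊤⟩
    tfae_have 2 → 3 := by
      rintro ⟨θ, h3, h4, h5⟩
      exact ⟨θ, h3, h4, vanishing_of_top hJ h5⟩
    tfae_have 3 → 4 := by
      rintro ⟨θ, h3, h4, h5⟩
      choose c hc C hC using fun i => h4 (x i) (N i) (hcov.compact' i) (hcov.target i)
      obtain ⟨c₀, hc₀, hc₀'⟩ := exists_pos_le c hc
      have hM : ∀ i, ∃ M : ℝ, ∀ z ∈ N i, ‖inChart J (x i) z‖ ≤ M := fun i =>
        (hcov.compact' i).exists_bound_of_continuousOn ((hJ (x i)).mono (hcov.target i))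
      choose M hM using hM
      have hCi : ∀ i, C i ≤ ∑ i, |C i| := fun i => (le_abs_self _).trans
        (Finset.single_le_sum (f := fun i => |C i|) (fun j _ => abs_nonneg _) (Finset.mem_univ i))
      have hMi : ∀ i, M i ≤ ∑ i, |M i| := fun i => (le_abs_self _).trans
        (Finset.single_le_sum (f := fun i => |M i|) (fun j _ => abs_nonneg _) (Finset.mem_univ i))
      set C₀ : ℝ := ∑ i, |C i|
      set M₀ : ℝ := ∑ i, |M i|
      have hv := fun i => h5 (x i) (K i) (hcov.compact i)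
        (((hcov.subset i).trans interior_subset).trans (hcov.target i)) (ε C₀ M₀ * c₀)
        (mul_pos (hε C₀ M₀) hc₀)
      choose s hs hv using hv
      obtain ⟨s₀, hs₀, hs₀'⟩ := exists_pos_le s hs
      have hρ' := hρ₀ C₀ M₀
      refine ⟨θ, J, C₀, M₀, c₀, min (ρ₀ C₀ M₀) (s₀ / 2), h3,
        Finset.sum_nonneg fun i _ => abs_nonneg _, hc₀, by positivity, min_le_left _ _,
        fun i z hz => (hM i z hz).trans (hMi i), fun i => ((hJ (x i)).mono
          (hcov.target i)).aestronglyMeasurable (hcov.compact' i).measurableSet,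
        fun i => ?_, fun i z hz => ?_⟩
      · filter_upwards [hC i, ae_restrict_mem (hcov.compact' i).measurableSet] with z hz hzN
        exact ⟨(hM i z hzN).trans (hMi i), hz.mono (hc i).le (hCi i) (hc₀' i)⟩
      · refine hv i _ (by positivity) ?_ z hz
        calc min (ρ₀ C₀ M₀) (s₀ / 2) ≤ s₀ / 2 := min_le_right _ _
          _ < s₀ := by linarith
          _ ≤ s i := hs₀' i
    tfae_have 4 → 1 := by
      rintro ⟨θ, J', C, M, c₀, ρ, h3, hC, hc₀, hρ, hρ', hs⟩
      exact hex C M hC J J' σ₀ θ c₀ ρ hJ h1 h2 h3 hc₀ hρ hρ' hs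
    tfae_finish
  · obtain ⟨θ, h3, h4, h5⟩ := hback h
    exact ⟨θ, h3, h4, h5 _⟩
  · rintro ⟨θ, h3, h4, h5⟩
    exact key θ h3 h4 (vanishing_of_Lp ha ha1 hd hJa h5)

end Pool.Agent.H819.LG
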