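import Mathlib
import Pool.Agent.H819.LG.Pub
import Pool.Agent.H819.LG.Fin

/-!
# Comparison of the definitions over `ES d` with the working definitions
-/

set_option autoImplicit false

open Set Filter Topology MeasureTheory Metric
open scoped Manifold ContDiff ENNReal NNReal

noncomputable section

namespace Pool.Agent.H819.LGP

open Pool.Agent.Y501 (SY.E)
open Pool.Agent.Y501.SYP

section

variable {d : ℕ} {X : Type} [TopologicalSpace X] [ChartedSpace (ES d) X]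

/-- the same charted space over `EuclideanSpace ℝ (Fin d)` -/
abbrev cs (d : ℕ) (X : Type) [TopologicalSpace X] [h : ChartedSpace (ES d) X] :
    ChartedSpace (Y501.SY.E d) X := h

attribute [local instance] cs

theorem smooth_iff {k : ℕ} (σ : Form (ES d) X k) :
    IsSmooth σ ↔ Y501.SY.IsSmooth (d := d) (X := X) σ :=
  ⟨fun h U φ hU hφ => h U φ ⟨hU, hφ⟩, fun h U φ hφ => h U φ hφ.1 hφ.2⟩

theorem isD_iff {k : ℕ} (α : Form (ES d) X k) (η : Form (ES d) X (k + 1)) :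
    IsD α η ↔ Y501.SY.IsD (d := d) (X := X) α η :=
  ⟨fun h U φ hU hφ => h U φ ⟨hU, hφ⟩, fun h U φ hφ => h U φ hφ.1 hφ.2⟩

theorem closed_iff {k : ℕ} (σ : Form (ES d) X k) :
    IsClosedForm σ ↔ Y501.SY.IsClosedForm (d := d) (X := X) σ :=
  ⟨fun h U φ hU hφ p hp => h U φ ⟨hU, hφ⟩ p hp, fun h U φ hφ p hp => h U φ hφ.1 hφ.2 p hp⟩

theorem loc_eq {k : ℕ} (x₀ : X) (θ : Form (ES d) X k) :
    loc x₀ θ = Y501.SY.pb (d := d) (X := X) (chartAt (Y501.SY.E d) x₀).symm θ := rfl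

theorem op_eq (J : End (ES d) X) (x₀ : X) :
    op J x₀ = Y501.SY.inChart (d := d) (X := X) J x₀ := rfl

theorem good_iff (s : (ES d) [⋀^Fin 2]→L[ℝ] ℝ) (A : ES d → ES d →L[ℝ] ES d) (C c₀ : ℝ)
    (θ : ES d → (ES d) [⋀^Fin 2]→L[ℝ] ℝ) (z : ES d) (hs : θ z = s) :
    Good s (A z) C c₀ ↔ LG.GoodAt (d := d) θ A C c₀ z := by
  subst hs
  exact ⟨fun h => ⟨h.lower, h.dist⟩, fun h => ⟨h.1, h.2⟩⟩

theorem mass_eq (θ : ES d → (ES d) [⋀^Fin 2]→L[ℝ] ℝ) (A : ES d → ES d →L[ℝ] ES d)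
    (B : ES d →L[ℝ] ES d) (z : ES d) (ρ : ℝ) :
    mass (leb d) θ A B z ρ = LG.mass (d := d) θ A B z ρ := by
  show ∫⁻ z' in closedBall z ρ, ENNReal.ofReal ((ρ + ‖A z' - B‖) ^ 2 * ‖θ z'‖) ∂(leb d) = _
  have h : ∀ z' : ES d, ENNReal.ofReal ((ρ + ‖A z' - B‖) ^ 2 * ‖θ z'‖) =
      ENNReal.ofReal ((ρ + ‖A z' - B‖) ^ 2) * ‖θ z'‖ₑ := by
    intro z'
    rw [ENNReal.ofReal_mul (sq_nonneg _), ofReal_norm]
  simp_rw [h]
  rfl

theorem locLp_iff {k : ℕ} (θ : Form (ES d) X k) (p : ℝ≥0∞) : LocLp (leb d) θ p ↔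
    ∀ (x₀ : X) (N : Set (ES d)), IsCompact N → N ⊆ (chartAt (ES d) x₀).target →
      MemLp (loc x₀ θ) p ((leb d).restrict N) :=
  ⟨fun h x₀ N h1 h2 => h x₀ N ⟨h1, h2⟩, fun h x₀ N hN => h x₀ N hN.1 hN.2⟩

theorem loc1_iff {k : ℕ} (θ : Form (ES d) X k) : LocLp (leb d) θ 1 ↔
    ∀ x₀ : X, LocallyIntegrableOn (loc x₀ θ) (chartAt (ES d) x₀).target (leb d) := by
  rw [locLp_iff]
  refine forall_congr' fun x₀ => ?_
  have h1 : IsLocallyClosed (chartAt (Y501.SY.E d) x₀).target :=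
    (chartAt (Y501.SY.E d) x₀).open_target.isLocallyClosed
  have h2 := locallyIntegrableOn_iff (μ := (volume : Measure (Y501.SY.E d)))
    (f := Y501.SY.pb (d := d) (X := X) (chartAt (Y501.SY.E d) x₀).symm θ) h1
  refine Iff.trans ?_ h2.symm
  constructor
  · intro h k hk hkc
    exact memLp_one_iff_integrable.1 (h k hkc hk)
  · intro h k hkc hk
    exact memLp_one_iff_integrable.2 (h k hk hkc)

theorem weak_iff (α : Form (ES d) X 1) (η : Form (ES d) X 2) :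
    WeakD (leb d) α η ↔ LG.WeakPrim (d := d) (X := X) α η := by
  constructor
  · intro h
    exact ⟨(loc1_iff α).1 h.int1, (loc1_iff η).1 h.int2,
      fun x₀ φ h1 h2 h3 u v => h.weak x₀ φ ⟨h1, h2, h3⟩ u v⟩
  · intro h
    exact ⟨(loc1_iff α).2 h.int1, (loc1_iff η).2 h.int2,
      fun x₀ φ hφ u v => h.weak x₀ φ hφ.smooth hφ.comp hφ.supp u v⟩

theorem rep_iff (σ₀ θ : Form (ES d) X 2) :
    Represents (leb d) σ₀ θ ↔ LG.Represents (d := d) (X := X) σ₀ θ :=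
  exists_congr fun α => weak_iff α (subF θ σ₀)

theorem strong_iff (θ : Form (ES d) X 2) (J : End (ES d) X) :
    StronglyTames (leb d) θ J ↔ LG.StronglyTames (d := d) (X := X) θ J := by
  constructor
  · intro h x₀ N hN hNt
    obtain ⟨c₀, C, hc₀, h1⟩ := h x₀ N ⟨hN, hNt⟩
    exact ⟨c₀, hc₀, C, h1.mono fun z hz => (good_iff _ _ C c₀ (loc x₀ θ) z rfl).1 hz⟩
  · intro h x₀ N hN
    obtain ⟨c₀, hc₀, C, h1⟩ := h x₀ N hN.1 hN.2
    exact ⟨c₀, C, hc₀, h1.mono fun z hz => (good_iff _ _ C c₀ (loc x₀ θ) z rfl).2 hz⟩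

theorem vanish_iff (θ : Form (ES d) X 2) (J : End (ES d) X) :
    VanishingDensity (leb d) d θ J ↔ LG.VanishingDensity (d := d) (X := X) θ J := by
  constructor
  · intro h x₀ N hN hNt ε hε
    obtain ⟨ρ₀, hρ₀, h1⟩ := h x₀ N ⟨hN, hNt⟩ ε hε
    refine ⟨ρ₀, hρ₀, fun ρ h2 h3 z hz => ?_⟩
    have h4 := h1 ρ h2 h3 z hz
    rw [mass_eq] at h4
    exact h4
  · intro h x₀ N hN ε hε
    obtain ⟨ρ₀, hρ₀, h1⟩ := h x₀ N hN.1 hN.2 ε hε
    refine ⟨ρ₀, hρ₀, fun ρ h2 h3 z hz => ?_⟩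
    rw [mass_eq]
    exact h1 ρ h2 h3 z hz

theorem holder_iff (J : End (ES d) X) (a : ℝ) :
    LocHolder J a ↔ LG.LocHolder (d := d) (X := X) J a :=
  ⟨fun h x₀ N h1 h2 => h x₀ N ⟨h1, h2⟩, fun h x₀ N hN => h x₀ N hN.1 hN.2⟩

theorem lp_iff (θ : Form (ES d) X 2) (p : ℝ≥0∞) :
    LocLp (leb d) θ p ↔ LG.LocLp (d := d) (X := X) θ p := locLp_iff θ p

theorem cover_iff {n : ℕ} (x : Fin n → X) (K N : Fin n → Set (ES d)) :
    IsCover x K N ↔ LG.IsCover (d := d) (X := X) x K N :=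
  ⟨fun h => ⟨h.compact, fun i => (h.chart i).1, h.subset, fun i => (h.chart i).2, h.cover⟩,
    fun h => ⟨h.compact, fun i => ⟨h.compact' i, h.target i⟩, h.subset, h.cover⟩⟩

theorem smallAt_iff {n : ℕ} (x : Fin n → X) (K N : Fin n → Set (ES d)) (J J' : End (ES d) X)
    (θ : Form (ES d) X 2) (C M c₀ ρ ε : ℝ) :
    SmallAt (leb d) x K N J J' θ C M c₀ ρ (ε * c₀ * ρ ^ d) ↔
      LG.SmallAt (d := d) (X := X) x K N J J' θ C M c₀ ρ ε := by
  constructor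
  · intro h
    refine ⟨h.bound, h.meas, fun i => ?_, fun i z hz => ?_⟩
    · filter_upwards [h.bound' i, h.good i] with z h1 h2
      exact ⟨h1, (good_iff _ _ C c₀ (loc (x i) θ) z rfl).1 h2⟩
    · have h1 := h.small i z hz
      rw [mass_eq] at h1
      exact h1
  · intro h
    refine ⟨h.bound, h.meas, fun i => (h.good i).mono fun z hz => hz.1,
      fun i => (h.good i).mono fun z hz => (good_iff _ _ C c₀ (loc (x i) θ) z rfl).2 hz.2,
      fun i z hz => ?_⟩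
    rw [mass_eq]
    exact h.small i z hz

theorem tamed_iff (σ₀ : Form (ES d) X 2) (J : End (ES d) X) :
    TamedIn σ₀ J ↔ LG.TamedIn (d := d) (X := X) σ₀ J := by
  constructor
  · rintro ⟨σ, h, β, h1, h2⟩
    exact ⟨σ, ⟨(smooth_iff σ).1 h.smooth, (closed_iff σ).1 h.closed, h.nondeg⟩,
      ⟨β, (smooth_iff β).1 h1, (isD_iff β _).1 h2⟩, h.tames⟩
  · rintro ⟨σ, ⟨h1, h2, h3⟩, ⟨β, h4, h5⟩, h6⟩
    exact ⟨σ, ⟨(smooth_iff σ).2 h1, (closed_iff σ).2 h2, h3, h6⟩, β, (smooth_iff β).2 h4,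
      (isD_iff β _).2 h5⟩

end

end Pool.Agent.H819.LGP
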